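import Mathlib

namespace Pool.Agent.helper15.Kumar

/-- The module `S_{(n^i)}` occurs in the coordinate ring of the Chow variety, in the form of the
frozen statement: there is a polynomial function on degree-`n` forms in `n` variables which is
invariant under upper unipotent substitutions, has torus weight `(n, …, n, 0, …, 0)` with `i`
entries `n`, and does not vanish at some product of `n` linear forms. -/
def KumarOccurs (n i : ℕ) : Prop :=
  ∃ F : MvPolynomial {m : Fin n →₀ ℕ // ∑ j, m j = n} ℂ,
        (∀ g : Matrix (Fin n) (Fin n) ℂ,
          (∀ j k : Fin n, k ≤ j → g j k = if j = k then 1 else 0) →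
          ∀ p : MvPolynomial (Fin n) ℂ,
            MvPolynomial.eval
                (fun m : {m : Fin n →₀ ℕ // ∑ j, m j = n} =>
                  MvPolynomial.coeff m.1
                    (MvPolynomial.aeval
                      (fun j : Fin n => ∑ k : Fin n,
                        MvPolynomial.C (g j k) * (MvPolynomial.X k : MvPolynomial (Fin n) ℂ)) p)) F
              = MvPolynomial.eval
                  (fun m : {m : Fin n →₀ ℕ // ∑ j, m j = n} => MvPolynomial.coeff m.1 p) F) ∧
        (∀ t : Fin n → ℂ, ∀ p : MvPolynomial (Fin n) ℂ,
            MvPolynomial.eval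
                (fun m : {m : Fin n →₀ ℕ // ∑ j, m j = n} =>
                  MvPolynomial.coeff m.1
                    (MvPolynomial.aeval
                      (fun j : Fin n =>
                        MvPolynomial.C (t j) * (MvPolynomial.X j : MvPolynomial (Fin n) ℂ)) p)) F
              = (∏ j : Fin n, t j ^ (if (j : ℕ) < i then n else 0)) *
                  MvPolynomial.eval
                    (fun m : {m : Fin n →₀ ℕ // ∑ j, m j = n} => MvPolynomial.coeff m.1 p) F) ∧
        ∃ ℓ : Fin n → Fin n → ℂ,
          MvPolynomial.eval
              (fun m : {m : Fin n →₀ ℕ // ∑ j, m j = n} =>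
                MvPolynomial.coeff m.1
                  (∏ a : Fin n, ∑ k : Fin n,
                    MvPolynomial.C (ℓ a k) * (MvPolynomial.X k : MvPolynomial (Fin n) ℂ))) F ≠ 0

end Pool.Agent.helper15.Kumar
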