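import Pool.Agent.helper15.KTwo
import Pool.Agent.helper15.KDef

open Finset Matrix

namespace Pool.Agent.helper15.Kumar

section pol

variable {n : ℕ}

/-- The exponents of degree `n` in `n` variables. -/
def Dn (n : ℕ) : Finset (Fin n →₀ ℕ) := Finset.univ.finsuppAntidiag n

lemma mem_Dn {m : Fin n →₀ ℕ} : m ∈ Dn n ↔ ∑ j, m j = n := by
  simp [Dn, Finset.mem_finsuppAntidiag]

/-- value of the degree `n` part -/
noncomputable def evn (p : MvPolynomial (Fin n) ℂ) (x : Fin n → ℂ) : ℂ :=
  ∑ m ∈ Dn n, p.coeff m * ∏ j, x j ^ m j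

lemma evn_add (p q : MvPolynomial (Fin n) ℂ) (x : Fin n → ℂ) :
    evn (p + q) x = evn p x + evn q x := by
  unfold evn
  rw [← Finset.sum_add_distrib]
  refine Finset.sum_congr rfl fun m _ => ?_
  rw [MvPolynomial.coeff_add]
  ring

lemma evn_eq (p : MvPolynomial (Fin n) ℂ) (x : Fin n → ℂ) :
    evn p x = (MvPolynomial.aeval (fun j => Polynomial.C (x j) * Polynomial.X) p :
      Polynomial ℂ).coeff n := by
  induction p using MvPolynomial.induction_on' with
  | add p q hp hq => rw [evn_add, hp, hq, map_add, Polynomial.coeff_add]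
  | monomial m c =>
    rw [MvPolynomial.aeval_monomial]
    have e1 : (m.prod fun j k => (Polynomial.C (x j) * Polynomial.X) ^ k : Polynomial ℂ) =
        Polynomial.C (∏ j, x j ^ m j) * Polynomial.X ^ (∑ j, m j) := by
      rw [Finsupp.prod_fintype _ _ (by intro i; simp)]
      simp only [mul_pow, Finset.prod_mul_distrib, Finset.prod_pow_eq_pow_sum, map_prod, map_pow]
    rw [e1]
    have e2 : (algebraMap ℂ (Polynomial ℂ)) c = Polynomial.C c := rfl
    rw [e2, ← mul_assoc, ← map_mul, Polynomial.coeff_C_mul_X_pow]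
    unfold evn
    simp only [MvPolynomial.coeff_monomial, ite_mul, zero_mul]
    rw [Finset.sum_ite_eq]
    by_cases h : ∑ j, m j = n
    · rw [if_pos (mem_Dn.mpr h), if_pos h.symm]
    · rw [if_neg (fun h' => h (mem_Dn.mp h')), if_neg (fun h' => h h'.symm)]

lemma evn_subst (g : Fin n → Fin n → ℂ) (p : MvPolynomial (Fin n) ℂ) (x : Fin n → ℂ) :
    evn (MvPolynomial.aeval
      (fun j : Fin n => ∑ k : Fin n,
        MvPolynomial.C (g j k) * (MvPolynomial.X k : MvPolynomial (Fin n) ℂ)) p) x =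
      evn p (fun j => ∑ k, g j k * x k) := by
  rw [evn_eq, evn_eq, MvPolynomial.comp_aeval_apply]
  congr 2
  congr 1
  funext j
  rw [map_sum, map_sum, Finset.sum_mul]
  refine Finset.sum_congr rfl fun k _ => ?_
  rw [map_mul, MvPolynomial.aeval_X, MvPolynomial.aeval_C, map_mul]
  have e2 : (algebraMap ℂ (Polynomial ℂ)) (g j k) = Polynomial.C (g j k) := rfl
  rw [e2]
  ring

lemma evn_prod (L : Fin n → Fin n → ℂ) (x : Fin n → ℂ) :
    evn (∏ a : Fin n, ∑ k : Fin n,
        MvPolynomial.C (L a k) * (MvPolynomial.X k : MvPolynomial (Fin n) ℂ)) x =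
      ∏ a, ∑ k, L a k * x k := by
  rw [evn_eq, map_prod]
  have e1 : ∀ a, (MvPolynomial.aeval (fun j => Polynomial.C (x j) * Polynomial.X))
      (∑ k : Fin n, MvPolynomial.C (L a k) * (MvPolynomial.X k : MvPolynomial (Fin n) ℂ)) =
      (Polynomial.C (∑ k, L a k * x k) * Polynomial.X : Polynomial ℂ) := by
    intro a
    rw [map_sum, map_sum, Finset.sum_mul]
    refine Finset.sum_congr rfl fun k _ => ?_
    rw [map_mul, MvPolynomial.aeval_X, MvPolynomial.aeval_C, map_mul]
    have e2 : (algebraMap ℂ (Polynomial ℂ)) (L a k) = Polynomial.C (L a k) := rfl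
    rw [e2]
    ring
  rw [Finset.prod_congr rfl fun a _ => e1 a, Finset.prod_mul_distrib, ← map_prod]
  rw [Finset.prod_const, Finset.card_univ, Fintype.card_fin, Polynomial.coeff_C_mul_X_pow,
    if_pos rfl]

/-- polarization -/
noncomputable def Pol (p : MvPolynomial (Fin n) ℂ) (y : Fin n → Fin n → ℂ) : ℂ :=
  ∑ S : Finset (Fin n), (-1) ^ (Sᶜ).card * evn p (fun j => ∑ t ∈ S, y t j)

/-- polarization of a monomial -/
noncomputable def muP (m : Fin n →₀ ℕ) (y : Fin n → Fin n → ℂ) : ℂ :=
  ∑ S : Finset (Fin n), (-1) ^ (Sᶜ).card * ∏ j, (∑ t ∈ S, y t j) ^ m j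

lemma Pol_eq (p : MvPolynomial (Fin n) ℂ) (y : Fin n → Fin n → ℂ) :
    Pol p y = ∑ m ∈ Dn n, p.coeff m * muP m y := by
  unfold Pol evn muP
  simp only [Finset.mul_sum]
  rw [Finset.sum_comm]
  refine Finset.sum_congr rfl fun m _ => Finset.sum_congr rfl fun S _ => ?_
  ring

lemma muP_perm (m : Fin n →₀ ℕ) (hm : m ∈ Dn n) : ∃ q : Fin n → Fin n, ∀ y : Fin n → Fin n → ℂ,
    muP m y = ∑ τ : Equiv.Perm (Fin n), ∏ a, y (τ a) (q a) := by
  have hcard : Fintype.card (Σ j : Fin n, Fin (m j)) = Fintype.card (Fin n) := by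
    rw [Fintype.card_sigma]
    simp only [Fintype.card_fin]
    exact mem_Dn.mp hm
  let e : (Σ j : Fin n, Fin (m j)) ≃ Fin n := Fintype.equivOfCardEq hcard
  refine ⟨fun a => (e.symm a).1, fun y => ?_⟩
  have e1 : ∀ x : Fin n → ℂ, ∏ j, x j ^ m j = ∏ a, x ((e.symm a).1) := by
    intro x
    rw [Equiv.prod_comp e.symm (fun s : (Σ j : Fin n, Fin (m j)) => x s.1), Fintype.prod_sigma]
    refine Finset.prod_congr rfl fun j _ => ?_
    simp
  unfold muP
  have e2 : ∀ S : Finset (Fin n), ∏ j, (∑ t ∈ S, y t j) ^ m j =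
      ∑ g ∈ Fintype.piFinset (fun _ : Fin n => S), ∏ a, y (g a) ((e.symm a).1) := by
    intro S
    rw [e1 (fun j => ∑ t ∈ S, y t j), Finset.prod_univ_sum]
  rw [Finset.sum_congr rfl fun S _ => by rw [e2 S]]
  exact incl_excl (R := ℂ) (fun g : Fin n → Fin n => ∏ a, y (g a) ((e.symm a).1))

lemma muP_multilinear {Λ : Type*} [Fintype Λ] (m : Fin n →₀ ℕ) (hm : m ∈ Dn n)
    (b : Fin n → Λ → ℂ) (z : Λ → Fin n → ℂ) :
    muP m (fun t j => ∑ l, b t l * z l j) =
      ∑ f : Fin n → Λ, (∏ t, b t (f t)) * muP m (fun t => z (f t)) := by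
  classical
  obtain ⟨q, hq⟩ := muP_perm m hm
  rw [hq]
  simp only [hq]
  have e1 : ∀ τ : Equiv.Perm (Fin n), ∏ a, ∑ l, b (τ a) l * z l (q a) =
      ∑ f : Fin n → Λ, (∏ t, b t (f t)) * ∏ a, z (f (τ a)) (q a) := by
    intro τ
    rw [Finset.prod_univ_sum, Fintype.piFinset_univ]
    rw [← Equiv.sum_comp (Equiv.arrowCongr τ.symm (Equiv.refl Λ))]
    refine Finset.sum_congr rfl fun f _ => ?_
    rw [Finset.prod_mul_distrib]
    congr 1
    rw [← Equiv.prod_comp τ (fun t => b t (f t))]
    rfl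
  rw [Finset.sum_congr rfl fun τ _ => e1 τ, Finset.sum_comm]
  refine Finset.sum_congr rfl fun f _ => ?_
  rw [Finset.mul_sum]

lemma Pol_multilinear {Λ : Type*} [Fintype Λ] (p : MvPolynomial (Fin n) ℂ)
    (b : Fin n → Λ → ℂ) (z : Λ → Fin n → ℂ) :
    Pol p (fun t j => ∑ l, b t l * z l j) =
      ∑ f : Fin n → Λ, (∏ t, b t (f t)) * Pol p (fun t => z (f t)) := by
  classical
  rw [Pol_eq]
  have e1 : ∀ m ∈ Dn n, p.coeff m * muP m (fun t j => ∑ l, b t l * z l j) =
      ∑ f : Fin n → Λ, (∏ t, b t (f t)) * (p.coeff m * muP m (fun t => z (f t))) := by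
    intro m hm
    rw [muP_multilinear m hm, Finset.mul_sum]
    refine Finset.sum_congr rfl fun f _ => ?_
    ring
  rw [Finset.sum_congr rfl e1, Finset.sum_comm]
  refine Finset.sum_congr rfl fun f _ => ?_
  rw [Pol_eq, Finset.mul_sum]

lemma Pol_subst (g : Fin n → Fin n → ℂ) (p : MvPolynomial (Fin n) ℂ) (y : Fin n → Fin n → ℂ) :
    Pol (MvPolynomial.aeval
      (fun j : Fin n => ∑ k : Fin n,
        MvPolynomial.C (g j k) * (MvPolynomial.X k : MvPolynomial (Fin n) ℂ)) p) y =
      Pol p (fun t j => ∑ k, g j k * y t k) := by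
  unfold Pol
  refine Finset.sum_congr rfl fun S _ => ?_
  rw [evn_subst]
  congr 2
  funext j
  simp only [Finset.mul_sum]
  rw [Finset.sum_comm]

lemma Pol_prod (L : Fin n → Fin n → ℂ) (y : Fin n → Fin n → ℂ) :
    Pol (∏ a : Fin n, ∑ k : Fin n,
        MvPolynomial.C (L a k) * (MvPolynomial.X k : MvPolynomial (Fin n) ℂ)) y =
      ∑ τ : Equiv.Perm (Fin n), ∏ a, ∑ k, L a k * y (τ a) k := by
  unfold Pol
  simp only [evn_prod]
  have e1 : ∀ S : Finset (Fin n), ∏ a, ∑ k, L a k * ∑ t ∈ S, y t k =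
      ∑ g ∈ Fintype.piFinset (fun _ : Fin n => S), ∏ a, ∑ k, L a k * y (g a) k := by
    intro S
    have e2 : ∀ a, ∑ k, L a k * ∑ t ∈ S, y t k = ∑ t ∈ S, ∑ k, L a k * y t k := by
      intro a
      simp only [Finset.mul_sum]
      rw [Finset.sum_comm]
    rw [Finset.prod_congr rfl fun a _ => e2 a, Finset.prod_univ_sum]
  rw [Finset.sum_congr rfl fun S _ => by rw [e1 S]]
  exact incl_excl (R := ℂ) (fun g : Fin n → Fin n => ∏ a, ∑ k, L a k * y (g a) k)

end pol

section highest

variable {n : ℕ}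

/-- the unit vectors indexed by a map -/
def ev (v : Fin n → Fin n) : Fin n → Fin n → ℂ := fun t j => if v t = j then 1 else 0

/-- the linear form computing a polarized coefficient -/
noncomputable def Lin (v : Fin n → Fin n) :
    MvPolynomial {m : Fin n →₀ ℕ // ∑ j, m j = n} ℂ :=
  ∑ m ∈ (Dn n).attach, MvPolynomial.C (muP m.1 (ev v)) * MvPolynomial.X ⟨m.1, mem_Dn.mp m.2⟩

lemma eval_Lin (v : Fin n → Fin n) (p : MvPolynomial (Fin n) ℂ) :
    MvPolynomial.eval (fun m : {m : Fin n →₀ ℕ // ∑ j, m j = n} => MvPolynomial.coeff m.1 p)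
      (Lin v) = Pol p (ev v) := by
  unfold Lin
  rw [map_sum, Pol_eq]
  rw [← Finset.sum_attach (Dn n) (fun m => p.coeff m * muP m (ev v))]
  refine Finset.sum_congr rfl fun m _ => ?_
  rw [map_mul, MvPolynomial.eval_C, MvPolynomial.eval_X]
  ring

/-- the highest weight vector -/
noncomputable def HWV (n i : ℕ) (h : i ≤ n) :
    MvPolynomial {m : Fin n →₀ ℕ // ∑ j, m j = n} ℂ :=
  ∑ f : Fin i → Fin n → Fin i, MvPolynomial.C ((∏ t, ((eps fun r => f r t : ℤ) : ℂ))) *
    ∏ r, Lin (fun t => Fin.castLE h (f r t))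

/-- its value -/
noncomputable def hval (n i : ℕ) (h : i ≤ n) (p : MvPolynomial (Fin n) ℂ) : ℂ :=
  ∑ f : Fin i → Fin n → Fin i, (∏ t, ((eps fun r => f r t : ℤ) : ℂ)) *
    ∏ r, Pol p (ev fun t => Fin.castLE h (f r t))

lemma eval_HWV (n i : ℕ) (h : i ≤ n) (p : MvPolynomial (Fin n) ℂ) :
    MvPolynomial.eval (fun m : {m : Fin n →₀ ℕ // ∑ j, m j = n} => MvPolynomial.coeff m.1 p)
      (HWV n i h) = hval n i h p := by
  unfold HWV hval
  rw [map_sum]
  refine Finset.sum_congr rfl fun f _ => ?_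
  rw [map_mul, MvPolynomial.eval_C, map_prod]
  congr 1
  refine Finset.prod_congr rfl fun r _ => ?_
  rw [eval_Lin]

lemma hval_subst (n i : ℕ) (h : i ≤ n) (g : Fin n → Fin n → ℂ)
    (hg : ∀ (j : Fin n) (k : Fin i), i ≤ (j : ℕ) → g j (Fin.castLE h k) = 0)
    (p : MvPolynomial (Fin n) ℂ) :
    hval n i h (MvPolynomial.aeval
      (fun j : Fin n => ∑ k : Fin n,
        MvPolynomial.C (g j k) * (MvPolynomial.X k : MvPolynomial (Fin n) ℂ)) p) =
      (Matrix.det (Matrix.of fun a b : Fin i => g (Fin.castLE h a) (Fin.castLE h b))) ^ n *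
        hval n i h p := by
  unfold hval
  set G : Matrix (Fin i) (Fin i) ℂ :=
    Matrix.of fun a b : Fin i => g (Fin.castLE h a) (Fin.castLE h b) with hG
  have e1 : ∀ v : Fin n → Fin i, Pol (MvPolynomial.aeval
      (fun j : Fin n => ∑ k : Fin n,
        MvPolynomial.C (g j k) * (MvPolynomial.X k : MvPolynomial (Fin n) ℂ)) p)
        (ev fun t => Fin.castLE h (v t)) =
      ∑ f : Fin n → Fin i, (∏ t, G (f t) (v t)) * Pol p (ev fun t => Fin.castLE h (f t)) := by
    intro v
    rw [Pol_subst]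
    have e2 : (fun (t j : Fin n) => ∑ k, g j k * ev (fun t => Fin.castLE h (v t)) t k) =
        fun t j => ∑ l : Fin i, G l (v t) * (fun (l : Fin i) (j : Fin n) =>
          if Fin.castLE h l = j then (1 : ℂ) else 0) l j := by
      funext t j
      unfold ev
      simp only [mul_ite, mul_one, mul_zero, Finset.sum_ite_eq, Finset.mem_univ, if_true]
      by_cases hj : (j : ℕ) < i
      · rw [Finset.sum_eq_single (⟨j, hj⟩ : Fin i)]
        · have : Fin.castLE h ⟨j, hj⟩ = j := by ext; simp
          rw [if_pos this, hG]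
          simp [this]
        · intro l _ hl
          rw [if_neg]
          intro h'
          apply hl
          apply Fin.ext
          have h'' := congrArg Fin.val h'
          simpa using h''
        · intro h'; exact absurd (mem_univ _) h'
      · rw [hg j (v t) (by omega)]
        symm
        apply Finset.sum_eq_zero
        intro l _
        rw [if_neg]
        intro h'
        apply hj
        rw [← h']
        simp
    rw [e2, Pol_multilinear p (fun t l => G l (v t))]
    rfl
  have e3 : ∀ f : Fin i → Fin n → Fin i, (∏ t, ((eps fun r => f r t : ℤ) : ℂ)) *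
      ∏ r, Pol (MvPolynomial.aeval
      (fun j : Fin n => ∑ k : Fin n,
        MvPolynomial.C (g j k) * (MvPolynomial.X k : MvPolynomial (Fin n) ℂ)) p)
        (ev fun t => Fin.castLE h (f r t)) =
      ∑ w : Fin i → Fin n → Fin i, (∏ r, Pol p (ev fun t => Fin.castLE h (w r t))) *
        ∏ t, (((eps fun r => f r t : ℤ) : ℂ) * ∏ r, G (w r t) (f r t)) := by
    intro f
    rw [Finset.prod_congr rfl fun r _ => e1 (f r), Finset.prod_univ_sum, Fintype.piFinset_univ,
      Finset.mul_sum]
    refine Finset.sum_congr rfl fun w _ => ?_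
    rw [Finset.prod_mul_distrib, Finset.prod_mul_distrib, Finset.prod_comm]
    ring
  rw [Finset.sum_congr rfl fun f _ => e3 f, Finset.sum_comm, Finset.mul_sum]
  refine Finset.sum_congr rfl fun w _ => ?_
  rw [← Finset.mul_sum]
  have e4 : ∑ f : Fin i → Fin n → Fin i,
      ∏ t, (((eps fun r => f r t : ℤ) : ℂ) * ∏ r, G (w r t) (f r t)) =
      ∏ t, ∑ u : Fin i → Fin i, (((eps u : ℤ) : ℂ) * ∏ r, G (w r t) (u r)) := by
    rw [Finset.prod_univ_sum, Fintype.piFinset_univ]
    rw [← Equiv.sum_comp (Equiv.piComm (fun (_ : Fin n) (_ : Fin i) => Fin i))]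
    rfl
  rw [e4]
  have e5 : ∀ t, ∑ u : Fin i → Fin i, (((eps u : ℤ) : ℂ) * ∏ r, G (w r t) (u r)) =
      ((eps fun r => w r t : ℤ) : ℂ) * G.det := by
    intro t
    have h6 := det_expand (Matrix.of fun r k => G (w r t) k)
    rw [det_rows_comp G (fun r => w r t)] at h6
    rw [h6]
    rfl
  rw [Finset.prod_congr rfl fun t _ => e5 t, Finset.prod_mul_distrib]
  rw [Finset.prod_const, Finset.card_univ, Fintype.card_fin]
  ring

lemma hval_prod (n i : ℕ) (h : i ≤ n) (L : Fin n → Fin n → ℂ) :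
    hval n i h (∏ a : Fin n, ∑ k : Fin n,
        MvPolynomial.C (L a k) * (MvPolynomial.X k : MvPolynomial (Fin n) ℂ)) =
      DD (I := Fin i) (fun a k => L a (Fin.castLE h k)) := by
  rw [← LL_row]
  change _ = ∑ v : Fin i → Fin n → Fin i, (∏ t, ((eps fun r => v r t : ℤ) : ℂ)) *
    Lam ℂ v (fun Y => ∏ s, ∏ r, ∑ k, Y r k * L s (Fin.castLE h k))
  unfold hval
  refine Finset.sum_congr rfl fun v _ => ?_
  congr 1
  rw [Lam_row v (fun a k => L a (Fin.castLE h k))]
  have e1 : ∀ r, Pol (∏ a : Fin n, ∑ k : Fin n,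
        MvPolynomial.C (L a k) * (MvPolynomial.X k : MvPolynomial (Fin n) ℂ))
        (ev fun t => Fin.castLE h (v r t)) =
      ∑ τ : Equiv.Perm (Fin n), ∏ a, L a (Fin.castLE h (v r (τ a))) := by
    intro r
    rw [Pol_prod]
    refine Finset.sum_congr rfl fun τ _ => Finset.prod_congr rfl fun a _ => ?_
    unfold ev
    simp
  rw [Finset.prod_congr rfl fun r _ => e1 r, Finset.prod_univ_sum, Fintype.piFinset_univ]
  refine Finset.sum_congr rfl fun τ _ => ?_
  rw [Finset.prod_comm]

end highest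

theorem kumarOccurs_of_goodN {n i : ℕ} (h : i ≤ n) (hg : GoodN n i) : KumarOccurs n i := by
  refine ⟨HWV n i h, ?_, ?_, ?_⟩
  · intro g hgu p
    rw [eval_HWV, eval_HWV, hval_subst n i h g]
    · have hdet : Matrix.det (Matrix.of fun a b : Fin i =>
          g (Fin.castLE h a) (Fin.castLE h b)) = 1 := by
        rw [Matrix.det_of_upperTriangular]
        · apply Finset.prod_eq_one
          intro a _
          rw [Matrix.of_apply, hgu _ _ (le_refl _), if_pos rfl]
        · intro a b hab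
          have hab' : b < a := hab
          rw [Matrix.of_apply, hgu _ _ (by exact hab'.le), if_neg]
          intro h'
          have := Fin.castLE_injective h h'
          exact absurd this hab'.ne'
      rw [hdet, one_pow, one_mul]
    · intro j k hj
      have hlt : Fin.castLE h k < j := by
        rw [Fin.lt_def]
        simp only [Fin.val_castLE]
        omega
      rw [hgu _ _ hlt.le, if_neg hlt.ne']
  · intro t p
    have e1 : (fun j : Fin n => MvPolynomial.C (t j) *
        (MvPolynomial.X j : MvPolynomial (Fin n) ℂ)) =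
        fun j : Fin n => ∑ k : Fin n, MvPolynomial.C ((if j = k then t j else 0 : ℂ)) *
          (MvPolynomial.X k : MvPolynomial (Fin n) ℂ) := by
      funext j
      rw [Finset.sum_eq_single j]
      · simp
      · intro k _ hk
        rw [if_neg hk.symm]
        simp
      · intro h'; exact absurd (mem_univ _) h'
    rw [e1, eval_HWV, eval_HWV, hval_subst n i h (fun j k => if j = k then t j else 0)]
    · congr 1
      have e2 : (Matrix.of fun a b : Fin i => if Fin.castLE h a = Fin.castLE h b then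
          t (Fin.castLE h a) else 0) = Matrix.diagonal fun a => t (Fin.castLE h a) := by
        ext a b
        by_cases hab : a = b
        · subst hab; simp
        · have : Fin.castLE h a ≠ Fin.castLE h b := fun h' => hab (Fin.castLE_injective h h')
          simp [hab, this]
      rw [e2, Matrix.det_diagonal, ← Finset.prod_pow]
      have e3 : ∀ j : Fin n, t j ^ (if (j : ℕ) < i then n else 0) =
          if (j : ℕ) < i then t j ^ n else 1 := by
        intro j
        split_ifs <;> simp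
      rw [Finset.prod_congr rfl fun j _ => e3 j, ← Finset.prod_filter]
      refine Finset.prod_bij (fun a _ => Fin.castLE h a) ?_ ?_ ?_ ?_
      · intro a _; simp
      · intro a _ b _ hab; exact Fin.castLE_injective h hab
      · intro j hj
        simp only [Finset.mem_filter, Finset.mem_univ, true_and] at hj
        exact ⟨⟨j, hj⟩, mem_univ _, by ext; simp⟩
      · intro a _; rfl
    · intro j k hj
      rw [if_neg]
      intro h'
      have := congrArg Fin.val h'
      simp only [Fin.val_castLE] at this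
      omega
  · obtain ⟨ℓ, hℓ⟩ := exists_DD_ne_zero hg
    refine ⟨fun a j => if hj : (j : ℕ) < i then ℓ a ⟨j, hj⟩ else 0, ?_⟩
    rw [eval_HWV, hval_prod]
    have e4 : (fun (a : Fin n) (k : Fin i) => (fun (a : Fin n) (j : Fin n) =>
        if hj : (j : ℕ) < i then ℓ a ⟨j, hj⟩ else 0) a (Fin.castLE h k)) = ℓ := by
      funext a k
      simp
    have e5 := congrArg (fun q : Fin n → Fin i → ℂ => DD q) e4
    intro h0
    apply hℓ
    rw [← h0]
    exact e5.symm

end Pool.Agent.helper15.Kumar
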