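import Pool.Agent.helper15.KGlynn

open Finset Matrix

namespace Pool.Agent.helper15.Kumar

section Base

variable {I B W C : Type*} [Fintype I] [DecidableEq I] [Fintype B] [DecidableEq B]
  [Fintype W] [DecidableEq W] [Fintype C] [DecidableEq C]

lemma eps_eq_sum (f : I → I) :
    eps f = ∑ σ : Equiv.Perm I, if ∀ r, f r = σ r then (Equiv.Perm.sign σ : ℤ) else 0 := by
  by_cases hf : Function.Injective f
  · have hb : Function.Bijective f := ⟨hf, Finite.injective_iff_surjective.mp hf⟩
    rw [Finset.sum_eq_single (Equiv.ofBijective f hb)]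
    · have hh : ∀ r, f r = (Equiv.ofBijective f hb) r := fun r => rfl
      rw [if_pos hh, ← eps_perm]
      rfl
    · intro σ _ hσ
      rw [if_neg]
      intro h
      apply hσ
      ext r
      rw [← h r]
      rfl
    · intro h; exact absurd (mem_univ _) h
  · rw [eps_eq_zero_of_not_injective hf]
    symm
    apply Finset.sum_eq_zero
    intro σ _
    rw [if_neg]
    intro h
    apply hf
    have : f = σ := funext h
    rw [this]
    exact σ.injective

/-- A partial injection extends to a permutation. -/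
lemma exists_perm_extend {X : Type*} [Fintype X] [DecidableEq X] {U : Type*} [Fintype U]
    (i : U → X) (hi : Function.Injective i) (f : U → X) (hf : Function.Injective f) :
    ∃ e : Equiv.Perm X, ∀ u, e (i u) = f u := by
  classical
  let e0 : {x // x ∈ Set.range i} ≃ {x // x ∈ Set.range f} :=
    (Equiv.ofInjective i hi).symm.trans (Equiv.ofInjective f hf)
  refine ⟨Equiv.extendSubtype e0, fun u => ?_⟩
  rw [Equiv.extendSubtype_apply_of_mem e0 (i u) ⟨u, rfl⟩]
  have : (⟨i u, ⟨u, rfl⟩⟩ : {x // x ∈ Set.range i}) = Equiv.ofInjective i hi u := rfl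
  rw [this]
  simp [e0]

/-- Pointwise stabilizer sizes. -/
noncomputable def hcard (lam : W → I → B) (a : B) : ℕ :=
  (univ.filter fun ρ : Equiv.Perm I => ∀ w r, lam w r = a → ρ r = r).card

lemma hcard_dvd (lam : W → I → B) (a : B) : hcard lam a ∣ (Fintype.card I).factorial := by
  classical
  let H : Subgroup (Equiv.Perm I) :=
    { carrier := {ρ | ∀ w r, lam w r = a → ρ r = r}
      mul_mem' := by
        intro x y hx hy w r h
        rw [Equiv.Perm.mul_apply, hy w r h, hx w r h]
      one_mem' := by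
        intro w r _; rfl
      inv_mem' := by
        intro x hx w r h
        rw [Equiv.Perm.inv_eq_iff_eq]
        exact (hx w r h).symm }
  have h1 : Nat.card H = hcard lam a := by
    rw [Nat.card_eq_fintype_card]
    unfold hcard
    rw [← Fintype.card_subtype]
    exact Fintype.card_congr (Equiv.refl _)
  have h2 := Subgroup.card_subgroup_dvd_card H
  rw [h1, Nat.card_eq_fintype_card, Fintype.card_perm] at h2
  exact h2

lemma card_ext (lam : W → I → B) (hlam : ∀ r, Function.Injective fun w => lam w r)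
    (σ : W → Equiv.Perm I) (a : B) :
    (univ.filter fun ρ : Equiv.Perm I => ∀ w r, lam w r = a → ρ r = σ w r).card =
      if ∀ w w' r r', lam w r = a → lam w' r' = a → σ w r = σ w' r' → r = r' then
        hcard lam a else 0 := by
  classical
  split_ifs with hc
  · -- find an extension
    let U := {wr : W × I // lam wr.1 wr.2 = a}
    obtain ⟨ρ0, hρ0⟩ := exists_perm_extend (X := I) (U := U) (fun u => u.1.2)
      (by
        rintro ⟨⟨w, r⟩, h⟩ ⟨⟨w', r'⟩, h'⟩ hrr
        simp only at hrr h h'
        subst hrr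
        have : w = w' := hlam r (by simp only; rw [h, h'])
        subst this
        rfl)
      (fun u => σ u.1.1 u.1.2)
      (by
        rintro ⟨⟨w, r⟩, h⟩ ⟨⟨w', r'⟩, h'⟩ hrr
        simp only at hrr h h'
        have h3 := hc w w' r r' h h' hrr
        subst h3
        have : w = w' := hlam r (by simp only; rw [h, h'])
        subst this
        rfl)
    unfold hcard
    refine Finset.card_nbij' (fun ρ => ρ0⁻¹ * ρ) (fun ρ => ρ0 * ρ) ?_ ?_ ?_ ?_
    · intro ρ hρ
      simp only [Finset.coe_filter, Finset.mem_univ, true_and, Set.mem_setOf_eq] at hρ ⊢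
      intro w r h
      rw [Equiv.Perm.mul_apply, hρ w r h, ← hρ0 ⟨(w, r), h⟩]
      simp
    · intro ρ hρ
      simp only [Finset.coe_filter, Finset.mem_univ, true_and, Set.mem_setOf_eq] at hρ ⊢
      intro w r h
      rw [Equiv.Perm.mul_apply, hρ w r h]
      exact hρ0 ⟨(w, r), h⟩
    · intro ρ _; simp
    · intro ρ _; simp
  · rw [Finset.card_eq_zero, Finset.filter_eq_empty_iff]
    intro ρ _ hρ
    apply hc
    intro w w' r r' h h' hs
    apply ρ.injective
    rw [hρ w r h, hρ w' r' h', hs]

lemma sum_kappa (lam : W → I → B) (hlam : ∀ r, Function.Injective fun w => lam w r) :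
    ∑ κ : B → Equiv.Perm I, ∏ w, eps (fun r => κ (lam w r) r) =
      ((∏ a, hcard lam a : ℕ) : ℤ) * ∑ σ : W → Equiv.Perm I, (∏ w, (Equiv.Perm.sign (σ w) : ℤ)) *
        (if ∀ w w' r r', lam w r = lam w' r' → σ w r = σ w' r' → r = r' then 1 else 0) := by
  have h1 : ∀ κ : B → Equiv.Perm I, ∏ w, eps (fun r => κ (lam w r) r) =
      ∑ σ : W → Equiv.Perm I, (∏ w, (Equiv.Perm.sign (σ w) : ℤ)) *
        (if ∀ w r, κ (lam w r) r = σ w r then 1 else 0) := by
    intro κ
    simp_rw [eps_eq_sum]
    rw [Finset.prod_univ_sum, Fintype.piFinset_univ]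
    refine Finset.sum_congr rfl fun σ _ => ?_
    by_cases h : ∀ w r, κ (lam w r) r = σ w r
    · rw [if_pos h, mul_one]
      refine Finset.prod_congr rfl fun w _ => ?_
      rw [if_pos (h w)]
    · rw [if_neg h, mul_zero]
      push Not at h
      obtain ⟨w, r, hr⟩ := h
      apply Finset.prod_eq_zero (mem_univ w)
      rw [if_neg]
      intro h'
      exact hr (h' r)
  rw [Finset.sum_congr rfl fun κ _ => h1 κ, Finset.sum_comm, Finset.mul_sum]
  refine Finset.sum_congr rfl fun σ _ => ?_
  rw [← Finset.mul_sum]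
  have h2 : ∀ κ : B → Equiv.Perm I, (if ∀ w r, κ (lam w r) r = σ w r then (1 : ℤ) else 0) =
      ∏ a, (if ∀ w r, lam w r = a → κ a r = σ w r then (1 : ℤ) else 0) := by
    intro κ
    by_cases h : ∀ w r, κ (lam w r) r = σ w r
    · rw [if_pos h]
      symm
      apply Finset.prod_eq_one
      intro a _
      rw [if_pos]
      intro w r hwr
      rw [← hwr]
      exact h w r
    · rw [if_neg h]
      push Not at h
      obtain ⟨w, r, hr⟩ := h
      symm
      apply Finset.prod_eq_zero (mem_univ (lam w r))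
      rw [if_neg]
      intro h'
      exact hr (h' w r rfl)
  rw [Finset.sum_congr rfl fun κ _ => h2 κ]
  have h3 := (Finset.prod_univ_sum (fun _ : B => (univ : Finset (Equiv.Perm I)))
    (fun a ρ => (if ∀ w r, lam w r = a → ρ r = σ w r then (1 : ℤ) else 0))).symm
  rw [Fintype.piFinset_univ] at h3
  rw [h3]
  have h4 : ∀ a : B, ∑ ρ : Equiv.Perm I, (if ∀ w r, lam w r = a → ρ r = σ w r then (1 : ℤ) else 0)
      = (hcard lam a : ℤ) *
        (if ∀ w w' r r', lam w r = a → lam w' r' = a → σ w r = σ w' r' → r = r' then 1 else 0) := by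
    intro a
    have := card_ext lam hlam σ a
    rw [← Finset.sum_filter, Finset.sum_const, this]
    split_ifs <;> simp
  rw [Finset.prod_congr rfl fun a _ => h4 a, Finset.prod_mul_distrib]
  have h5 : (∏ a : B, (if ∀ w w' r r', lam w r = a → lam w' r' = a → σ w r = σ w' r' → r = r'
      then (1 : ℤ) else 0)) =
      (if ∀ w w' r r', lam w r = lam w' r' → σ w r = σ w' r' → r = r' then 1 else 0) := by
    by_cases h : ∀ w w' r r', lam w r = lam w' r' → σ w r = σ w' r' → r = r'
    · rw [if_pos h]
      apply Finset.prod_eq_one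
      intro a _
      rw [if_pos]
      intro w w' r r' h1 h2 h3
      exact h w w' r r' (h1.trans h2.symm) h3
    · rw [if_neg h]
      push Not at h
      obtain ⟨w, w', r, r', h1, h2, h3⟩ := h
      apply Finset.prod_eq_zero (mem_univ (lam w' r'))
      rw [if_neg]
      intro h'
      exact h3 (h' w w' r r' h1 rfl h2)
  rw [h5]
  push_cast
  ring

/-- the average of `ZZ` over a coset, mod `p`. -/
lemma sum_ZZ {p : ℕ} [Fact p.Prime] (hC : Fintype.card C = p - 1) (θ : I → Equiv.Perm (W ⊕ C)) :
    ∑ g : I → Equiv.Perm C,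
      ((ZZ (fun r => θ r * (Equiv.sumCongr (Equiv.refl W) (g r) : Equiv.Perm (W ⊕ C))) : ℤ) : ZMod p)
      = (-1) ^ Fintype.card I *
        ((∑ κ : W ⊕ C → Equiv.Perm I, ∏ w : W, eps (fun r => κ (θ r (Sum.inl w)) r) : ℤ) :
          ZMod p) := by
  simp only [ZZ, Int.cast_sum, Int.cast_prod]
  rw [Finset.sum_comm, Finset.mul_sum]
  refine Finset.sum_congr rfl fun κ _ => ?_
  have h1 : ∀ g : I → Equiv.Perm C, ∏ b : W ⊕ C, ((eps fun r =>
      κ ((θ r * (Equiv.sumCongr (Equiv.refl W) (g r) : Equiv.Perm (W ⊕ C))) b) r : ℤ) : ZMod p) =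
      (∏ w : W, ((eps (fun r => κ (θ r (Sum.inl w)) r) : ℤ) : ZMod p)) *
      ∏ c : C, ((eps (fun r => κ (θ r (Sum.inr (g r c))) r) : ℤ) : ZMod p) := by
    intro g
    rw [Fintype.prod_sum_type]
    rfl
  rw [Finset.sum_congr rfl fun g _ => h1 g, ← Finset.mul_sum]
  by_cases h0 : ∏ w : W, ((eps (fun r => κ (θ r (Sum.inl w)) r) : ℤ) : ZMod p) = 0
  · rw [h0]; simp
  · have hinj : ∀ w : W, Function.Bijective (fun r => κ (θ r (Sum.inl w)) r) := by
      intro w
      have hi : Function.Injective (fun r => κ (θ r (Sum.inl w)) r) := by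
        by_contra hcon
        apply h0
        apply Finset.prod_eq_zero (mem_univ w)
        rw [eps_eq_zero_of_not_injective hcon]
        simp
      exact ⟨hi, Finite.injective_iff_surjective.mp hi⟩
    have hg := glynn (p := p) hC (fun r c => κ (θ r (Sum.inr c)) r) (by
      intro k
      have e1 : ∑ r : I, ∑ b : W ⊕ C, (if κ (θ r b) r = k then 1 else 0) =
          Fintype.card (W ⊕ C) := by
        have e2 : ∀ r : I, ∑ b : W ⊕ C, (if κ (θ r b) r = k then 1 else 0) =
            ∑ a : W ⊕ C, (if κ a r = k then 1 else 0) := by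
          intro r
          exact Equiv.sum_comp (θ r) (fun a => if κ a r = k then 1 else 0)
        rw [Finset.sum_congr rfl fun r _ => e2 r, Finset.sum_comm]
        have e3 : ∀ a : W ⊕ C, ∑ r : I, (if κ a r = k then 1 else 0) = 1 := by
          intro a
          rw [Equiv.sum_comp (κ a) (fun j => if j = k then 1 else 0)]
          simp
        rw [Finset.sum_congr rfl fun a _ => e3 a]
        simp
      have e4 : ∀ r : I, ∑ b : W ⊕ C, (if κ (θ r b) r = k then 1 else 0) =
          ∑ w : W, (if κ (θ r (Sum.inl w)) r = k then 1 else 0) +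
          ∑ c : C, (if κ (θ r (Sum.inr c)) r = k then 1 else 0) := by
        intro r
        rw [Fintype.sum_sum_type]
      rw [Finset.sum_congr rfl fun r _ => e4 r, Finset.sum_add_distrib] at e1
      have e5 : ∑ r : I, ∑ w : W, (if κ (θ r (Sum.inl w)) r = k then 1 else 0) =
          Fintype.card W := by
        rw [Finset.sum_comm]
        have e6 : ∀ w : W, ∑ r : I, (if κ (θ r (Sum.inl w)) r = k then 1 else 0) = 1 := by
          intro w
          have := Equiv.sum_comp (Equiv.ofBijective _ (hinj w)) (fun j => if j = k then 1 else 0)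
          simp only [Equiv.ofBijective_apply] at this
          rw [this]
          simp
        rw [Finset.sum_congr rfl fun w _ => e6 w]
        simp
      rw [e5, Fintype.card_sum] at e1
      have e7 : ∑ r : I, ∑ c : C, (if κ (θ r (Sum.inr c)) r = k then 1 else 0) = p - 1 := by
        omega
      rw [Finset.card_filter, ← Finset.univ_product_univ, Finset.sum_product]
      exact e7)
    rw [hg]
    ring

theorem good_of_signed {K : Type*} [Field K] [CharZero K] {p : ℕ} [hp : Fact p.Prime]
    (hC : Fintype.card C = p - 1)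
    (hI : Fintype.card I < p) (s : W → Equiv.Perm I)
    (hs : ∀ j, Function.Injective fun w => (s w)⁻¹ j)
    (μ : W → I → W ⊕ C) (hμ : ∀ w w' j j', μ w j = μ w' j' → j = j')
    (hZ : ((∑ σ : W → Equiv.Perm I, (∏ w, (Equiv.Perm.sign (σ w) : ℤ)) *
        (if ∀ w w' j, w ≠ w' → μ w j = μ w' j → σ w j ≠ σ w' j then 1 else 0) : ℤ) : ZMod p) ≠ 0) :
    Good K I (W ⊕ C) := by
  classical
  let lam : W → I → W ⊕ C := fun w r => μ w (s w r)
  have hlam : ∀ r, Function.Injective fun w => lam w r := by
    intro r w w' h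
    have h1 : s w r = s w' r := hμ _ _ _ _ h
    apply hs (s w r)
    have h2 : (s w)⁻¹ (s w r) = r := by simp
    have h3 : (s w')⁻¹ (s w r) = r := by rw [h1]; simp
    simp only
    rw [h2, h3]
  have hθ : ∀ r, ∃ e : Equiv.Perm (W ⊕ C), ∀ w, e (Sum.inl w) = lam w r := fun r =>
    exists_perm_extend (X := W ⊕ C) (U := W) Sum.inl Sum.inl_injective (fun w => lam w r) (hlam r)
  choose θ hθ using hθ
  have key := sum_ZZ (p := p) hC θ
  have h1 : (∑ κ : W ⊕ C → Equiv.Perm I, ∏ w : W, eps (fun r => κ (θ r (Sum.inl w)) r) : ℤ) =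
      ∑ κ : W ⊕ C → Equiv.Perm I, ∏ w : W, eps (fun r => κ (lam w r) r) := by
    refine Finset.sum_congr rfl fun κ _ => Finset.prod_congr rfl fun w _ => ?_
    simp_rw [hθ]
  rw [h1, sum_kappa lam hlam] at key
  -- change of variable
  have h2 : ∑ σ : W → Equiv.Perm I, (∏ w, (Equiv.Perm.sign (σ w) : ℤ)) *
        (if ∀ w w' r r', lam w r = lam w' r' → σ w r = σ w' r' → r = r' then 1 else 0) =
      (∏ w, (Equiv.Perm.sign (s w) : ℤ)) *
      ∑ σ : W → Equiv.Perm I, (∏ w, (Equiv.Perm.sign (σ w) : ℤ)) *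
        (if ∀ w w' j, w ≠ w' → μ w j = μ w' j → σ w j ≠ σ w' j then 1 else 0) := by
    rw [← Equiv.sum_comp (Equiv.mulRight s), Finset.mul_sum]
    refine Finset.sum_congr rfl fun σ _ => ?_
    have h3 : (∀ w w' r r', lam w r = lam w' r' → (Equiv.mulRight s σ) w r =
        (Equiv.mulRight s σ) w' r' → r = r') ↔
        (∀ w w' j, w ≠ w' → μ w j = μ w' j → σ w j ≠ σ w' j) := by
      constructor
      · intro h w w' j hne hm heq
        have h4 := h w w' ((s w)⁻¹ j) ((s w')⁻¹ j) (by simp [lam, hm]) (by simp [heq])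
        exact hne (hs j h4)
      · intro h w w' r r' hm heq
        have h4 : s w r = s w' r' := hμ _ _ _ _ hm
        by_cases hne : w = w'
        · subst hne
          exact (s w).injective h4
        · exfalso
          refine h w w' (s w r) hne ?_ ?_
          · have : μ w (s w r) = μ w' (s w' r') := hm
            rw [this, h4]
          · have : σ w (s w r) = σ w' (s w' r') := heq
            rw [this, h4]
    simp only [h3]
    have h5 : (∏ w, (Equiv.Perm.sign ((Equiv.mulRight s σ) w) : ℤ)) =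
        (∏ w, (Equiv.Perm.sign (s w) : ℤ)) * (∏ w, (Equiv.Perm.sign (σ w) : ℤ)) := by
      rw [← Finset.prod_mul_distrib]
      refine Finset.prod_congr rfl fun w _ => ?_
      simp [Equiv.Perm.sign_mul, mul_comm]
    rw [h5]
    ring
  rw [h2] at key
  by_contra hng
  have hz : ∀ τ : I → Equiv.Perm (W ⊕ C), ZZ τ = 0 := by
    intro τ
    by_contra hτ
    exact hng (good_of_ZZ_ne_zero τ hτ)
  simp_rw [hz] at key
  simp only [Int.cast_zero, Finset.sum_const_zero] at key
  have h6 : ((∏ a, hcard lam a : ℕ) : ZMod p) ≠ 0 := by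
    rw [Nat.cast_prod]
    rw [Finset.prod_ne_zero_iff]
    intro a _ h0
    rw [ZMod.natCast_eq_zero_iff] at h0
    have h7 := h0.trans (hcard_dvd lam a)
    rw [hp.out.dvd_factorial] at h7
    omega
  have h8 : ((∏ w, (Equiv.Perm.sign (s w) : ℤ) : ℤ) : ZMod p) ≠ 0 := by
    have h9 : IsUnit (∏ w, (Equiv.Perm.sign (s w) : ℤ)) := by
      have : (∏ w, (Equiv.Perm.sign (s w) : ℤ)) = ((∏ w, Equiv.Perm.sign (s w) : ℤˣ) : ℤ) := by
        push_cast; rfl
      rw [this]
      exact Units.isUnit _
    have h10 := h9.map (Int.castRingHom (ZMod p))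
    exact h10.ne_zero
  have h11 : ((-1 : ZMod p) ^ Fintype.card I) ≠ 0 := by
    apply pow_ne_zero
    exact neg_ne_zero.mpr one_ne_zero
  rw [Int.cast_mul, Int.cast_mul, Int.cast_natCast] at key
  have := (mul_ne_zero h11 (mul_ne_zero h6 (mul_ne_zero h8 hZ)))
  exact this key.symm

end Base

end Pool.Agent.helper15.Kumar
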