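import Mathlib

open Finset Matrix

namespace Pool.Agent.helper15.Kumar

section eps

variable {I : Type*} [Fintype I] [DecidableEq I]

/-- The Levi-Civita symbol of a self-map of a finite type. -/
noncomputable def eps (f : I → I) : ℤ :=
  Matrix.det (Matrix.of fun r k => if f r = k then (1 : ℤ) else 0)

lemma eps_cast (R : Type*) [CommRing R] (f : I → I) :
    ((eps f : ℤ) : R) = Matrix.det (Matrix.of fun r k => if f r = k then (1 : R) else 0) := by
  have h := (Int.castRingHom R).map_det (Matrix.of fun r k => if f r = k then (1 : ℤ) else 0)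
  have h2 : ((eps f : ℤ) : R) = (Int.castRingHom R)
      (Matrix.det (Matrix.of fun r k => if f r = k then (1 : ℤ) else 0)) := rfl
  rw [h2, h]
  congr 1
  ext r k
  by_cases hfk : f r = k <;> simp [Matrix.map_apply, hfk]

lemma det_rows_comp {R : Type*} [CommRing R] (M : Matrix I I R) (f : I → I) :
    Matrix.det (Matrix.of fun r k => M (f r) k) = (eps f : R) * Matrix.det M := by
  rw [eps_cast, ← Matrix.det_mul]
  congr 1
  ext r k
  simp [Matrix.mul_apply]

lemma eps_perm (σ : Equiv.Perm I) : eps (σ : I → I) = (Equiv.Perm.sign σ : ℤ) := by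
  have h := det_rows_comp (R := ℤ) (1 : Matrix I I ℤ) σ
  rw [Matrix.det_one, mul_one, Int.cast_id] at h
  rw [← h]
  have : (Matrix.of fun r k => (1 : Matrix I I ℤ) (σ r) k) = (1 : Matrix I I ℤ).submatrix σ id := by
    ext r k; rfl
  rw [this, Matrix.det_permute, Matrix.det_one, mul_one, Int.cast_id]

lemma eps_eq_zero_of_not_injective {f : I → I} (hf : ¬ Function.Injective f) : eps f = 0 := by
  simp only [Function.Injective, not_forall] at hf
  obtain ⟨a, b, hab, hne⟩ := hf
  refine Matrix.det_zero_of_row_eq hne ?_
  ext k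
  simp [hab]

lemma det_expand {R : Type*} [CommRing R] (M : Matrix I I R) :
    Matrix.det M = ∑ f : I → I, (eps f : R) * ∏ r, M r (f r) := by
  have hM : M = Matrix.of (fun r => ∑ k, M r k • (fun j => if k = j then (1 : R) else 0)) := by
    ext r j
    simp [Finset.sum_apply]
  have h2 := (Matrix.detRowAlternating (n := I) (R := R)).toMultilinearMap.map_sum
    (g := fun r k => M r k • (fun j => if k = j then (1 : R) else 0))
  calc Matrix.det M = Matrix.detRowAlternating
        (fun r => ∑ k, M r k • (fun j => if k = j then (1 : R) else 0)) := by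
        conv_lhs => rw [hM]
        rfl
    _ = ∑ f : I → I, Matrix.detRowAlternating
        (fun r => M r (f r) • (fun j => if f r = j then (1 : R) else 0)) := h2
    _ = ∑ f : I → I, (eps f : R) * ∏ r, M r (f r) := by
        refine Finset.sum_congr rfl fun f _ => ?_
        have h3 := (Matrix.detRowAlternating (n := I) (R := R)).toMultilinearMap.map_smul_univ
          (fun r => M r (f r)) (fun r => (fun j => if f r = j then (1 : R) else 0))
        have h4 : Matrix.detRowAlternating
            (fun r => M r (f r) • (fun j => if f r = j then (1 : R) else 0)) =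
            (∏ r, M r (f r)) • Matrix.detRowAlternating
              (fun r => (fun j => if f r = j then (1 : R) else 0)) := h3
        rw [h4, smul_eq_mul, mul_comm, eps_cast]
        rfl

end eps

section IE

variable {B : Type*} [Fintype B] [DecidableEq B]

lemma sum_supersets_neg_one {R : Type*} [CommRing R] (T : Finset B) :
    ∑ S : Finset B, (if T ⊆ S then (-1 : R) ^ (Sᶜ).card else 0) = if T = univ then 1 else 0 := by
  have h1 : ∑ S : Finset B, (if T ⊆ S then (-1 : R) ^ (Sᶜ).card else 0)
      = ∑ S : Finset B, (if S ⊆ Tᶜ then (-1 : R) ^ (S).card else 0) := by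
    refine Finset.sum_nbij' (fun S => Sᶜ) (fun S => Sᶜ) ?_ ?_ ?_ ?_ ?_
    · intro S _; exact mem_univ _
    · intro S _; exact mem_univ _
    · intro S _; simp
    · intro S _; simp
    · intro S _
      by_cases h : T ⊆ S
      · rw [if_pos h, if_pos (Finset.compl_subset_compl.mpr h)]
      · rw [if_neg h, if_neg (fun h' => h (Finset.compl_subset_compl.mp h'))]
  rw [h1, ← Finset.sum_filter]
  have h2 : (univ.filter fun S : Finset B => S ⊆ Tᶜ) = (Tᶜ).powerset := by
    ext S; simp
  rw [h2]
  have h3 := Finset.sum_powerset_neg_one_pow_card (x := Tᶜ)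
  have h4 : (∑ m ∈ (Tᶜ).powerset, (-1 : R) ^ m.card) =
      ((∑ m ∈ (Tᶜ).powerset, (-1 : ℤ) ^ m.card : ℤ) : R) := by
    push_cast; rfl
  rw [h4, h3]
  by_cases hT : T = univ
  · simp [hT]
  · have : Tᶜ ≠ ∅ := by
      intro h; apply hT; simpa using h
    simp [hT]

/-- Inclusion-exclusion: signed sum over subsets of sums over maps into the subset picks out
the permutations. -/
lemma incl_excl {R : Type*} [CommRing R] (h : (B → B) → R) :
    ∑ S : Finset B, (-1 : R) ^ (Sᶜ).card * ∑ g ∈ Fintype.piFinset (fun _ : B => S), h g
      = ∑ τ : Equiv.Perm B, h τ := by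
  have h1 : ∀ S : Finset B, (-1 : R) ^ (Sᶜ).card * ∑ g ∈ Fintype.piFinset (fun _ : B => S), h g
      = ∑ g : B → B, (if univ.image g ⊆ S then (-1 : R) ^ (Sᶜ).card else 0) * h g := by
    intro S
    rw [Finset.mul_sum]
    have : Fintype.piFinset (fun _ : B => S) = univ.filter (fun g : B → B => univ.image g ⊆ S) := by
      ext g
      simp [Fintype.mem_piFinset, Finset.image_subset_iff]
    rw [this, Finset.sum_filter]
    refine Finset.sum_congr rfl fun g _ => ?_
    split_ifs <;> simp
  simp_rw [h1]
  rw [Finset.sum_comm]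
  simp_rw [← Finset.sum_mul, sum_supersets_neg_one]
  symm
  refine Finset.sum_of_injOn (fun τ : Equiv.Perm B => (τ : B → B)) ?_ ?_ ?_ ?_
  · intro a _ b _ hab; exact DFunLike.coe_injective hab
  · intro a _; simp
  · intro g _ hg
    have : univ.image g ≠ univ := by
      intro him
      apply hg
      have hs : Function.Surjective g := by
        intro y
        have := him ▸ mem_univ y
        obtain ⟨x, -, hx⟩ := Finset.mem_image.mp this
        exact ⟨x, hx⟩
      have hb : Function.Bijective g := ⟨Finite.injective_iff_surjective.mpr hs, hs⟩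
      exact ⟨Equiv.ofBijective g hb, by simp, rfl⟩
    rw [if_neg this, zero_mul]
  · intro τ _
    have : univ.image (τ : B → B) = univ := Finset.image_univ_of_surjective τ.surjective
    rw [if_pos this, one_mul]

end IE

end Pool.Agent.helper15.Kumar
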