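import Pool.Agent.helper15.KLink2

open Finset Matrix

namespace Pool.Agent.helper15.Kumar

section shifts

/-- cyclic shifts -/
def shiftPerm (w n : ℕ) (h : w ≤ n + 1) (a : Fin w) : Equiv.Perm (Fin (n + 1)) :=
  Equiv.addRight (Fin.castLE h a)

lemma shiftPerm_inj (w n : ℕ) (h : w ≤ n + 1) (j : Fin (n + 1)) :
    Function.Injective fun a => (shiftPerm w n h a)⁻¹ j := by
  intro a b hab
  have h1 : j - Fin.castLE h a = j - Fin.castLE h b := by
    have e : ∀ a, (shiftPerm w n h a)⁻¹ j = j - Fin.castLE h a := by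
      intro a
      rw [Equiv.Perm.inv_eq_iff_eq]
      simp [shiftPerm]
    simp only [e] at hab
    exact hab
  have h2 : Fin.castLE h a = Fin.castLE h b := by
    have := sub_right_inj.mp h1
    exact this
  exact Fin.castLE_injective h h2

end shifts

section Four

lemma inj4_iff {I : Type*} [DecidableEq I] (k : Fin 4 → I) :
    inj4 k = if ∀ w w', w ≠ w' → k w ≠ k w' then 1 else 0 := by
  unfold inj4
  congr 1
  rw [eq_iff_iff]
  constructor
  · rintro ⟨a, b, c, d, e, f⟩ w w' hne
    fin_cases w <;> fin_cases w' <;> first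
      | exact absurd rfl hne
      | assumption
      | (apply Ne.symm; assumption)
  · intro h
    exact ⟨h 0 1 (by decide), h 0 2 (by decide), h 0 3 (by decide), h 1 2 (by decide),
      h 1 3 (by decide), h 2 3 (by decide)⟩

/-- first incidence pattern -/
def mu1 (w : Type*) (n : ℕ) : w → Fin (n + 2) → w ⊕ Fin (n + 2) :=
  fun a j => if j = 0 then Sum.inl a else Sum.inr j

/-- second incidence pattern -/
def mu2 (n : ℕ) : Fin 4 → Fin (n + 2) → Fin 4 ⊕ Fin (n + 2) :=
  fun a j => if j = 0 then Sum.inl a else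
    if j = 1 then (if a = 0 ∨ a = 1 then Sum.inr 1 else Sum.inr 0) else Sum.inr j

lemma mu1_col (w : Type*) (n : ℕ) (a b : w) (j j' : Fin (n + 2)) (h : mu1 w n a j = mu1 w n b j') :
    j = j' := by
  unfold mu1 at h
  split_ifs at h with h1 h2
  · rw [h1, h2]
  · exact Sum.inr_injective h

lemma mu2_col (n : ℕ) (a b : Fin 4) (j j' : Fin (n + 2)) (h : mu2 n a j = mu2 n b j') :
    j = j' := by
  unfold mu2 at h
  by_cases h0 : j = 0
  · by_cases h0' : j' = 0
    · rw [h0, h0']
    · simp only [h0, h0', if_true, if_false] at h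
      split_ifs at h
  · by_cases h0' : j' = 0
    · simp only [h0, h0', if_true, if_false] at h
      split_ifs at h
    · by_cases h1 : j = 1
      · by_cases h1' : j' = 1
        · rw [h1, h1']
        · simp only [h1, h0', h1', if_true, if_false] at h
          have h01 : (1 : Fin (n + 2)) ≠ 0 := by simp
          simp only [h01, if_false] at h
          split_ifs at h
          · exact absurd (Sum.inr_injective h).symm h1'
          · exact absurd (Sum.inr_injective h).symm h0'
      · by_cases h1' : j' = 1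
        · simp only [h0, h1, h1', if_true, if_false] at h
          have h01 : (1 : Fin (n + 2)) ≠ 0 := by simp
          simp only [h01, if_false] at h
          split_ifs at h
          · exact absurd (Sum.inr_injective h) h1
          · exact absurd (Sum.inr_injective h) h0
        · simp only [h0, h0', h1, h1', if_false] at h
          exact Sum.inr_injective h

/-- signed count for a pattern -/
def SC {W I C : Type*} [Fintype W] [DecidableEq W] [Fintype I] [DecidableEq I]
    [DecidableEq C] (μ : W → I → W ⊕ C) : ℤ :=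
  ∑ σ : W → Equiv.Perm I, (∏ w, (Equiv.Perm.sign (σ w) : ℤ)) *
        (if ∀ w w' j, w ≠ w' → μ w j = μ w' j → σ w j ≠ σ w' j then 1 else 0)

lemma SC_mu1 (n : ℕ) : ((SC (mu1 (Fin 4) n) : ℤ) : ℚ) = Zz (n + 1) := by
  rw [← link1, ← Phi_replace (univ.erase (0 : Fin (n + 2))) (fun _ _ => 1) 0 (by simp)
    (fun _ _ _ => rfl)]
  unfold SC Phi
  push_cast
  refine Finset.sum_congr rfl fun σ _ => ?_
  congr 1
  have e : ∀ j : Fin (n + 2), (if j ∈ (univ.erase (0 : Fin (n + 2))) then inj4 else
      (fun _ => (1 : ℚ))) (fun w => σ w j) =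
      if (j ≠ 0 → ∀ w w', w ≠ w' → σ w j ≠ σ w' j) then 1 else 0 := by
    intro j
    by_cases hj : j = 0
    · simp [hj]
    · have hm : j ∈ (univ.erase (0 : Fin (n + 2))) := by simp [hj]
      rw [if_pos hm, inj4_iff]
      simp [hj]
  rw [Finset.prod_congr rfl fun j _ => e j]
  by_cases hc : ∀ w w' (j : Fin (n + 2)), w ≠ w' → mu1 (Fin 4) n w j = mu1 (Fin 4) n w' j →
      σ w j ≠ σ w' j
  · rw [if_pos hc]
    symm
    apply Finset.prod_eq_one
    intro j _
    rw [if_pos]
    intro hj w w' hne
    exact hc w w' j hne (by simp [mu1, hj])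
  · rw [if_neg hc]
    push Not at hc
    obtain ⟨w, w', j, hne, hm, hs⟩ := hc
    symm
    apply Finset.prod_eq_zero (mem_univ j)
    rw [if_neg]
    intro h
    have hj : j ≠ 0 := by
      rintro rfl
      simp only [mu1, if_true] at hm
      exact hne (Sum.inl_injective hm)
    exact h hj w w' hne hs

lemma SC_mu2 (n : ℕ) : ((SC (mu2 n) : ℤ) : ℚ) = Z2 n := by
  have h01 : (1 : Fin (n + 2)) ≠ 0 := by simp
  have e0 : (fun j => if j ∈ ((univ.erase (0 : Fin (n + 2))).erase 1) then gg
      else (if j = 1 then dd else (fun _ => (1 : ℚ)))) =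
      Function.update (fun j => if j ∈ ((univ.erase (0 : Fin (n + 2))).erase 1) then
        (gg : (Fin 4 → Fin (n + 2)) → ℚ) else (fun _ => (1 : ℚ))) 1 dd := by
    funext j
    by_cases hj : j = 1
    · subst hj; simp
    · simp [hj]
  have e1 : Function.update (fun j => if j ∈ ((univ.erase (0 : Fin (n + 2))).erase 1) then
        (gg : (Fin 4 → Fin (n + 2)) → ℚ) else (fun _ => (1 : ℚ))) 1 pair4 =
      fun j => if j ∈ ((univ.erase (0 : Fin (n + 2))).erase 1) then gg else
        (if j = 1 then pair4 else (fun _ => (1 : ℚ))) := by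
    funext j
    by_cases hj : j = 1
    · subst hj; simp
    · simp [hj]
  rw [← link2, e0, ← Phi_pair4 _ 1 0 h01 (by intro w k x; simp), e1,
    ← Phi_replace ((univ.erase (0 : Fin (n + 2))).erase 1)
      (fun j => (if j = 1 then pair4 else (fun _ => (1 : ℚ)))) 0 (by simp)
      (by intro w k x; simp)]
  unfold SC Phi
  push_cast
  refine Finset.sum_congr rfl fun σ _ => ?_
  congr 1
  have e : ∀ j : Fin (n + 2), (if j ∈ ((univ.erase (0 : Fin (n + 2))).erase 1) then inj4 else
      (if j = 1 then pair4 else (fun _ => (1 : ℚ)))) (fun w => σ w j) =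
      if (j ≠ 0 → ∀ w w', w ≠ w' → mu2 n w j = mu2 n w' j → σ w j ≠ σ w' j) then 1 else 0 := by
    intro j
    by_cases hj : j = 0
    · simp [hj]
    · by_cases hj1 : j = 1
      · subst hj1
        have hm : (1 : Fin (n + 2)) ∉ ((univ.erase (0 : Fin (n + 2))).erase 1) := by simp
        rw [if_neg hm, if_pos rfl]
        unfold pair4
        congr 1
        rw [eq_iff_iff]
        constructor
        · rintro ⟨a, b⟩ _ w w' hne hmu
          unfold mu2 at hmu
          simp only [h01, if_false, if_true] at hmu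
          fin_cases w <;> fin_cases w' <;> first
            | exact absurd rfl hne
            | assumption
            | (apply Ne.symm; assumption)
            | (exfalso; simp at hmu)
        · intro h
          refine ⟨h h01 0 1 (by decide) ?_, h h01 2 3 (by decide) ?_⟩
          · simp [mu2]
          · simp [mu2]
      · have hm : j ∈ ((univ.erase (0 : Fin (n + 2))).erase 1) := by simp [hj, hj1]
        rw [if_pos hm, inj4_iff]
        simp [hj, hj1, mu2]
  rw [Finset.prod_congr rfl fun j _ => e j]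
  by_cases hc : ∀ w w' (j : Fin (n + 2)), w ≠ w' → mu2 n w j = mu2 n w' j →
      σ w j ≠ σ w' j
  · rw [if_pos hc]
    symm
    apply Finset.prod_eq_one
    intro j _
    rw [if_pos]
    intro hj w w' hne hm
    exact hc w w' j hne hm
  · rw [if_neg hc]
    push Not at hc
    obtain ⟨w, w', j, hne, hm, hs⟩ := hc
    symm
    apply Finset.prod_eq_zero (mem_univ j)
    rw [if_neg]
    intro h
    have hj : j ≠ 0 := by
      rintro rfl
      simp only [mu2, if_true] at hm
      exact hne (Sum.inl_injective hm)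
    exact h hj w w' hne hm hs

theorem good_four {K : Type*} [Field K] [CharZero K] {p : ℕ} [hp : Fact p.Prime] (h5 : 5 ≤ p) :
    Good K (Fin (p - 1)) (Fin 4 ⊕ Fin (p - 1)) := by
  obtain ⟨n, hn⟩ : ∃ n, p = n + 3 := ⟨p - 3, by omega⟩
  have e1 : p - 1 = n + 2 := by omega
  have e2 : p - 2 = n + 1 := by omega
  have e3 : p - 3 = n := by omega
  have hnot := z1_not_both (p := p) h5
  rw [e2, e3] at hnot
  rw [e1]
  have hS1 : SC (mu1 (Fin 4) n) = z1 (n + 1) := by
    have := SC_mu1 n
    rw [Zz_eq_z1] at this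
    exact_mod_cast this
  have hS2 : 3 * SC (mu2 n) = z1 (n + 1) + 6 * (n + 2) * z1 n := by
    have h1 := SC_mu2 n
    have h2 := Z2_eq n
    rw [Zz_eq_z1, Zz_eq_z1, ← h1] at h2
    exact_mod_cast h2
  have hC : Fintype.card (Fin (n + 2)) = p - 1 := by simp [e1]
  have hI : Fintype.card (Fin (n + 2)) < p := by simp; omega
  have hle : 4 ≤ n + 1 + 1 := by omega
  by_cases hz : ((z1 (n + 1) : ℤ) : ZMod p) = 0
  · have hz2 : ((z1 n : ℤ) : ZMod p) ≠ 0 := fun h => hnot ⟨hz, h⟩
    refine good_of_signed (p := p) hC hI (shiftPerm 4 (n + 1) hle)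
      (shiftPerm_inj 4 (n + 1) hle) (mu2 n) (mu2_col n) ?_
    intro h0
    have h0' : ((SC (mu2 n) : ℤ) : ZMod p) = 0 := h0
    have h3 := congrArg (Int.cast : ℤ → ZMod p) hS2
    push_cast at h3
    rw [h0', hz] at h3
    have hp0 : ((n : ZMod p) + 3) = 0 := by
      have hn' := congrArg (Nat.cast : ℕ → ZMod p) hn
      rw [ZMod.natCast_self] at hn'
      push_cast at hn'
      exact hn'.symm
    have h6 : (6 : ZMod p) ≠ 0 := by
      intro h
      have h' : ((6 : ℕ) : ZMod p) = 0 := by exact_mod_cast h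
      rw [ZMod.natCast_eq_zero_iff] at h'
      have h7 : p ∣ 2 * 3 := h'
      rcases (Nat.Prime.dvd_mul hp.out).mp h7 with h | h
      · exact absurd (Nat.le_of_dvd (by norm_num) h) (by omega)
      · exact absurd (Nat.le_of_dvd (by norm_num) h) (by omega)
    have h8 : (6 : ZMod p) * (z1 n : ZMod p) = 0 := by
      linear_combination h3 + 6 * (z1 n : ZMod p) * hp0
    rcases mul_eq_zero.mp h8 with h | h
    · exact h6 h
    · exact hz2 h
  · refine good_of_signed (p := p) hC hI (shiftPerm 4 (n + 1) hle)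
      (shiftPerm_inj 4 (n + 1) hle) (mu1 (Fin 4) n) (mu1_col (Fin 4) n) ?_
    intro h0
    have h0' : ((SC (mu1 (Fin 4) n) : ℤ) : ZMod p) = 0 := h0
    rw [hS1] at h0'
    exact hz h0'

end Four

end Pool.Agent.helper15.Kumar
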