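import Pool.Agent.helper15.KPair

open Finset Matrix

namespace Pool.Agent.helper15.Kumar

section Glynn

variable {p : ℕ} [Fact p.Prime]
variable {I C : Type*} [Fintype I] [DecidableEq I] [Fintype C] [DecidableEq C]

lemma sum_pow_pred : ∑ y : ZMod p, y ^ (p - 1) = -1 := by
  have hp : 1 < p := (Fact.out : p.Prime).one_lt
  have h1 : ∀ y : ZMod p, y ^ (p - 1) = 1 - if y = 0 then 1 else 0 := by
    intro y
    by_cases hy : y = 0
    · subst hy
      rw [zero_pow (by omega)]
      simp
    · rw [ZMod.pow_card_sub_one_eq_one hy]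
      simp [hy]
  simp_rw [h1]
  rw [Finset.sum_sub_distrib]
  simp [ZMod.card]

lemma sum_prod_pow_pred : ∑ x : I → ZMod p, ∏ r, x r ^ (p - 1) = (-1) ^ Fintype.card I := by
  have h1 := (Finset.prod_univ_sum (fun _ : I => (univ : Finset (ZMod p)))
    (fun _ y => y ^ (p - 1))).symm
  rw [Fintype.piFinset_univ] at h1
  rw [h1]
  simp [sum_pow_pred]

lemma det_pow_eq (Y : Matrix I I (ZMod p)) :
    Y.det ^ (p - 1) =
      (-1) ^ Fintype.card I * ∑ x : I → ZMod p, ∏ r, (∑ k, Y r k * x k) ^ (p - 1) := by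
  have hp : 1 < p := (Fact.out : p.Prime).one_lt
  by_cases hY : Y.det = 0
  · rw [hY, zero_pow (by omega)]
    obtain ⟨u, hu0, hu⟩ := Matrix.exists_mulVec_eq_zero_iff.mpr hY
    obtain ⟨k0, hk0⟩ : ∃ k, u k ≠ 0 := by
      by_contra hcon
      push Not at hcon
      exact hu0 (funext hcon)
    let F : (I → ZMod p) → ZMod p := fun x => ∏ r, (∑ k, Y r k * x k) ^ (p - 1)
    have hF : ∀ x, F (x + u) = F x := by
      intro x
      refine Finset.prod_congr rfl fun r _ => ?_
      congr 1
      have := congrFun hu r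
      simp only [Matrix.mulVec, dotProduct, Pi.zero_apply] at this
      simp only [Pi.add_apply, mul_add, Finset.sum_add_distrib, this, add_zero]
    have h1 : ∑ x, F x * (x k0 / u k0) = ∑ x, F x * (x k0 / u k0) + ∑ x, F x := by
      conv_lhs => rw [← Equiv.sum_comp (Equiv.addRight u)]
      rw [← Finset.sum_add_distrib]
      refine Finset.sum_congr rfl fun x _ => ?_
      simp only [Equiv.coe_addRight, hF, Pi.add_apply]
      field_simp
    have h2 : ∑ x, F x = 0 := by
      have := h1
      linear_combination -this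
    rw [h2, mul_zero]
  · rw [ZMod.pow_card_sub_one_eq_one hY]
    have hu : IsUnit Y.det := isUnit_iff_ne_zero.mpr hY
    let e : (I → ZMod p) ≃ (I → ZMod p) :=
      { toFun := fun x => Y *ᵥ x
        invFun := fun x => Y⁻¹ *ᵥ x
        left_inv := fun x => by
          simp [Matrix.mulVec_mulVec, Matrix.nonsing_inv_mul _ hu]
        right_inv := fun x => by
          simp [Matrix.mulVec_mulVec, Matrix.mul_nonsing_inv _ hu] }
    have h1 : ∑ x : I → ZMod p, ∏ r, (∑ k, Y r k * x k) ^ (p - 1) =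
        ∑ x : I → ZMod p, ∏ r, (x r) ^ (p - 1) := by
      rw [← Equiv.sum_comp e (fun x : I → ZMod p => ∏ r, (x r) ^ (p - 1))]
      rfl
    rw [h1, sum_prod_pow_pred, ← mul_pow]
    simp

lemma Lam_sum {K : Type*} [CommRing K] {ι : Type*} (s : Finset ι) (v : I → C → I)
    (F : ι → Matrix I I K → K) :
    Lam K v (∑ i ∈ s, F i) = ∑ i ∈ s, Lam K v (F i) := by
  classical
  induction s using Finset.induction_on with
  | empty => simp [Lam]
  | insert a s ha ih => rw [Finset.sum_insert ha, Finset.sum_insert ha, Lam_add, ih]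

theorem glynn (hC : Fintype.card C = p - 1) (v : I → C → I)
    (hv : ∀ k, (univ.filter fun rc : I × C => v rc.1 rc.2 = k).card = p - 1) :
    ∑ g : I → Equiv.Perm C, ∏ c, ((eps fun r => v r (g r c) : ℤ) : ZMod p) =
      (-1) ^ Fintype.card I := by
  rw [← Lam_det]
  have h1 : (fun Y : Matrix I I (ZMod p) => Y.det ^ Fintype.card C) =
      ((-1 : ZMod p) ^ Fintype.card I) • ∑ x : I → ZMod p,
        (fun Y : Matrix I I (ZMod p) => ∏ _s : C, ∏ r, ∑ k, Y r k * x k) := by
    ext Y
    rw [Pi.smul_apply, smul_eq_mul, Finset.sum_apply, hC, det_pow_eq]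
    congr 1
    refine Finset.sum_congr rfl fun x _ => ?_
    rw [Finset.prod_const, Finset.card_univ, hC, Finset.prod_pow]
  rw [h1, Lam_smul, Lam_sum]
  have h2 : ∀ x : I → ZMod p, Lam (ZMod p) v (fun Y => ∏ _s : C, ∏ r, ∑ k, Y r k * x k) =
      (-1) ^ Fintype.card I * ∏ k, x k ^ (p - 1) := by
    intro x
    rw [Lam_row v (fun _ => x)]
    have h3 : ∀ τ : I → Equiv.Perm C, ∏ s : C, ∏ r, x (v r (τ r s)) = ∏ k, x k ^ (p - 1) := by
      intro τ
      rw [Finset.prod_comm]
      have h4 : ∏ r, ∏ s : C, x (v r (τ r s)) = ∏ r, ∏ s : C, x (v r s) := by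
        refine Finset.prod_congr rfl fun r _ => ?_
        exact Equiv.prod_comp (τ r) (fun s => x (v r s))
      rw [h4]
      rw [← Finset.prod_product' (univ : Finset I) (univ : Finset C) (fun r s => x (v r s))]
      rw [← Finset.univ_product_univ.symm]
      rw [← Finset.prod_fiberwise' (univ : Finset (I × C)) (fun rc => v rc.1 rc.2) x]
      refine Finset.prod_congr rfl fun k _ => ?_
      rw [Finset.prod_const, hv k]
    rw [Finset.sum_congr rfl fun τ _ => h3 τ, Finset.sum_const, Finset.card_univ, nsmul_eq_mul]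
    congr 1
    rw [Fintype.card_fun, Fintype.card_perm, hC]
    push_cast
    rw [ZMod.wilsons_lemma]
  simp_rw [h2]
  rw [← Finset.mul_sum, sum_prod_pow_pred, ← mul_pow, ← mul_pow]
  simp

end Glynn

end Pool.Agent.helper15.Kumar
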