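import Pool.Agent.helper15.KBasic

open Finset Matrix

namespace Pool.Agent.helper15.Kumar

section Good

/-- `Good K I B`: the power `det(Y)^|B|` is, as a function of the matrix `Y` with rows and columns
indexed by `I`, a linear combination of products over `s : B` and rows `r` of `(Y ℓ_s)_r`. -/
def Good (K : Type*) [Field K] (I B : Type*) [Fintype I] [DecidableEq I] [Fintype B] : Prop :=
  (fun Y : Matrix I I K => Y.det ^ Fintype.card B) ∈
    Submodule.span K
      (Set.range fun ℓ : B → I → K => fun Y : Matrix I I K => ∏ s, ∏ r, ∑ k, Y r k * ℓ s k)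

variable {K : Type*} [Field K]
variable {I B B' I' E : Type*} [Fintype I] [DecidableEq I] [Fintype B] [DecidableEq B]
  [Fintype B'] [DecidableEq B'] [Fintype I'] [DecidableEq I'] [Fintype E] [DecidableEq E]

theorem Good.sum (h : Good K I B) (h' : Good K I B') : Good K I (B ⊕ B') := by
  have h1 := Submodule.mul_mem_mul h h'
  rw [Submodule.span_mul_span] at h1
  have h2 : (fun Y : Matrix I I K => Y.det ^ Fintype.card (B ⊕ B')) =
      (fun Y : Matrix I I K => Y.det ^ Fintype.card B) *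
      (fun Y : Matrix I I K => Y.det ^ Fintype.card B') := by
    ext Y
    simp [pow_add]
  unfold Good
  rw [h2]
  refine Submodule.span_mono ?_ h1
  rintro _ ⟨_, ⟨ℓ, rfl⟩, _, ⟨ℓ', rfl⟩, rfl⟩
  refine ⟨Sum.elim ℓ ℓ', ?_⟩
  ext Y
  simp

theorem Good.of_sum_left (h : Good K (I ⊕ E) B) : Good K I B := by
  have h1 := Submodule.mem_map_of_mem (f := LinearMap.funLeft K K
    (fun Y : Matrix I I K => (Matrix.fromBlocks Y 0 0 1 : Matrix (I ⊕ E) (I ⊕ E) K))) h
  rw [Submodule.map_span] at h1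
  have h2 : (LinearMap.funLeft K K
    (fun Y : Matrix I I K => (Matrix.fromBlocks Y 0 0 1 : Matrix (I ⊕ E) (I ⊕ E) K)))
      (fun Y => Y.det ^ Fintype.card B) = fun Y : Matrix I I K => Y.det ^ Fintype.card B := by
    ext Y
    simp [LinearMap.funLeft_apply]
  rw [h2] at h1
  refine Submodule.span_le.mpr ?_ h1
  rintro _ ⟨_, ⟨ℓ, rfl⟩, rfl⟩
  have h3 : (LinearMap.funLeft K K
      (fun Y : Matrix I I K => (Matrix.fromBlocks Y 0 0 1 : Matrix (I ⊕ E) (I ⊕ E) K)))
      (fun Y => ∏ s, ∏ r, ∑ k, Y r k * ℓ s k) =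
      (∏ s : B, ∏ e : E, ℓ s (Sum.inr e)) •
        (fun Y : Matrix I I K => ∏ s, ∏ r, ∑ k, Y r k * ℓ s (Sum.inl k)) := by
    ext Y
    simp only [LinearMap.funLeft_apply, Fintype.prod_sum_type, Fintype.sum_sum_type, Pi.smul_apply,
      smul_eq_mul, Matrix.fromBlocks_apply₁₁, Matrix.fromBlocks_apply₁₂, Matrix.fromBlocks_apply₂₁,
      Matrix.fromBlocks_apply₂₂, Matrix.zero_apply, zero_mul, Finset.sum_const_zero, add_zero,
      zero_add, Matrix.one_apply, ite_mul, one_mul, Finset.sum_ite_eq, Finset.mem_univ, if_true,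
      Finset.prod_mul_distrib]
    ring
  rw [h3]
  exact Submodule.smul_mem _ _ (Submodule.subset_span ⟨fun s k => ℓ s (Sum.inl k), rfl⟩)

theorem Good.congr (e : I ≃ I') (f : B ≃ B') (h : Good K I B) : Good K I' B' := by
  have h1 := Submodule.mem_map_of_mem (f := LinearMap.funLeft K K
    (fun Y : Matrix I' I' K => (Y.submatrix e e : Matrix I I K))) h
  rw [Submodule.map_span] at h1
  have h2 : (LinearMap.funLeft K K
    (fun Y : Matrix I' I' K => (Y.submatrix e e : Matrix I I K)))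
      (fun Y => Y.det ^ Fintype.card B) = fun Y : Matrix I' I' K => Y.det ^ Fintype.card B' := by
    ext Y
    rw [LinearMap.funLeft_apply, Matrix.det_submatrix_equiv_self, Fintype.card_congr f]
  rw [h2] at h1
  refine Submodule.span_le.mpr ?_ h1
  rintro _ ⟨_, ⟨ℓ, rfl⟩, rfl⟩
  refine Submodule.subset_span ⟨fun s k => ℓ (f.symm s) (e.symm k), ?_⟩
  ext Y
  simp only [LinearMap.funLeft_apply, Matrix.submatrix_apply]
  rw [← Equiv.prod_comp f]
  refine Finset.prod_congr rfl fun s _ => ?_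
  rw [← Equiv.prod_comp e]
  refine Finset.prod_congr rfl fun r _ => ?_
  rw [← Equiv.sum_comp e]
  simp

end Good

section Z

variable {I B : Type*} [Fintype I] [DecidableEq I] [Fintype B] [DecidableEq B]

/-- The signed count `Z(τ)` -/
noncomputable def ZZ (τ : I → Equiv.Perm B) : ℤ :=
  ∑ κ : B → Equiv.Perm I, ∏ t, eps fun r => κ (τ r t) r

/-- The permanent-like function `T_Y(k)`. -/
def TY {K : Type*} [CommRing K] (Y : Matrix I I K) (k : I → I) : K :=
  ∑ ρ : Equiv.Perm I, ∏ r, Y (ρ r) (k r)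

lemma TY_eq {K : Type*} [CommRing K] (Y : Matrix I I K) (k : I → I) :
    TY Y k = ∑ S : Finset I, (-1 : K) ^ (Sᶜ).card *
      ∏ s, ∑ j, Y s j * (((S.filter fun r => k r = j).card : ℕ) : K) := by
  have h1 : ∀ S : Finset I, ∏ s, ∑ j, Y s j * (((S.filter fun r => k r = j).card : ℕ) : K)
      = ∑ g ∈ Fintype.piFinset (fun _ : I => S), ∏ s, Y s (k (g s)) := by
    intro S
    have h2 : ∀ s : I, ∑ j, Y s j * (((S.filter fun r => k r = j).card : ℕ) : K) =
        ∑ r ∈ S, Y s (k r) := by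
      intro s
      simp_rw [Finset.card_filter, Nat.cast_sum, Finset.mul_sum]
      rw [Finset.sum_comm]
      refine Finset.sum_congr rfl fun r _ => ?_
      simp
    simp_rw [h2]
    rw [Finset.prod_univ_sum]
  simp_rw [h1]
  rw [incl_excl (R := K) (fun g : I → I => ∏ s, Y s (k (g s)))]
  unfold TY
  rw [← Equiv.sum_comp (Equiv.inv (Equiv.Perm I))]
  refine Finset.sum_congr rfl fun ρ _ => ?_
  simp only [Equiv.inv_apply]
  rw [← Equiv.prod_comp ρ]
  simp

lemma Z_mul_det {K : Type*} [CommRing K] (τ : I → Equiv.Perm B) (Y : Matrix I I K) :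
    ((ZZ τ : ℤ) : K) * Y.det ^ Fintype.card B =
      ∑ κ : B → I → I, (∏ t, (eps fun r => κ (τ r t) r : K)) * ∏ a, TY Y (κ a) := by
  symm
  have h1 : ∀ κ : B → I → I, (∏ t, (eps fun r => κ (τ r t) r : K)) * ∏ a, TY Y (κ a) =
      ∑ ρ : B → Equiv.Perm I, ∏ t, ((eps fun r => κ (τ r t) r : K) *
        ∏ r, Y (ρ (τ r t) r) (κ (τ r t) r)) := by
    intro κ
    unfold TY
    rw [Finset.prod_univ_sum, Fintype.piFinset_univ, Finset.mul_sum]
    refine Finset.sum_congr rfl fun ρ _ => ?_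
    rw [Finset.prod_mul_distrib]
    congr 1
    rw [Finset.prod_comm, Finset.prod_comm (s := (univ : Finset B))]
    refine Finset.prod_congr rfl fun r _ => ?_
    rw [← Equiv.prod_comp (τ r)]
  simp_rw [h1]
  rw [Finset.sum_comm]
  -- reindex kappa
  let e : (B → I → I) ≃ (B → I → I) :=
    { toFun := fun κ t r => κ (τ r t) r
      invFun := fun f a r => f ((τ r).symm a) r
      left_inv := fun κ => by ext a r; simp
      right_inv := fun f => by ext a r; simp }
  have h2 : ∀ ρ : B → Equiv.Perm I, ∑ κ : B → I → I, ∏ t, ((eps fun r => κ (τ r t) r : K) *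
        ∏ r, Y (ρ (τ r t) r) (κ (τ r t) r)) =
      (∏ t, (eps fun r => ρ (τ r t) r : K)) * Y.det ^ Fintype.card B := by
    intro ρ
    have h3 : ∀ κ : B → I → I, ∏ t, ((eps fun r => κ (τ r t) r : K) *
        ∏ r, Y (ρ (τ r t) r) (κ (τ r t) r)) =
        (fun f : B → I → I => ∏ t, ((eps (f t) : K) * ∏ r, Y (ρ (τ r t) r) (f t r))) (e κ) := by
      intro κ; rfl
    simp_rw [h3]
    rw [Equiv.sum_comp e (fun f : B → I → I => ∏ t, ((eps (f t) : K) *
      ∏ r, Y (ρ (τ r t) r) (f t r)))]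
    have h4 : ∑ f : B → I → I, ∏ t, ((eps (f t) : K) * ∏ r, Y (ρ (τ r t) r) (f t r)) =
        ∏ t, ∑ f : I → I, ((eps f : K) * ∏ r, Y (ρ (τ r t) r) (f r)) := by
      rw [Finset.prod_univ_sum, Fintype.piFinset_univ]
    rw [h4]
    have h5 : ∀ t : B, ∑ f : I → I, ((eps f : K) * ∏ r, Y (ρ (τ r t) r) (f r)) =
        (eps (fun r => ρ (τ r t) r) : K) * Y.det := by
      intro t
      have h6 := det_expand (Matrix.of fun r k => Y (ρ (τ r t) r) k)
      rw [det_rows_comp Y (fun r => ρ (τ r t) r)] at h6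
      rw [h6]
      rfl
    simp_rw [h5]
    rw [Finset.prod_mul_distrib]
    simp
  simp_rw [h2]
  rw [← Finset.sum_mul]
  congr 1
  unfold ZZ
  push_cast
  rfl

theorem good_of_ZZ_ne_zero {K : Type*} [Field K] [CharZero K] (τ : I → Equiv.Perm B)
    (h : ZZ τ ≠ 0) : Good K I B := by
  have hK : ((ZZ τ : ℤ) : K) ≠ 0 := by exact_mod_cast h
  unfold Good
  have h1 : (fun Y : Matrix I I K => Y.det ^ Fintype.card B) =
      ((ZZ τ : ℤ) : K)⁻¹ • (fun Y : Matrix I I K =>
        ∑ κ : B → I → I, (∏ t, (eps fun r => κ (τ r t) r : K)) * ∏ a, TY Y (κ a)) := by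
    ext Y
    rw [Pi.smul_apply, smul_eq_mul, ← Z_mul_det, ← mul_assoc, inv_mul_cancel₀ hK, one_mul]
  rw [h1]
  apply Submodule.smul_mem
  have h2 : (fun Y : Matrix I I K =>
        ∑ κ : B → I → I, (∏ t, (eps fun r => κ (τ r t) r : K)) * ∏ a, TY Y (κ a)) =
      ∑ κ : B → I → I, (∏ t, (eps fun r => κ (τ r t) r : K)) •
        ∑ S : B → Finset I, (∏ a, (-1 : K) ^ ((S a)ᶜ).card) •
        (fun Y : Matrix I I K => ∏ a, ∏ s, ∑ j, Y s j *
          ((((S a).filter fun r => κ a r = j).card : ℕ) : K)) := by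
    ext Y
    rw [Finset.sum_apply]
    refine Finset.sum_congr rfl fun κ _ => ?_
    rw [Pi.smul_apply, smul_eq_mul]
    congr 1
    simp_rw [TY_eq]
    rw [Finset.prod_univ_sum, Fintype.piFinset_univ, Finset.sum_apply]
    refine Finset.sum_congr rfl fun S _ => ?_
    rw [Pi.smul_apply, smul_eq_mul, Finset.prod_mul_distrib]
  rw [h2]
  refine Submodule.sum_mem _ fun κ _ => Submodule.smul_mem _ _ ?_
  refine Submodule.sum_mem _ fun S _ => Submodule.smul_mem _ _ ?_
  exact Submodule.subset_span ⟨fun a j => ((((S a).filter fun r => κ a r = j).card : ℕ) : K), rfl⟩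

end Z

end Pool.Agent.helper15.Kumar
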