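import Pool.Agent.helper15.KRand

open Finset Matrix

namespace Pool.Agent.helper15.Kumar

section flips

variable {J K : Type*} [Fintype J] [DecidableEq J] [Fintype K] [DecidableEq K]

/-- sign of a boolean -/
def sg (b : Bool) : ℚ := if b then -1 else 1

lemma sg_sq (b : Bool) : sg b * sg b = 1 := by
  cases b <;> simp [sg]

lemma wt5_rev (a : Fin 5) : wt5 (Fin.rev a) = wt5 a := by
  fin_cases a <;> simp [wt5, Fin.rev]

lemma val5_rev (a : Fin 5) : val5 (Fin.rev a) = - val5 a := by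
  fin_cases a <;> simp [val5, Fin.rev]

lemma EE_flip (s : K → Bool) (P : (J → K → ℚ) → ℚ) :
    EE J K P = EE J K (fun M => P (fun j k => sg (s k) * M j k)) := by
  unfold EE
  let e : (J → K → Fin 5) ≃ (J → K → Fin 5) :=
    { toFun := fun x j k => if s k then Fin.rev (x j k) else x j k
      invFun := fun x j k => if s k then Fin.rev (x j k) else x j k
      left_inv := fun x => by
        funext j k
        by_cases h : s k <;> simp [h]
      right_inv := fun x => by
        funext j k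
        by_cases h : s k <;> simp [h] }
  rw [← Equiv.sum_comp e]
  refine Finset.sum_congr rfl fun x _ => ?_
  have h1 : ∀ j k, wt5 (e x j k) = wt5 (x j k) := by
    intro j k
    by_cases h : s k <;> simp [e, h, wt5_rev]
  have h2 : ∀ j k, val5 (e x j k) = sg (s k) * val5 (x j k) := by
    intro j k
    by_cases h : s k <;> simp [e, h, val5_rev, sg]
  simp only [h1, h2]

lemma mnr_flip {n : ℕ} (s : Fin (n + 1) → Bool) (M : Fin n → Fin (n + 1) → ℚ) (k : Fin (n + 1)) :
    mnr (fun j l => sg (s l) * M j l) k = (∏ l, sg (s l)) * (sg (s k) * mnr M k) := by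
  unfold mnr
  have h1 : (Matrix.of fun j l => sg (s (k.succAbove l)) * M j (k.succAbove l)) =
      Matrix.of fun i j => sg (s (k.succAbove j)) *
        (Matrix.of fun j l => M j (k.succAbove l)) i j := rfl
  rw [h1, Matrix.det_mul_row, Fin.prod_univ_succAbove (fun l => sg (s l)) k]
  have := sg_sq (s k)
  linear_combination (-(∏ i, sg (s (k.succAbove i))) *
    (Matrix.of fun j l => M j (k.succAbove l)).det) * this

lemma sgprod_four {n : ℕ} (s : Fin (n + 1) → Bool) : (∏ l, sg (s l)) ^ 4 = 1 := by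
  rw [← Finset.prod_pow]
  apply Finset.prod_eq_one
  intro l _
  have := sg_sq (s l)
  calc sg (s l) ^ 4 = (sg (s l) * sg (s l)) * (sg (s l) * sg (s l)) := by ring
    _ = 1 := by rw [this]; norm_num

lemma Zz_eq (n : ℕ) : Zz n = 3 * HH n - 2 * (n + 1) * ff n := by
  have h1 : ∀ s : Fin (n + 1) → Bool, Zz n = EE (Fin n) (Fin (n + 1)) (fun M =>
      (∑ k, sg (s k) * ((-1) ^ (((0 : Fin (n + 1)) : ℕ) + k) * mnr M k)) ^ 4) := by
    intro s
    unfold Zz
    rw [EE_flip s]
    congr 1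
    funext M
    rw [det_insertNth]
    have h2 : ∑ k : Fin (n + 1), (1 : ℚ) * ((-1) ^ (((0 : Fin (n + 1)) : ℕ) + k) *
        mnr (fun j l => sg (s l) * M j l) k) =
        (∏ l, sg (s l)) * ∑ k, sg (s k) * ((-1) ^ (((0 : Fin (n + 1)) : ℕ) + k) * mnr M k) := by
      rw [Finset.mul_sum]
      refine Finset.sum_congr rfl fun k _ => ?_
      rw [mnr_flip]
      ring
    rw [h2, mul_pow, sgprod_four, one_mul]
  have h3 : ∑ r : Fin (n + 1) → Bool, (∏ k : Fin (n + 1), ((fun _ => 1 / 2 : Bool → ℚ) (r k))) = 1 := by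
    have := (Finset.prod_univ_sum (fun _ : Fin (n + 1) => (univ : Finset Bool))
      (fun _ _ => (1 / 2 : ℚ))).symm
    rw [Fintype.piFinset_univ] at this
    rw [this]
    simp
  have h4 : Zz n = ∑ r : Fin (n + 1) → Bool, (∏ k : Fin (n + 1), ((fun _ => 1 / 2 : Bool → ℚ) (r k))) *
      Zz n := by
    rw [← Finset.sum_mul, h3, one_mul]
  rw [h4]
  rw [Finset.sum_congr rfl fun r _ => by rw [h1 r]]
  have h5 : ∑ r : Fin (n + 1) → Bool, (∏ k : Fin (n + 1), ((fun _ => 1 / 2 : Bool → ℚ) (r k))) *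
      EE (Fin n) (Fin (n + 1)) (fun M =>
      (∑ k, sg (r k) * ((-1) ^ (((0 : Fin (n + 1)) : ℕ) + k) * mnr M k)) ^ 4) =
      EE (Fin n) (Fin (n + 1)) (fun M => ∑ r : Fin (n + 1) → Bool,
        (∏ k : Fin (n + 1), ((fun _ => 1 / 2 : Bool → ℚ) (r k))) *
        (∑ k, sg (r k) * ((-1) ^ (((0 : Fin (n + 1)) : ℕ) + k) * mnr M k)) ^ 4) := by
    rw [EE_sum]
    refine Finset.sum_congr rfl fun r _ => ?_
    rw [EE_const_mul]
  rw [h5]
  have b0 : ∑ a : Bool, (fun _ => 1 / 2 : Bool → ℚ) a = 1 := by simp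
  have b1 : ∑ a : Bool, (fun _ => 1 / 2 : Bool → ℚ) a * sg a = 0 := by simp [sg]
  have b2 : ∑ a : Bool, (fun _ => 1 / 2 : Bool → ℚ) a * sg a ^ 2 = 1 := by simp [sg]
  have b4 : ∑ a : Bool, (fun _ => 1 / 2 : Bool → ℚ) a * sg a ^ 4 = 1 := by simp [sg]; norm_num
  simp only [fourth_moment b0 b1 b2 b4, pow_sign_sq, pow_sign_four]
  rw [EE_add, EE_const_mul, EE_const_mul, EE_sum]
  rw [Finset.sum_congr rfl fun k _ => EE_mnr_four k]
  simp only [Finset.sum_const, Finset.card_univ, Fintype.card_fin, nsmul_eq_mul]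
  unfold HH
  push_cast
  ring

/-- minors with one row of ones -/
def mnr1 {n : ℕ} (M : Fin n → Fin (n + 2) → ℚ) (k : Fin (n + 2)) : ℚ :=
  Matrix.det (Matrix.of (Fin.insertNth (α := fun _ => Fin (n + 1) → ℚ) 0
    (fun _ => 1) (fun j l => M j (k.succAbove l))))

/-- second type of sum -/
def Z2 (n : ℕ) : ℚ := EE (Fin n) (Fin (n + 2)) (fun M => (∑ k, mnr1 M k ^ 2) ^ 2)

lemma det_insertNth2 {n : ℕ} (v : Fin (n + 2) → ℚ)
    (M : Fin n → Fin (n + 2) → ℚ) :
    Matrix.det (Matrix.of (Fin.insertNth (α := fun _ => Fin (n + 2) → ℚ) 0 (fun _ => 1)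
      (Fin.insertNth (α := fun _ => Fin (n + 2) → ℚ) 0 v M))) =
      ∑ k : Fin (n + 2), v k * ((-1) ^ (1 + (k : ℕ)) * mnr1 M k) := by
  rw [Matrix.det_succ_row _ 1]
  refine Finset.sum_congr rfl fun k _ => ?_
  have h0 : (1 : Fin (n + 2)) = (0 : Fin (n + 2)).succAbove 0 := by simp
  have h1 : (Matrix.of (Fin.insertNth (α := fun _ => Fin (n + 2) → ℚ) 0 (fun _ => 1)
      (Fin.insertNth (α := fun _ => Fin (n + 2) → ℚ) 0 v M))) 1 k = v k := by
    rw [h0, Matrix.of_apply, Fin.insertNth_apply_succAbove]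
    simp
  have h2 : (Matrix.of (Fin.insertNth (α := fun _ => Fin (n + 2) → ℚ) 0 (fun _ => 1)
      (Fin.insertNth (α := fun _ => Fin (n + 2) → ℚ) 0 v M))).submatrix
      (Fin.succAbove 1) k.succAbove = Matrix.of (Fin.insertNth (α := fun _ => Fin (n + 1) → ℚ) 0
    (fun _ => 1) (fun j l => M j (k.succAbove l))) := by
    ext a b
    refine Fin.cases ?_ (fun j => ?_) a
    · simp
    · simp [Fin.succAbove]
  rw [h1, h2]
  unfold mnr1
  simp
  ring

lemma Z2_eq (n : ℕ) : 3 * Z2 n = Zz (n + 1) + 6 * (n + 2) * Zz n := by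
  have h1 : Zz (n + 1) = 3 * Z2 n - 6 * (n + 2) * Zz n := by
    unfold Zz
    rw [EE_insertNth 0, E1_EE_comm]
    have h2 : ∀ k : Fin (n + 2), EE (Fin n) (Fin (n + 2)) (fun M => mnr1 M k ^ 4) = Zz n := by
      intro k
      exact EE_drop_col k (fun M => (Matrix.det (Matrix.of
        (Fin.insertNth (α := fun _ => Fin (n + 1) → ℚ) 0 (fun _ => 1) M))) ^ 4)
    simp only [det_insertNth2, E1_fourth, pow_sign_sq, pow_sign_four]
    rw [EE_sub, EE_const_mul, EE_const_mul, EE_sum]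
    rw [Finset.sum_congr rfl fun k _ => h2 k]
    simp only [Finset.sum_const, Finset.card_univ, Fintype.card_fin, nsmul_eq_mul]
    unfold Z2 Zz
    push_cast
    ring
  linarith

end flips

end Pool.Agent.helper15.Kumar
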