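import Pool.Agent.helper15.KSum

open Finset Matrix

namespace Pool.Agent.helper15.Kumar

section link

lemma det_rows_q {I : Type*} [Fintype I] [DecidableEq I] (A : Matrix I I ℚ) :
    A.det = ∑ τ : Equiv.Perm I, ((Equiv.Perm.sign τ : ℤ) : ℚ) * ∏ i, A i (τ i) := by
  rw [← Matrix.det_transpose, Matrix.det_apply']
  refine Finset.sum_congr rfl fun τ _ => ?_
  simp [Matrix.transpose_apply]

lemma link1 (n : ℕ) :
    Phi (I := Fin (n + 1)) (fun j => if j ∈ (univ.erase (0 : Fin (n + 1))) then gg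
      else (fun _ => 1)) = Zz n := by
  unfold Phi Zz EE
  have e1 : ∀ σ : Fin 4 → Equiv.Perm (Fin (n + 1)),
      ∏ j, (if j ∈ (univ.erase (0 : Fin (n + 1))) then gg else (fun _ => 1)) (fun w => σ w j) =
      ∑ x : Fin n → Fin (n + 1) → Fin 5, ∏ j : Fin n, ((∏ k, wt5 (x j k)) *
        (val5 (x j (σ 0 j.succ)) * val5 (x j (σ 1 j.succ)) * val5 (x j (σ 2 j.succ)) *
          val5 (x j (σ 3 j.succ)))) := by
    intro σ
    rw [Fin.prod_univ_succ]
    have e2 : ∀ j : Fin n, (if j.succ ∈ (univ.erase (0 : Fin (n + 1))) then gg else (fun _ => 1))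
        (fun w => σ w j.succ) = ∑ r : Fin (n + 1) → Fin 5, ((∏ k, wt5 (r k)) *
        (val5 (r (σ 0 j.succ)) * val5 (r (σ 1 j.succ)) * val5 (r (σ 2 j.succ)) *
          val5 (r (σ 3 j.succ)))) := by
      intro j
      rw [four_point m0 m1 m2 m4]
      simp only [Finset.mem_erase, ne_eq, Fin.succ_ne_zero, not_false_eq_true, Finset.mem_univ,
        and_self, if_true]
      rfl
    rw [Finset.prod_congr rfl fun j _ => e2 j]
    rw [Finset.prod_univ_sum, Fintype.piFinset_univ]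
    simp
  rw [Finset.sum_congr rfl fun σ _ => by rw [e1 σ, Finset.mul_sum]]
  rw [Finset.sum_comm]
  refine Finset.sum_congr rfl fun x _ => ?_
  have e3 : ∀ A : Matrix (Fin (n + 1)) (Fin (n + 1)) ℚ, A.det ^ 4 =
      ∑ σ : Fin 4 → Equiv.Perm (Fin (n + 1)), ∏ w : Fin 4,
        (((Equiv.Perm.sign (σ w) : ℤ) : ℚ) * ∏ i, A i (σ w i)) := by
    intro A
    have e4 := (Finset.prod_univ_sum (fun _ : Fin 4 => (univ : Finset (Equiv.Perm (Fin (n + 1)))))
      (fun _ τ => ((Equiv.Perm.sign τ : ℤ) : ℚ) * ∏ i, A i (τ i))).symm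
    rw [Fintype.piFinset_univ] at e4
    rw [e4, ← det_rows_q]
    simp
  beta_reduce
  rw [e3, Finset.mul_sum]
  refine Finset.sum_congr rfl fun σ _ => ?_
  rw [Finset.prod_mul_distrib, Finset.prod_mul_distrib (s := (univ : Finset (Fin 4)))]
  have e5 : ∀ w : Fin 4, ∏ i, (Matrix.of (Fin.insertNth (α := fun _ => Fin (n + 1) → ℚ) 0
      (fun _ => 1) (fun j k => val5 (x j k)))) i (σ w i) =
      ∏ j : Fin n, val5 (x j (σ w j.succ)) := by
    intro w
    rw [Fin.prod_univ_succ]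
    simp
  simp only [e5, Fin.prod_univ_four, Finset.prod_mul_distrib]
  ring

lemma mnr1_sq {n : ℕ} (M : Fin n → Fin (n + 2) → ℚ) (k : Fin (n + 2)) :
    mnr1 M k ^ 2 = (Matrix.det (Matrix.of (Fin.insertNth (α := fun _ => Fin (n + 2) → ℚ) 0
      (fun _ => 1) (Fin.insertNth (α := fun _ => Fin (n + 2) → ℚ) 0
        (fun l => if l = k then 1 else 0) M)))) ^ 2 := by
  rw [det_insertNth2]
  simp [pow_sign_sq]

lemma link2 (n : ℕ) :
    Phi (I := Fin (n + 2)) (fun j => if j ∈ ((univ.erase (0 : Fin (n + 2))).erase 1) then gg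
      else (if j = 1 then dd else (fun _ => 1))) = Z2 n := by
  unfold Phi Z2 EE
  have e1 : ∀ σ : Fin 4 → Equiv.Perm (Fin (n + 2)),
      ∏ j, (if j ∈ ((univ.erase (0 : Fin (n + 2))).erase 1) then gg
        else (if j = 1 then dd else (fun _ => 1))) (fun w => σ w j) =
      ∑ x : Fin n → Fin (n + 2) → Fin 5, dd (fun w => σ w 1) *
        ∏ j : Fin n, ((∏ k, wt5 (x j k)) *
        (val5 (x j (σ 0 j.succ.succ)) * val5 (x j (σ 1 j.succ.succ)) *
          val5 (x j (σ 2 j.succ.succ)) * val5 (x j (σ 3 j.succ.succ)))) := by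
    intro σ
    rw [Fin.prod_univ_succ, Fin.prod_univ_succ]
    have e2 : ∀ j : Fin n, (if j.succ.succ ∈ ((univ.erase (0 : Fin (n + 2))).erase 1) then gg
        else (if j.succ.succ = 1 then dd else (fun _ => 1)))
        (fun w => σ w j.succ.succ) = ∑ r : Fin (n + 2) → Fin 5, ((∏ k, wt5 (r k)) *
        (val5 (r (σ 0 j.succ.succ)) * val5 (r (σ 1 j.succ.succ)) * val5 (r (σ 2 j.succ.succ)) *
          val5 (r (σ 3 j.succ.succ)))) := by
      intro j
      rw [four_point m0 m1 m2 m4]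
      have hne : j.succ.succ ≠ (1 : Fin (n + 2)) := by
        intro h
        have h' : j.succ.succ = Fin.succ (0 : Fin (n + 1)) := by rw [h]; rfl
        exact Fin.succ_ne_zero j (Fin.succ_injective _ h')
      have hmem : j.succ.succ ∈ ((univ.erase (0 : Fin (n + 2))).erase 1) := by
        simp [hne, Fin.succ_ne_zero]
      rw [if_pos hmem]
      rfl
    rw [Finset.prod_congr rfl fun j _ => e2 j]
    rw [Finset.prod_univ_sum, Fintype.piFinset_univ]
    have h1 : (Fin.succ (0 : Fin (n + 1))) = (1 : Fin (n + 2)) := rfl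
    have h2 : (1 : Fin (n + 2)) ∉ ((univ.erase (0 : Fin (n + 2))).erase 1) := by simp
    have h3 : (0 : Fin (n + 2)) ∉ ((univ.erase (0 : Fin (n + 2))).erase 1) := by simp
    have h4 : (0 : Fin (n + 2)) ≠ 1 := by simp
    rw [h1, if_neg h2, if_neg h3, if_pos rfl, if_neg h4, one_mul, Finset.mul_sum]
  rw [Finset.sum_congr rfl fun σ _ => by rw [e1 σ, Finset.mul_sum]]
  rw [Finset.sum_comm]
  refine Finset.sum_congr rfl fun x _ => ?_
  set M : Fin n → Fin (n + 2) → ℚ := fun j k => val5 (x j k) with hM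
  let A : Fin (n + 2) → Matrix (Fin (n + 2)) (Fin (n + 2)) ℚ := fun k =>
    Matrix.of (Fin.insertNth (α := fun _ => Fin (n + 2) → ℚ) 0
      (fun _ => 1) (Fin.insertNth (α := fun _ => Fin (n + 2) → ℚ) 0
        (fun l => if l = k then 1 else 0) M))
  have e2 : (∑ k, mnr1 M k ^ 2) ^ 2 = ∑ k, ∑ l, ∏ w : Fin 4, (A (![k, k, l, l] w)).det := by
    rw [sq (∑ k, mnr1 M k ^ 2), Finset.sum_mul_sum]
    refine Finset.sum_congr rfl fun k _ => Finset.sum_congr rfl fun l _ => ?_
    rw [mnr1_sq, mnr1_sq, Fin.prod_univ_four]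
    simp [A]
    ring
  beta_reduce
  rw [e2]
  have e3 : ∀ k l, ∏ w : Fin 4, (A (![k, k, l, l] w)).det =
      ∑ σ : Fin 4 → Equiv.Perm (Fin (n + 2)), ∏ w : Fin 4,
        (((Equiv.Perm.sign (σ w) : ℤ) : ℚ) * ∏ i, (A (![k, k, l, l] w)) i (σ w i)) := by
    intro k l
    have e4 := (Finset.prod_univ_sum (fun _ : Fin 4 => (univ : Finset (Equiv.Perm (Fin (n + 2)))))
      (fun w τ => ((Equiv.Perm.sign τ : ℤ) : ℚ) * ∏ i, (A (![k, k, l, l] w)) i (τ i))).symm
    rw [Fintype.piFinset_univ] at e4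
    rw [e4]
    refine Finset.prod_congr rfl fun w _ => ?_
    rw [det_rows_q]
  have e6 : ∀ k (τ : Equiv.Perm (Fin (n + 2))), ∏ i, (A k) i (τ i) =
      (if τ 1 = k then 1 else 0) * ∏ j : Fin n, val5 (x j (τ j.succ.succ)) := by
    intro k τ
    rw [Fin.prod_univ_succ, Fin.prod_univ_succ]
    have h1 : (Fin.succ (0 : Fin (n + 1))) = (1 : Fin (n + 2)) := rfl
    have h1' : (1 : Fin (n + 2)) = (0 : Fin (n + 2)).succAbove 0 := by simp
    have a0 : (A k) 0 (τ 0) = 1 := by simp [A]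
    have a1 : (A k) (Fin.succ 0) (τ (Fin.succ 0)) = if τ 1 = k then 1 else 0 := by
      rw [h1]
      simp only [A, Matrix.of_apply]
      have : ∀ q : Fin (n + 2), (Fin.insertNth (α := fun _ => Fin (n + 2) → ℚ) 0
        (fun _ => 1) (Fin.insertNth (α := fun _ => Fin (n + 2) → ℚ) 0
        (fun l => if l = k then 1 else 0) M)) 1 q = if q = k then 1 else 0 := by
        intro q
        rw [h1', Fin.insertNth_apply_succAbove]
        simp
      exact this _
    have a2 : ∀ j : Fin n, (A k) j.succ.succ (τ j.succ.succ) = val5 (x j (τ j.succ.succ)) := by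
      intro j
      simp [A, hM]
    rw [a0, a1, Finset.prod_congr rfl fun j _ => a2 j, one_mul]
  have e7 : ∑ k, ∑ l, ∏ w : Fin 4, (A (![k, k, l, l] w)).det =
      ∑ σ : Fin 4 → Equiv.Perm (Fin (n + 2)), (∏ w, ((Equiv.Perm.sign (σ w) : ℤ) : ℚ)) *
        (dd (fun w => σ w 1) * ∏ w, ∏ j : Fin n, val5 (x j (σ w j.succ.succ))) := by
    rw [Finset.sum_congr rfl fun k _ => Finset.sum_congr rfl fun l _ => e3 k l]
    rw [Finset.sum_congr rfl fun k _ => Finset.sum_comm]
    rw [Finset.sum_comm]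
    refine Finset.sum_congr rfl fun σ _ => ?_
    have e8 : ∀ k l, ∏ w : Fin 4, (((Equiv.Perm.sign (σ w) : ℤ) : ℚ) *
        ∏ i, (A (![k, k, l, l] w)) i (σ w i)) =
        ((if σ 0 1 = k then 1 else 0) * (if σ 1 1 = k then 1 else 0) *
          ((if σ 2 1 = l then 1 else 0) * (if σ 3 1 = l then 1 else 0))) *
        ((∏ w, ((Equiv.Perm.sign (σ w) : ℤ) : ℚ)) *
          ∏ w, ∏ j : Fin n, val5 (x j (σ w j.succ.succ))) := by
      intro k l
      have v0 : (![k, k, l, l] : Fin 4 → Fin (n + 2)) 0 = k := rfl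
      have v1 : (![k, k, l, l] : Fin 4 → Fin (n + 2)) 1 = k := rfl
      have v2 : (![k, k, l, l] : Fin 4 → Fin (n + 2)) 2 = l := rfl
      have v3 : (![k, k, l, l] : Fin 4 → Fin (n + 2)) 3 = l := rfl
      simp only [e6, Fin.prod_univ_four, v0, v1, v2, v3]
      ring
    rw [Finset.sum_congr rfl fun k _ => Finset.sum_congr rfl fun l _ => e8 k l]
    simp only [← Finset.sum_mul, ← Finset.mul_sum]
    have e9 : ∀ a b : Fin (n + 2), ∑ k, (if a = k then (1 : ℚ) else 0) * (if b = k then 1 else 0) =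
        if a = b then 1 else 0 := by
      intro a b
      simp [eq_comm]
    rw [e9, e9]
    unfold dd
    by_cases c1 : σ 0 1 = σ 1 1 <;> by_cases c2 : σ 2 1 = σ 3 1 <;> simp [c1, c2]
  rw [e7, Finset.mul_sum]
  refine Finset.sum_congr rfl fun σ _ => ?_
  rw [Finset.prod_mul_distrib]
  simp only [Fin.prod_univ_four, Finset.prod_mul_distrib]
  ring

end link

end Pool.Agent.helper15.Kumar
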