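import Pool.Agent.helper15.KBase

open Finset Matrix

namespace Pool.Agent.helper15.Kumar

section moments

variable {X : Type} [Fintype X] {wt val : X → ℚ}
variable {K : Type*} [Fintype K] [DecidableEq K]

lemma two_point (h0 : ∑ a, wt a = 1) (h1 : ∑ a, wt a * val a = 0)
    (h2 : ∑ a, wt a * val a ^ 2 = 1) (k0 k1 : K) :
    ∑ r : K → X, (∏ k, wt (r k)) * (val (r k0) * val (r k1)) = if k0 = k1 then 1 else 0 := by
  have e1 : ∀ r : K → X, (∏ k, wt (r k)) * (val (r k0) * val (r k1)) =
      ∏ k, (wt (r k) * ((if k0 = k then val (r k) else 1) * (if k1 = k then val (r k) else 1))) := by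
    intro r
    simp only [Finset.prod_mul_distrib, Finset.prod_ite_eq, Finset.mem_univ, if_true]
  have e2 := (Finset.prod_univ_sum (fun _ : K => (univ : Finset X)) (fun k a =>
    wt a * ((if k0 = k then val a else 1) * (if k1 = k then val a else 1)))).symm
  rw [Fintype.piFinset_univ] at e2
  rw [Finset.sum_congr rfl fun r _ => e1 r, e2]
  by_cases h : k0 = k1
  · subst h
    rw [if_pos rfl]
    apply Finset.prod_eq_one
    intro k _
    by_cases hk : k0 = k
    · simp only [hk, if_true, ← sq, h2]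
    · simp only [hk, if_false, mul_one, h0]
  · rw [if_neg h]
    apply Finset.prod_eq_zero (mem_univ k0)
    have h' : ¬ (k1 = k0) := fun e => h e.symm
    simp only [h', if_true, if_false, mul_one, h1]

lemma four_point {μ : ℚ} (h0 : ∑ a, wt a = 1) (h1 : ∑ a, wt a * val a = 0)
    (h2 : ∑ a, wt a * val a ^ 2 = 1) (h4 : ∑ a, wt a * val a ^ 4 = μ) (k0 k1 k2 k3 : K) :
    ∑ r : K → X, (∏ k, wt (r k)) * (val (r k0) * val (r k1) * val (r k2) * val (r k3)) =
      (if k0 = k1 ∧ k2 = k3 then 1 else 0) + (if k0 = k2 ∧ k1 = k3 then 1 else 0) +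
      (if k0 = k3 ∧ k1 = k2 then 1 else 0) +
      (μ - 3) * (if k0 = k1 ∧ k0 = k2 ∧ k0 = k3 then 1 else 0) := by
  have e1 : ∀ r : K → X, (∏ k, wt (r k)) * (val (r k0) * val (r k1) * val (r k2) * val (r k3)) =
      ∏ k, (wt (r k) * ((if k0 = k then val (r k) else 1) * (if k1 = k then val (r k) else 1) *
        (if k2 = k then val (r k) else 1) * (if k3 = k then val (r k) else 1))) := by
    intro r
    simp only [Finset.prod_mul_distrib, Finset.prod_ite_eq, Finset.mem_univ, if_true]
  have e2 := (Finset.prod_univ_sum (fun _ : K => (univ : Finset X)) (fun k a =>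
    wt a * ((if k0 = k then val a else 1) * (if k1 = k then val a else 1) *
        (if k2 = k then val a else 1) * (if k3 = k then val a else 1)))).symm
  rw [Fintype.piFinset_univ] at e2
  rw [Finset.sum_congr rfl fun r _ => e1 r, e2]
  -- singleton cases
  by_cases s0 : k0 ≠ k1 ∧ k0 ≠ k2 ∧ k0 ≠ k3
  · obtain ⟨a, b, c⟩ := s0
    rw [Finset.prod_eq_zero (mem_univ k0)]
    · simp [a, b, c]
    · simp only [a.symm, b.symm, c.symm, if_true, if_false, mul_one, h1]
  by_cases s1 : k1 ≠ k0 ∧ k1 ≠ k2 ∧ k1 ≠ k3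
  · obtain ⟨a, b, c⟩ := s1
    rw [Finset.prod_eq_zero (mem_univ k1)]
    · simp [a.symm, b, c]
    · simp only [a.symm, b.symm, c.symm, if_true, if_false, mul_one, one_mul, h1]
  by_cases s2 : k2 ≠ k0 ∧ k2 ≠ k1 ∧ k2 ≠ k3
  · obtain ⟨a, b, c⟩ := s2
    rw [Finset.prod_eq_zero (mem_univ k2)]
    · simp [a.symm, b.symm, c]
    · simp only [a.symm, b.symm, c.symm, if_true, if_false, mul_one, one_mul, h1]
  by_cases s3 : k3 ≠ k0 ∧ k3 ≠ k1 ∧ k3 ≠ k2
  · obtain ⟨a, b, c⟩ := s3
    rw [Finset.prod_eq_zero (mem_univ k3)]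
    · simp [a.symm, b.symm, c.symm]
    · simp only [a.symm, b.symm, c.symm, if_true, if_false, mul_one, one_mul, h1]
  by_cases h01 : k0 = k1
  · subst h01
    have h23 : k2 = k3 := by
      by_contra hne
      by_cases h02 : k0 = k2
      · subst h02
        exact s3 ⟨fun e => hne e.symm, fun e => hne e.symm, fun e => hne e.symm⟩
      · exact s2 ⟨fun e => h02 e.symm, fun e => h02 e.symm, hne⟩
    subst h23
    by_cases h02 : k0 = k2
    · subst h02
      rw [Finset.prod_eq_single k0]
      · simp only [if_true, and_self]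
        have : ∀ a, wt a * (val a * val a * val a * val a) = wt a * val a ^ 4 := by
          intro a; ring
        rw [Finset.sum_congr rfl fun a _ => this a, h4]
        ring
      · intro k _ hk
        have hk' : ¬ (k0 = k) := fun e => hk e.symm
        simp only [hk', if_false, mul_one, h0]
      · intro h; exact absurd (mem_univ _) h
    · rw [Finset.prod_eq_one]
      · simp [h02]
      · intro k _
        by_cases hk : k0 = k
        · subst hk
          have h02' : ¬ (k2 = k0) := fun e => h02 e.symm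
          simp only [h02', if_true, if_false, mul_one, ← sq, h2]
        · by_cases hk2 : k2 = k
          · simp only [hk, hk2, if_true, if_false, mul_one, one_mul]
            simp only [← sq, h2]
          · simp only [hk, hk2, if_false, mul_one, h0]
  · by_cases h02 : k0 = k2
    · subst h02
      have h13 : k1 = k3 := by
        by_contra hne
        exact s1 ⟨fun e => h01 e.symm, fun e => h01 e.symm, hne⟩
      subst h13
      rw [Finset.prod_eq_one]
      · simp [h01]
      · intro k _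
        by_cases hk : k0 = k
        · subst hk
          have h' : ¬ (k1 = k0) := fun e => h01 e.symm
          simp only [h', if_true, if_false, mul_one, ← sq, h2]
        · by_cases hk2 : k1 = k
          · simp only [hk, hk2, if_true, if_false, mul_one, one_mul, ← sq, h2]
          · simp only [hk, hk2, if_false, mul_one, h0]
    · have h03 : k0 = k3 := by
        by_contra hne
        exact s0 ⟨h01, h02, hne⟩
      subst h03
      have h12 : k1 = k2 := by
        by_contra hne
        exact s1 ⟨fun e => h01 e.symm, hne, fun e => h01 e.symm⟩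
      subst h12
      rw [Finset.prod_eq_one]
      · simp [h01]
      · intro k _
        by_cases hk : k0 = k
        · subst hk
          have h' : ¬ (k1 = k0) := fun e => h01 e.symm
          simp only [h', if_true, if_false, mul_one, ← sq, h2]
        · by_cases hk2 : k1 = k
          · simp only [hk, hk2, if_true, if_false, mul_one, one_mul, ← sq, h2]
          · simp only [hk, hk2, if_false, mul_one, h0]

lemma second_moment (h0 : ∑ a, wt a = 1) (h1 : ∑ a, wt a * val a = 0)
    (h2 : ∑ a, wt a * val a ^ 2 = 1) (c : K → ℚ) :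
    ∑ r : K → X, (∏ k, wt (r k)) * (∑ k, val (r k) * c k) ^ 2 = ∑ k, c k ^ 2 := by
  have e1 : ∀ r : K → X, (∏ k, wt (r k)) * (∑ k, val (r k) * c k) ^ 2 =
      ∑ k0, ∑ k1, (c k0 * c k1) * ((∏ k, wt (r k)) * (val (r k0) * val (r k1))) := by
    intro r
    rw [sq, Finset.sum_mul_sum, Finset.mul_sum]
    refine Finset.sum_congr rfl fun k0 _ => ?_
    rw [Finset.mul_sum]
    refine Finset.sum_congr rfl fun k1 _ => ?_
    ring
  rw [Finset.sum_congr rfl fun r _ => e1 r, Finset.sum_comm]
  refine Finset.sum_congr rfl fun k0 _ => ?_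
  rw [Finset.sum_comm]
  have e2 : ∀ k1, ∑ r : K → X, (c k0 * c k1) * ((∏ k, wt (r k)) * (val (r k0) * val (r k1))) =
      (c k0 * c k1) * if k0 = k1 then 1 else 0 := by
    intro k1
    rw [← Finset.mul_sum, two_point h0 h1 h2]
  rw [Finset.sum_congr rfl fun k1 _ => e2 k1]
  simp [sq]

lemma fourth_moment {μ : ℚ} (h0 : ∑ a, wt a = 1) (h1 : ∑ a, wt a * val a = 0)
    (h2 : ∑ a, wt a * val a ^ 2 = 1) (h4 : ∑ a, wt a * val a ^ 4 = μ) (c : K → ℚ) :
    ∑ r : K → X, (∏ k, wt (r k)) * (∑ k, val (r k) * c k) ^ 4 =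
      3 * (∑ k, c k ^ 2) ^ 2 + (μ - 3) * ∑ k, c k ^ 4 := by
  have e0 : ∀ A : K → ℚ, (∑ k, A k) ^ 4 = ∑ k0, ∑ k1, ∑ k2, ∑ k3, A k0 * A k1 * A k2 * A k3 := by
    intro A
    simp only [← Finset.mul_sum, ← Finset.sum_mul]
    ring
  have e1 : ∀ r : K → X, (∏ k, wt (r k)) * (∑ k, val (r k) * c k) ^ 4 =
      ∑ k0, ∑ k1, ∑ k2, ∑ k3, (c k0 * c k1 * c k2 * c k3) *
        ((∏ k, wt (r k)) * (val (r k0) * val (r k1) * val (r k2) * val (r k3))) := by
    intro r
    rw [e0]
    simp only [Finset.mul_sum]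
    refine Finset.sum_congr rfl fun k0 _ => Finset.sum_congr rfl fun k1 _ =>
      Finset.sum_congr rfl fun k2 _ => Finset.sum_congr rfl fun k3 _ => ?_
    ring
  rw [Finset.sum_congr rfl fun r _ => e1 r, Finset.sum_comm]
  have e2 : ∀ k0, ∑ r : K → X, ∑ k1, ∑ k2, ∑ k3, (c k0 * c k1 * c k2 * c k3) *
        ((∏ k, wt (r k)) * (val (r k0) * val (r k1) * val (r k2) * val (r k3))) =
      ∑ k1, ∑ k2, ∑ k3, (c k0 * c k1 * c k2 * c k3) *
        ((if k0 = k1 ∧ k2 = k3 then 1 else 0) + (if k0 = k2 ∧ k1 = k3 then 1 else 0) +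
      (if k0 = k3 ∧ k1 = k2 then 1 else 0) +
      (μ - 3) * (if k0 = k1 ∧ k0 = k2 ∧ k0 = k3 then 1 else 0)) := by
    intro k0
    rw [Finset.sum_comm]
    refine Finset.sum_congr rfl fun k1 _ => ?_
    rw [Finset.sum_comm]
    refine Finset.sum_congr rfl fun k2 _ => ?_
    rw [Finset.sum_comm]
    refine Finset.sum_congr rfl fun k3 _ => ?_
    rw [← Finset.mul_sum, four_point h0 h1 h2 h4]
  rw [Finset.sum_congr rfl fun k0 _ => e2 k0]
  simp only [mul_add, Finset.sum_add_distrib, ite_and, mul_ite, mul_one, mul_zero,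
    Finset.sum_ite_eq, Finset.mem_univ, if_true, Finset.sum_ite_irrel, Finset.sum_const_zero]
  have a1 : ∑ x, ∑ x_1, c x * c x * c x_1 * c x_1 = (∑ k, c k ^ 2) ^ 2 := by
    rw [sq (∑ k, c k ^ 2), Finset.sum_mul_sum]
    refine Finset.sum_congr rfl fun k0 _ => Finset.sum_congr rfl fun k1 _ => ?_
    ring
  have a2 : ∑ x, ∑ x_1, c x * c x_1 * c x * c x_1 = (∑ k, c k ^ 2) ^ 2 := by
    rw [sq (∑ k, c k ^ 2), Finset.sum_mul_sum]
    refine Finset.sum_congr rfl fun k0 _ => Finset.sum_congr rfl fun k1 _ => ?_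
    ring
  have a3 : ∑ x, ∑ x_1, c x * c x_1 * c x_1 * c x = (∑ k, c k ^ 2) ^ 2 := by
    rw [sq (∑ k, c k ^ 2), Finset.sum_mul_sum]
    refine Finset.sum_congr rfl fun k0 _ => Finset.sum_congr rfl fun k1 _ => ?_
    ring
  have a4 : ∑ x, c x * c x * c x * c x * (μ - 3) = (μ - 3) * ∑ k, c k ^ 4 := by
    rw [Finset.mul_sum]
    refine Finset.sum_congr rfl fun k0 _ => ?_
    ring
  rw [a1, a2, a3]
  linear_combination a4

end moments

end Pool.Agent.helper15.Kumar
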