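import Pool.Agent.helper15.NTg

open Finset

namespace Pool.Agent.helper15.NT

/-- the numbers `p - 1` and `p + 1` for primes `p > x` -/
def AA (x : ℕ) : Set ℕ := {a | ∃ p : ℕ, p.Prime ∧ x < p ∧ (a = p - 1 ∨ a = p + 1)}

lemma AA_anti {x y : ℕ} (h : x ≤ y) : AA y ⊆ AA x := by
  rintro a ⟨p, hp, hy, ha⟩
  exact ⟨p, hp, lt_of_le_of_lt h hy, ha⟩

/-- halves of elements of the semigroup -/
def CC (x : ℕ) : AddSubmonoid ℕ := (AddSubmonoid.closure (AA x)).comap (AddMonoidHom.mulLeft 2)

lemma mem_CC {x t : ℕ} : t ∈ CC x ↔ 2 * t ∈ AddSubmonoid.closure (AA x) := by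
  unfold CC
  rw [AddSubmonoid.mem_comap]
  rfl

/-- shifted halves of sums of two primes -/
def BB (x : ℕ) : Finset ℕ := (SS x).image (fun m => m / 2 - 1)

lemma SS_lower {x m : ℕ} (hm : m ∈ SS x) : 2 * x + 2 ≤ m := by
  simp only [SS, Finset.mem_image, Finset.mem_product] at hm
  obtain ⟨⟨p, q⟩, ⟨hp, hq⟩, rfl⟩ := hm
  simp only [mem_PX] at hp hq
  simp only
  omega

lemma card_BB {x : ℕ} (hx : 2 ≤ x) : (BB x).card = (SS x).card := by
  unfold BB
  apply Finset.card_image_of_injOn
  intro a ha b hb hab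
  have h1 := SS_even hx ha
  have h2 := SS_even hx hb
  have h3 := SS_lower ha
  have h4 := SS_lower hb
  obtain ⟨c, hc⟩ := h1.1
  obtain ⟨d, hd⟩ := h2.1
  simp only at hab
  omega

lemma BB_bounds {x t : ℕ} (hx : 2 ≤ x) (ht : t ∈ BB x) : x ≤ t ∧ t ≤ 8 * x := by
  unfold BB at ht
  rw [Finset.mem_image] at ht
  obtain ⟨m, hm, rfl⟩ := ht
  have h1 := SS_even hx hm
  have h3 := SS_lower hm
  omega

lemma BB_mem {x t : ℕ} (hx : 2 ≤ x) (ht : t ∈ BB x) : t ∈ CC x ∧ t + 1 ∈ CC x := by
  unfold BB at ht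
  rw [Finset.mem_image] at ht
  obtain ⟨m, hm, rfl⟩ := ht
  have h1 := SS_even hx hm
  have h3 := SS_lower hm
  simp only [SS, Finset.mem_image, Finset.mem_product] at hm
  obtain ⟨⟨p, q⟩, ⟨hp, hq⟩, hpq⟩ := hm
  simp only [mem_PX] at hp hq
  simp only at hpq
  have ap : p - 1 ∈ AddSubmonoid.closure (AA x) :=
    AddSubmonoid.subset_closure ⟨p, hp.2, hp.1.1, Or.inl rfl⟩
  have aq : q - 1 ∈ AddSubmonoid.closure (AA x) :=
    AddSubmonoid.subset_closure ⟨q, hq.2, hq.1.1, Or.inl rfl⟩
  have aq' : q + 1 ∈ AddSubmonoid.closure (AA x) :=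
    AddSubmonoid.subset_closure ⟨q, hq.2, hq.1.1, Or.inr rfl⟩
  obtain ⟨c, hc⟩ := h1.1
  constructor
  · rw [mem_CC]
    have := AddSubmonoid.add_mem _ ap aq
    have e : p - 1 + (q - 1) = 2 * (m / 2 - 1) := by omega
    rwa [e] at this
  · rw [mem_CC]
    have := AddSubmonoid.add_mem _ ap aq'
    have e : p - 1 + (q + 1) = 2 * (m / 2 - 1 + 1) := by omega
    rwa [e] at this

theorem exists_const : ∃ C X0 : ℕ, ∀ x : ℕ, X0 ≤ x → ∀ t : ℕ, C * x ≤ t → t ∈ CC x := by
  obtain ⟨δ, hδ, hdens⟩ := exists_density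
  -- constants
  set η : ℝ := min (δ / 16) 1 with hη
  have hη0 : 0 < η := lt_min (by positivity) one_pos
  have hη1 : η ≤ 1 := min_le_right _ _
  have hηδ : η ≤ δ / 16 := min_le_left _ _
  set σ : ℝ := η / 2 with hσ
  have hσ0 : 0 < σ := by positivity
  have hσ1 : σ < 1 := by linarith
  obtain ⟨k, hk⟩ : ∃ k : ℕ, (1 - σ) ^ k ≤ 1 / 2 := by
    obtain ⟨k, hk⟩ := exists_pow_lt_of_lt_one (by norm_num : (0 : ℝ) < 1 / 2)
      (by linarith : 1 - σ < 1)
    exact ⟨k, hk.le⟩
  set J : ℕ := ⌈2 / η⌉₊ with hJ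
  refine ⟨8 * (J * (2 * k)), max (2 ^ 24) ⌈1 / (4 * η)⌉₊, ?_⟩
  intro x hx t ht
  have hx24 : 2 ^ 24 ≤ x := le_trans (le_max_left _ _) hx
  have hxη : 1 / (4 * η) ≤ x := by
    have h1 : ⌈1 / (4 * η)⌉₊ ≤ x := le_trans (le_max_right _ _) hx
    exact (Nat.le_ceil _).trans (by exact_mod_cast h1)
  have hx2 : 2 ≤ x := by omega
  have hxpos : (0 : ℝ) < x := by exact_mod_cast (by omega : 0 < x)
  set M : ℕ := 8 * x with hM
  set B := BB x with hB
  have hBcard : 2 * η * M ≤ B.card := by
    have h1 := hdens x hx24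
    rw [hB, card_BB hx2]
    rw [hM]
    push_cast
    nlinarith
  -- counting function and argmin
  let c : ℕ → ℕ := fun u => (B.filter (fun b => b ≤ u)).card
  let f : ℕ → ℝ := fun u => (c u : ℝ) - η * u
  obtain ⟨t0, ht0, hmin⟩ := Finset.exists_min_image (range (M + 1)) f ⟨0, by simp⟩
  have ht0M : t0 ≤ M := by
    have := Finset.mem_range.mp ht0
    omega
  have hf0 : f 0 = 0 := by
    have : c 0 = 0 := by
      simp only [c]
      rw [Finset.card_eq_zero, Finset.filter_eq_empty_iff]
      intro b hb hb0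
      have := BB_bounds hx2 hb
      omega
    simp only [f, this]
    simp
  have hcM : c M = B.card := by
    simp only [c]
    congr 1
    rw [Finset.filter_eq_self]
    intro b hb
    exact (BB_bounds hx2 hb).2
  have hft0 : f t0 ≤ 0 := by
    have := hmin 0 (by simp)
    rwa [hf0] at this
  have hfM : η * M ≤ f M := by
    simp only [f]
    rw [hcM]
    linarith
  have hMpos : (0 : ℝ) < M := by rw [hM]; push_cast; linarith
  have ht0lt : t0 < M := by
    rcases lt_or_eq_of_le ht0M with h | h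
    · exact h
    · exfalso
      rw [h] at hft0
      nlinarith
  have hinc : ∀ u, t0 ≤ u → u ≤ M → η * ((u : ℝ) - t0) ≤ (c u : ℝ) - c t0 := by
    intro u h1 h2
    have := hmin u (by rw [Finset.mem_range]; omega)
    simp only [f] at this
    linarith
  set b0 := t0 + 1 with hb0
  have hb0M : b0 ≤ M := by omega
  -- b0 belongs to B
  have hcsucc : ∀ u, c (u + 1) = c u + (if u + 1 ∈ B then 1 else 0) := by
    intro u
    simp only [c]
    have : B.filter (fun b => b ≤ u + 1) =
        B.filter (fun b => b ≤ u) ∪ (if u + 1 ∈ B then {u + 1} else ∅) := by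
      ext b
      simp only [Finset.mem_filter, Finset.mem_union]
      constructor
      · rintro ⟨hb, hbu⟩
        by_cases he : b = u + 1
        · right
          subst he
          rw [if_pos hb]
          simp
        · left
          exact ⟨hb, by omega⟩
      · rintro (⟨hb, hbu⟩ | h)
        · exact ⟨hb, by omega⟩
        · split_ifs at h with hu
          · rw [Finset.mem_singleton] at h
            subst h
            exact ⟨hu, le_rfl⟩
          · simp at h
    rw [this, Finset.card_union_of_disjoint]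
    · congr 1
      split_ifs <;> simp
    · rw [Finset.disjoint_left]
      intro b hb hb'
      rw [Finset.mem_filter] at hb
      split_ifs at hb' with hu
      · rw [Finset.mem_singleton] at hb'
        omega
      · simp at hb'
  have hb0B : b0 ∈ B := by
    by_contra hnot
    have h1 := hinc b0 (by omega) hb0M
    have h2 := hcsucc t0
    rw [← hb0, if_neg hnot, add_zero] at h2
    rw [h2] at h1
    rw [hb0] at h1
    push_cast at h1
    nlinarith
  have hcb0 : c b0 = c t0 + 1 := by
    have h2 := hcsucc t0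
    rw [← hb0, if_pos hb0B] at h2
    exact h2
  -- the set E
  set E : Finset ℕ := (B.filter (fun b => b0 ≤ b)).image (fun b => b - b0) ∪ {0, 1} with hE
  have h0E : 0 ∈ E := by simp [hE]
  have h1E : 1 ∈ E := by simp [hE]
  have hEC : ∀ e ∈ E, b0 + e ∈ CC x := by
    intro e he
    rw [hE, Finset.mem_union, Finset.mem_image] at he
    rcases he with ⟨b, hb, rfl⟩ | he
    · rw [Finset.mem_filter] at hb
      have : b0 + (b - b0) = b := by omega
      rw [this]
      exact (BB_mem hx2 hb.1).1
    · simp only [Finset.mem_insert, Finset.mem_singleton] at he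
      rcases he with rfl | rfl
      · exact (BB_mem hx2 hb0B).1
      · exact (BB_mem hx2 hb0B).2
  set L : ℕ := M - b0 with hL
  have hcntE : ∀ v ≤ L, σ * v ≤ cnt E v := by
    intro v hv
    by_cases hv0 : v = 0
    · subst hv0; simp
    have hvpos : (1 : ℝ) ≤ v := by exact_mod_cast Nat.one_le_iff_ne_zero.mpr hv0
    have hc1 : 1 ≤ cnt E v := by
      unfold cnt
      rw [Nat.one_le_iff_ne_zero, Finset.card_ne_zero]
      exact ⟨1, by rw [Finset.mem_filter]; exact ⟨h1E, le_rfl, by omega⟩⟩
    have hc2 : c (b0 + v) ≤ c b0 + cnt E v := by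
      have hsub : B.filter (fun b => b ≤ b0 + v) ⊆ B.filter (fun b => b ≤ b0) ∪
          (E.filter (fun e => 1 ≤ e ∧ e ≤ v)).image (fun e => b0 + e) := by
        intro b hb
        rw [Finset.mem_filter] at hb
        rw [Finset.mem_union]
        by_cases hbb : b ≤ b0
        · left; rw [Finset.mem_filter]; exact ⟨hb.1, hbb⟩
        · right
          rw [Finset.mem_image]
          refine ⟨b - b0, ?_, by omega⟩
          rw [Finset.mem_filter]
          refine ⟨?_, by omega, by omega⟩
          rw [hE, Finset.mem_union, Finset.mem_image]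
          left
          exact ⟨b, by rw [Finset.mem_filter]; exact ⟨hb.1, by omega⟩, rfl⟩
      calc c (b0 + v) ≤ _ := Finset.card_le_card hsub
        _ ≤ (B.filter (fun b => b ≤ b0)).card +
            ((E.filter (fun e => 1 ≤ e ∧ e ≤ v)).image (fun e => b0 + e)).card :=
          Finset.card_union_le _ _
        _ ≤ c b0 + cnt E v := by
          apply Nat.add_le_add_left
          exact Finset.card_image_le
    have h3 := hinc (b0 + v) (by omega) (by omega)
    have h4 : (c (b0 + v) : ℝ) ≤ c b0 + cnt E v := by exact_mod_cast hc2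
    have h5 : (c b0 : ℝ) = c t0 + 1 := by exact_mod_cast hcb0
    have h6 : η * ((v : ℝ) + 1) - 1 ≤ cnt E v := by
      have e1 : ((b0 + v : ℕ) : ℝ) - t0 = v + 1 := by
        rw [hb0]; push_cast; ring
      rw [e1] at h3
      linarith
    have h7 : (1 : ℝ) ≤ cnt E v := by exact_mod_cast hc1
    by_cases hcase : σ * v ≤ 1
    · linarith
    · push Not at hcase
      rw [hσ] at hcase ⊢
      nlinarith
  -- lengths
  have hLη : (η / 2) * M ≤ L := by
    have h1 := hinc M ht0M le_rfl
    have h2 : (c M : ℝ) - c t0 ≤ M - t0 := by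
      -- counting is 1-Lipschitz
      have hlip : ∀ d, c (t0 + d) ≤ c t0 + d := by
        intro d
        induction d with
        | zero => simp
        | succ d ih =>
          have := hcsucc (t0 + d)
          have h3 : (if t0 + d + 1 ∈ B then 1 else 0) ≤ 1 := by split_ifs <;> simp
          have e1 : t0 + (d + 1) = t0 + d + 1 := by ring
          rw [e1, this]
          omega
      have h3 := hlip (M - t0)
      have e1 : t0 + (M - t0) = M := by omega
      rw [e1] at h3
      have h4 : (c M : ℝ) ≤ c t0 + ((M - t0 : ℕ) : ℝ) := by exact_mod_cast h3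
      rw [Nat.cast_sub ht0M] at h4
      linarith
    have h3 : (c t0 : ℝ) ≤ η * t0 := by
      have := hft0
      simp only [f] at this
      linarith
    have h4 : (c M : ℝ) = B.card := by exact_mod_cast hcM
    have h5 : η * M ≤ (M : ℝ) - t0 := by
      have h6 : (t0 : ℝ) ≤ M := by exact_mod_cast ht0M
      have h7 : η * t0 ≤ η * M := mul_le_mul_of_nonneg_left h6 hη0.le
      linarith
    have h6 : (L : ℝ) = M - t0 - 1 := by
      rw [hL, Nat.cast_sub hb0M, hb0]
      push_cast
      ring
    rw [h6]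
    have h7 : 1 ≤ (η / 2) * M := by
      rw [hM]
      push_cast
      rw [div_le_iff₀ (by positivity)] at hxη
      linarith
    linarith
  have hcover : ∀ v ≤ L, 2 * k * b0 + v ∈ CC x := by
    intro v hv
    have h1 := ks_cover h0E hσ1.le hcntE hk v hv
    rw [mem_sumF] at h1
    obtain ⟨a, ha, b, hb, hab⟩ := h1
    have h2 := ks_mem_submonoid (CC x) b0 hEC k a ha
    have h3 := ks_mem_submonoid (CC x) b0 hEC k b hb
    have h4 := (CC x).add_mem h2 h3
    have e1 : k * b0 + a + (k * b0 + b) = 2 * k * b0 + v := by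
      rw [← hab]; ring
    rwa [e1] at h4
  have hint := interval_mul (CC x) (2 * k * b0) L hcover J
  have hJL : b0 ≤ J * L := by
    have h1 : (2 / η) ≤ J := Nat.le_ceil _
    have h2 : (M : ℝ) ≤ J * L := by
      calc (M : ℝ) = (2 / η) * ((η / 2) * M) := by field_simp
        _ ≤ J * L := by
          apply mul_le_mul h1 hLη (by positivity) (by positivity)
    have h3 : M ≤ J * L := by exact_mod_cast h2
    exact hb0M.trans h3
  apply all_large (CC x) (J * (2 * k * b0)) b0 (by omega) (BB_mem hx2 hb0B).1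
  · intro v hv
    exact hint v (hv.trans hJL)
  · calc J * (2 * k * b0) ≤ J * (2 * k * M) := by gcongr
      _ = 8 * (J * (2 * k)) * x := by rw [hM]; ring
      _ ≤ t := ht

/-- There is a constant `C` such that every even `n ≥ C x` is a sum of numbers `p - 1` and `p + 1`
with primes `p > x`. -/
theorem exists_const_all : ∃ C : ℕ, 0 < C ∧ ∀ x : ℕ, 1 ≤ x → ∀ n : ℕ, Even n → C * x ≤ n →
    n ∈ AddSubmonoid.closure (AA x) := by
  obtain ⟨C, X0, h⟩ := exists_const
  refine ⟨2 * (C + 1) * (X0 + 1), by positivity, ?_⟩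
  intro x hx n hn hCn
  obtain ⟨t, rfl⟩ := hn
  set x' := max x X0 with hx'
  have h1 : x' ≤ (X0 + 1) * x := by
    rw [hx']
    apply max_le
    · nlinarith
    · nlinarith
  have h2 : C * x' ≤ t := by
    have h3 : C * x' ≤ C * ((X0 + 1) * x) := Nat.mul_le_mul_left _ h1
    nlinarith
  have h3 := h x' (le_max_right _ _) t h2
  rw [mem_CC] at h3
  have h4 : AddSubmonoid.closure (AA x') ≤ AddSubmonoid.closure (AA x) :=
    AddSubmonoid.closure_mono (AA_anti (le_max_left _ _))
  have h5 := h4 h3
  rwa [two_mul] at h5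

end Pool.Agent.helper15.NT
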