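import Pool.Agent.helper15.KGood

open Finset Matrix

namespace Pool.Agent.helper15.Kumar

section multi

variable {I B : Type*} [Fintype I] [DecidableEq I] [Fintype B] [DecidableEq B]

/-- Inclusion-exclusion for families of maps. -/
lemma incl_excl_multi {R : Type*} [CommRing R] (h : (I → B → B) → R) :
    ∑ S : I → Finset B, (∏ r, (-1 : R) ^ ((S r)ᶜ).card) *
      ∑ g ∈ Fintype.piFinset (fun r => Fintype.piFinset (fun _ : B => S r)), h g
      = ∑ τ : I → Equiv.Perm B, h (fun r => τ r) := by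
  have h1 : ∀ S : I → Finset B, (∏ r, (-1 : R) ^ ((S r)ᶜ).card) *
      ∑ g ∈ Fintype.piFinset (fun r => Fintype.piFinset (fun _ : B => S r)), h g
      = ∑ g : I → B → B, (∏ r, (if univ.image (g r) ⊆ S r then (-1 : R) ^ ((S r)ᶜ).card else 0))
        * h g := by
    intro S
    rw [Finset.mul_sum]
    have h2 : Fintype.piFinset (fun r => Fintype.piFinset (fun _ : B => S r)) =
        univ.filter (fun g : I → B → B => ∀ r, univ.image (g r) ⊆ S r) := by
      ext g
      simp [Fintype.mem_piFinset, Finset.image_subset_iff]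
    rw [h2, Finset.sum_filter]
    refine Finset.sum_congr rfl fun g _ => ?_
    split_ifs with h3
    · rw [Finset.prod_congr rfl fun r _ => (if_pos (h3 r)).symm]
    · push Not at h3
      obtain ⟨r, hr⟩ := h3
      rw [Finset.prod_eq_zero (mem_univ r) (if_neg hr), zero_mul]
  simp_rw [h1]
  rw [Finset.sum_comm]
  simp_rw [← Finset.sum_mul]
  have h2 : ∀ g : I → B → B, ∑ S : I → Finset B,
      (∏ r, (if univ.image (g r) ⊆ S r then (-1 : R) ^ ((S r)ᶜ).card else 0)) =
      ∏ r, (if univ.image (g r) = univ then (1 : R) else 0) := by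
    intro g
    have h3 := (Finset.prod_univ_sum (fun _ : I => (univ : Finset (Finset B)))
      (fun r S => (if univ.image (g r) ⊆ S then (-1 : R) ^ (Sᶜ).card else 0))).symm
    rw [Fintype.piFinset_univ] at h3
    rw [h3]
    simp_rw [sum_supersets_neg_one]
  simp_rw [h2]
  symm
  refine Finset.sum_of_injOn (fun (τ : I → Equiv.Perm B) r => (τ r : B → B)) ?_ ?_ ?_ ?_
  · intro a _ b _ hab
    funext r
    exact DFunLike.coe_injective (congrFun hab r)
  · intro a _; simp
  · intro g _ hg
    by_cases hall : ∀ r, univ.image (g r) = univ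
    · exfalso
      apply hg
      have hs : ∀ r, Function.Bijective (g r) := by
        intro r
        have hs : Function.Surjective (g r) := by
          intro y
          have := hall r ▸ mem_univ y
          obtain ⟨x, -, hx⟩ := Finset.mem_image.mp this
          exact ⟨x, hx⟩
        exact ⟨Finite.injective_iff_surjective.mpr hs, hs⟩
      exact ⟨fun r => Equiv.ofBijective (g r) (hs r), by simp, rfl⟩
    · push Not at hall
      obtain ⟨r, hr⟩ := hall
      rw [Finset.prod_eq_zero (mem_univ r) (if_neg hr), zero_mul]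
  · intro τ _
    have : ∀ r, univ.image (τ r : B → B) = univ := fun r =>
      Finset.image_univ_of_surjective (τ r).surjective
    rw [Finset.prod_eq_one (fun r _ => if_pos (this r)), one_mul]

variable {K : Type*} [CommRing K]

/-- the zero-one sum matrices used for polarization -/
def YS (K : Type*) [CommRing K] (v : I → B → I) (S : I → Finset B) : Matrix I I K :=
  Matrix.of fun r k => ∑ t ∈ S r, if v r t = k then (1 : K) else 0

lemma det_YS (v : I → B → I) (S : I → Finset B) :
    (YS K v S).det = ∑ g ∈ Fintype.piFinset S, ((eps fun r => v r (g r) : ℤ) : K) := by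
  rw [det_expand]
  have h1 : ∀ f : I → I, ∏ r, YS K v S r (f r) =
      ∑ g ∈ Fintype.piFinset S, ∏ r, (if v r (g r) = f r then (1 : K) else 0) := by
    intro f
    have h0 := Finset.prod_univ_sum S (fun r t => if v r t = f r then (1 : K) else 0)
    rw [← h0]
    rfl
  simp_rw [h1, Finset.mul_sum]
  rw [Finset.sum_comm]
  refine Finset.sum_congr rfl fun g _ => ?_
  rw [Finset.sum_eq_single (fun r => v r (g r))]
  · simp
  · intro f _ hf
    have : ∃ r, v r (g r) ≠ f r := by
      by_contra hcon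
      push Not at hcon
      exact hf (funext fun r => (hcon r).symm)
    obtain ⟨r, hr⟩ := this
    rw [Finset.prod_eq_zero (mem_univ r) (if_neg hr), mul_zero]
  · intro hh; exact absurd (mem_univ _) hh

lemma det_YS_pow (v : I → B → I) (S : I → Finset B) :
    (YS K v S).det ^ Fintype.card B =
      ∑ G ∈ Fintype.piFinset (fun r => Fintype.piFinset (fun _ : B => S r)),
        ∏ b, ((eps fun r => v r (G r b) : ℤ) : K) := by
  rw [det_YS]
  have h1 : (∑ g ∈ Fintype.piFinset S, ((eps fun r => v r (g r) : ℤ) : K)) ^ Fintype.card B =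
      ∏ _b : B, ∑ g ∈ Fintype.piFinset S, ((eps fun r => v r (g r) : ℤ) : K) := by
    simp
  rw [h1, Finset.prod_univ_sum]
  refine Finset.sum_nbij' (fun G r b => G b r) (fun G b r => G r b) ?_ ?_ ?_ ?_ ?_
  · intro G hG
    simp only [Fintype.mem_piFinset] at hG ⊢
    intro r b; exact hG b r
  · intro G hG
    simp only [Fintype.mem_piFinset] at hG ⊢
    intro r b; exact hG b r
  · intro G _; rfl
  · intro G _; rfl
  · intro G _; rfl

lemma row_YS (v : I → B → I) (S : I → Finset B) (ℓ : B → I → K) :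
    ∏ s, ∏ r, ∑ k, YS K v S r k * ℓ s k =
      ∑ G ∈ Fintype.piFinset (fun r => Fintype.piFinset (fun _ : B => S r)),
        ∏ s, ∏ r, ℓ s (v r (G r s)) := by
  have h1 : ∀ s r, ∑ k, YS K v S r k * ℓ s k = ∑ t ∈ S r, ℓ s (v r t) := by
    intro s r
    simp only [YS, Matrix.of_apply, Finset.sum_mul]
    rw [Finset.sum_comm]
    refine Finset.sum_congr rfl fun t _ => ?_
    simp
  simp_rw [h1]
  rw [Finset.prod_comm]
  have h2 : ∀ r, ∏ s, ∑ t ∈ S r, ℓ s (v r t) =
      ∑ g ∈ Fintype.piFinset (fun _ : B => S r), ∏ s, ℓ s (v r (g s)) := by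
    intro r
    rw [Finset.prod_univ_sum]
  simp_rw [h2]
  rw [Finset.prod_univ_sum]
  refine Finset.sum_congr rfl fun G _ => ?_
  rw [Finset.prod_comm]

/-- The polarization functional. -/
def Lam (K : Type*) [CommRing K] (v : I → B → I) (F : Matrix I I K → K) : K :=
  ∑ S : I → Finset B, (∏ r, (-1 : K) ^ ((S r)ᶜ).card) * F (YS K v S)

lemma Lam_det (v : I → B → I) :
    Lam K v (fun Y => Y.det ^ Fintype.card B) =
      ∑ τ : I → Equiv.Perm B, ∏ b, ((eps fun r => v r (τ r b) : ℤ) : K) := by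
  unfold Lam
  simp_rw [det_YS_pow]
  exact incl_excl_multi (R := K) (fun G => ∏ b, ((eps fun r => v r (G r b) : ℤ) : K))

lemma Lam_row (v : I → B → I) (ℓ : B → I → K) :
    Lam K v (fun Y => ∏ s, ∏ r, ∑ k, Y r k * ℓ s k) =
      ∑ τ : I → Equiv.Perm B, ∏ s, ∏ r, ℓ s (v r (τ r s)) := by
  unfold Lam
  simp_rw [row_YS]
  exact incl_excl_multi (R := K) (fun G => ∏ s, ∏ r, ℓ s (v r (G r s)))

lemma Lam_add (v : I → B → I) (F G : Matrix I I K → K) :
    Lam K v (F + G) = Lam K v F + Lam K v G := by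
  simp [Lam, mul_add, Finset.sum_add_distrib]

lemma Lam_smul (v : I → B → I) (c : K) (F : Matrix I I K → K) :
    Lam K v (c • F) = c * Lam K v F := by
  simp only [Lam, Pi.smul_apply, smul_eq_mul, Finset.mul_sum]
  refine Finset.sum_congr rfl fun S _ => ?_
  ring

/-- The value of the highest weight vector on a product of linear forms. -/
def DD (ℓ : B → I → K) : K :=
  ∑ τ : I → Equiv.Perm B, ∏ t, Matrix.det (Matrix.of fun r k => ℓ (τ r t) k)

/-- The total functional. -/
noncomputable def LL (K : Type*) [CommRing K] (I B : Type*) [Fintype I] [DecidableEq I] [Fintype B]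
    [DecidableEq B] : (Matrix I I K → K) →ₗ[K] K where
  toFun F := ∑ v : I → B → I, (∏ t, ((eps fun r => v r t : ℤ) : K)) * Lam K v F
  map_add' F G := by
    rw [← Finset.sum_add_distrib]
    refine Finset.sum_congr rfl fun v _ => ?_
    rw [Lam_add, mul_add]
  map_smul' c F := by
    rw [RingHom.id_apply, smul_eq_mul, Finset.mul_sum]
    refine Finset.sum_congr rfl fun v _ => ?_
    rw [Lam_smul]
    ring

lemma LL_row (ℓ : B → I → K) :
    LL K I B (fun Y => ∏ s, ∏ r, ∑ k, Y r k * ℓ s k) = DD ℓ := by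
  change ∑ v : I → B → I, (∏ t, ((eps fun r => v r t : ℤ) : K)) *
    Lam K v (fun Y => ∏ s, ∏ r, ∑ k, Y r k * ℓ s k) = _
  simp_rw [Lam_row, Finset.mul_sum]
  rw [Finset.sum_comm]
  unfold DD
  rw [← Equiv.sum_comp (Equiv.piCongrRight fun _ : I => Equiv.inv (Equiv.Perm B))]
  refine Finset.sum_congr rfl fun τ _ => ?_
  have h1 : ∀ v : I → B → I, (∏ t, ((eps fun r => v r t : ℤ) : K)) *
      ∏ s, ∏ r, ℓ s (v r ((Equiv.piCongrRight fun _ : I => Equiv.inv (Equiv.Perm B)) τ r s)) =
      ∏ t, (((eps fun r => v r t : ℤ) : K) * ∏ r, ℓ (τ r t) (v r t)) := by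
    intro v
    rw [Finset.prod_mul_distrib]
    congr 1
    rw [Finset.prod_comm, Finset.prod_comm (s := (univ : Finset B))]
    refine Finset.prod_congr rfl fun r _ => ?_
    rw [← Equiv.prod_comp (τ r)]
    refine Finset.prod_congr rfl fun t _ => ?_
    simp
  simp_rw [h1]
  let e : (I → B → I) ≃ (B → I → I) := Equiv.piComm (fun _ _ => I)
  have h2 : ∀ v : I → B → I, ∏ t, (((eps fun r => v r t : ℤ) : K) * ∏ r, ℓ (τ r t) (v r t)) =
      (fun w : B → I → I => ∏ t, (((eps (w t) : ℤ) : K) * ∏ r, ℓ (τ r t) (w t r))) (e v) := by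
    intro v; rfl
  rw [Finset.sum_congr rfl fun v _ => h2 v]
  rw [Equiv.sum_comp e (fun w : B → I → I => ∏ t, (((eps (w t) : ℤ) : K) *
    ∏ r, ℓ (τ r t) (w t r)))]
  have h3 : ∑ w : B → I → I, ∏ t, (((eps (w t) : ℤ) : K) * ∏ r, ℓ (τ r t) (w t r)) =
      ∏ t, ∑ f : I → I, (((eps f : ℤ) : K) * ∏ r, ℓ (τ r t) (f r)) := by
    rw [Finset.prod_univ_sum, Fintype.piFinset_univ]
  rw [h3]
  refine Finset.prod_congr rfl fun t _ => ?_
  rw [det_expand]
  rfl

/-- The sum of squares. -/
noncomputable def QQ (I B : Type*) [Fintype I] [DecidableEq I] [Fintype B] [DecidableEq B] : ℤ :=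
  ∑ v : I → B → I, (∏ t, eps fun r => v r t) *
    ∑ τ : I → Equiv.Perm B, ∏ b, eps fun r => v r (τ r b)

lemma LL_det : LL K I B (fun Y => Y.det ^ Fintype.card B) = ((QQ I B : ℤ) : K) := by
  change ∑ v : I → B → I, (∏ t, ((eps fun r => v r t : ℤ) : K)) *
    Lam K v (fun Y => Y.det ^ Fintype.card B) = _
  simp_rw [Lam_det]
  unfold QQ
  push_cast
  rfl

lemma QQ_pos : 0 < QQ I B := by
  let s : (I → B → I) → ℤ := fun v => ∏ t, eps fun r => v r t
  let act : (I → Equiv.Perm B) → (I → B → I) → (I → B → I) := fun h v r b => v r (h r b)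
  have h1 : QQ I B = ∑ v, s v * ∑ τ, s (act τ v) := rfl
  have h2 : ∀ h : I → Equiv.Perm B, QQ I B = ∑ v, s (act h v) * ∑ τ, s (act τ v) := by
    intro h
    let e : (I → B → I) ≃ (I → B → I) :=
      { toFun := act h
        invFun := act (fun r => (h r)⁻¹)
        left_inv := fun v => by funext r b; simp [act]
        right_inv := fun v => by funext r b; simp [act] }
    rw [h1, ← Equiv.sum_comp e]
    refine Finset.sum_congr rfl fun v _ => ?_
    congr 1
    let e2 : (I → Equiv.Perm B) ≃ (I → Equiv.Perm B) := Equiv.mulLeft h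
    exact Equiv.sum_comp e2 (fun τ => s (act τ v))
  have h3 : (Fintype.card (I → Equiv.Perm B) : ℤ) * QQ I B =
      ∑ v, (∑ τ, s (act τ v)) ^ 2 := by
    have h4 : ∑ h : I → Equiv.Perm B, QQ I B = (Fintype.card (I → Equiv.Perm B) : ℤ) * QQ I B := by
      simp
    rw [← h4]
    rw [Finset.sum_congr rfl fun h _ => h2 h]
    rw [Finset.sum_comm]
    refine Finset.sum_congr rfl fun v _ => ?_
    rw [← Finset.sum_mul, sq]
  have h5 : (0 : ℤ) < ∑ v, (∑ τ, s (act τ v)) ^ 2 := by
    have h6 : ∀ v ∈ (univ : Finset (I → B → I)), (0 : ℤ) ≤ (∑ τ, s (act τ v)) ^ 2 :=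
      fun v _ => sq_nonneg _
    refine Finset.sum_pos' h6 ⟨fun r _ => r, mem_univ _, ?_⟩
    have h7 : ∀ τ : I → Equiv.Perm B, s (act τ (fun r _ => r)) = 1 := by
      intro τ
      apply Finset.prod_eq_one
      intro t _
      have h9 : eps (id : I → I) = 1 := by
        have := eps_perm (I := I) 1
        simpa using this
      exact h9
    have h8 : ∑ τ : I → Equiv.Perm B, s (act τ (fun r _ => r)) =
        (Fintype.card (I → Equiv.Perm B) : ℤ) := by
      rw [Finset.sum_congr rfl fun τ _ => h7 τ]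
      simp
    rw [h8]
    have : (0 : ℤ) < (Fintype.card (I → Equiv.Perm B) : ℤ) := by
      exact_mod_cast Fintype.card_pos
    positivity
  rw [← h3] at h5
  exact pos_of_mul_pos_right h5 (by positivity)

theorem exists_DD_ne_zero {K : Type*} [Field K] [CharZero K] (h : Good K I B) :
    ∃ ℓ : B → I → K, DD ℓ ≠ 0 := by
  by_contra hcon
  push Not at hcon
  have h1 : Submodule.span K
      (Set.range fun ℓ : B → I → K => fun Y : Matrix I I K => ∏ s, ∏ r, ∑ k, Y r k * ℓ s k) ≤
      LinearMap.ker (LL K I B) := by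
    rw [Submodule.span_le]
    rintro _ ⟨ℓ, rfl⟩
    simp only [SetLike.mem_coe, LinearMap.mem_ker]
    rw [LL_row]
    exact hcon ℓ
  have h2 := h1 h
  rw [LinearMap.mem_ker, LL_det] at h2
  have h3 : QQ I B = 0 := by exact_mod_cast h2
  exact absurd h3 (QQ_pos).ne'

end multi

end Pool.Agent.helper15.Kumar
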