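import Pool.Agent.helper15.KLink

open Finset Matrix

namespace Pool.Agent.helper15.Kumar

section seq

/-- the integer sequence of fourth moments -/
def fi : ℕ → ℤ
  | 0 => 1
  | 1 => -3
  | (n + 2) => (n + 2) * (n - 2) * fi (n + 1) + 6 * (n + 2) * (n + 1) ^ 2 * fi n

lemma fi_succ_succ (n : ℕ) :
    fi (n + 2) = (n + 2) * (n - 2) * fi (n + 1) + 6 * (n + 2) * (n + 1) ^ 2 * fi n := by
  rw [fi]

lemma ff_one : ff 1 = -3 := by
  have := ff_succ 0
  rw [HH_zero, ff_zero] at this
  simp only [zero_add] at this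
  rw [this]
  norm_num

lemma ff_rec (n : ℕ) :
    ff (n + 2) = (n + 2) * (n - 2) * ff (n + 1) + 6 * (n + 2) * (n + 1) ^ 2 * ff n := by
  have h1 := ff_succ (n + 1)
  have h2 := HH_succ n
  have h3 := ff_succ n
  push_cast at h1 h2 h3 ⊢
  have h4 : 3 * HH n = ff (n + 1) + 6 * (n + 1) * ff n := by linarith
  rw [h1, h2]
  linear_combination (n + 2) * (n + 1) * h4

lemma ff_eq_fi (n : ℕ) : ff n = (fi n : ℚ) := by
  induction n using Nat.strong_induction_on with
  | _ n ih =>
    match n with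
    | 0 => rw [ff_zero]; simp [fi]
    | 1 => rw [ff_one]; simp [fi]
    | n + 2 =>
      rw [ff_rec, fi_succ_succ, ih n (by omega), ih (n + 1) (by omega)]
      push_cast
      ring

lemma fi_inv (n : ℕ) :
    (n + 5) * (n + 10) * fi (n + 1) - (n + 6) * (n + 11) * (n + 1) ^ 2 * fi n =
      36 * (-6) ^ (n + 1) * ((n + 1).factorial : ℤ) := by
  induction n with
  | zero => simp [fi]
  | succ n ih =>
    rw [fi_succ_succ]
    have h1 : ((n + 1 + 1).factorial : ℤ) = (n + 2) * ((n + 1).factorial : ℤ) := by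
      rw [Nat.factorial_succ]
      push_cast
      ring
    rw [h1]
    push_cast
    rw [pow_succ]
    linear_combination (-6 * (n + 2)) * ih

/-- integer value of the first signed count -/
def z1 (n : ℕ) : ℤ := fi (n + 1) + 4 * (n + 1) * fi n

lemma Zz_eq_z1 (n : ℕ) : Zz n = (z1 n : ℚ) := by
  rw [Zz_eq]
  have h3 := ff_succ n
  have h4 : 3 * HH n = ff (n + 1) + 6 * (n + 1) * ff n := by linarith
  rw [h4, ff_eq_fi, ff_eq_fi]
  unfold z1
  push_cast
  ring

lemma z1_not_both {p : ℕ} [hp : Fact p.Prime] (h5 : 5 ≤ p) :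
    ¬ (((z1 (p - 2) : ℤ) : ZMod p) = 0 ∧ ((z1 (p - 3) : ℤ) : ZMod p) = 0) := by
  rintro ⟨ha, hb⟩
  obtain ⟨m, rfl⟩ : ∃ m, p = m + 3 := ⟨p - 3, by omega⟩
  have e2 : m + 3 - 2 = m + 1 := by omega
  have e3 : m + 3 - 3 = m := by omega
  rw [e2] at ha
  rw [e3] at hb
  have hp0 : ((m : ZMod (m + 3)) + 3) = 0 := by
    have := ZMod.natCast_self (m + 3)
    push_cast at this
    exact this
  have hm : (m : ZMod (m + 3)) = -3 := by linear_combination hp0
  have hw : (((m + 2).factorial : ℤ) : ZMod (m + 3)) = -1 := by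
    have := ZMod.wilsons_lemma (m + 3)
    have e4 : m + 3 - 1 = m + 2 := by omega
    rw [e4] at this
    rw [Int.cast_natCast]
    exact this
  have h6 : (6 : ZMod (m + 3)) ≠ 0 := by
    intro h
    have h' : ((6 : ℕ) : ZMod (m + 3)) = 0 := by exact_mod_cast h
    rw [ZMod.natCast_eq_zero_iff] at h'
    have h7 : (m + 3) ∣ 2 * 3 := h'
    rcases (Nat.Prime.dvd_mul hp.out).mp h7 with h | h
    · exact absurd (Nat.le_of_dvd (by norm_num) h) (by omega)
    · exact absurd (Nat.le_of_dvd (by norm_num) h) (by omega)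
  have hpow : ((-6 : ZMod (m + 3))) ^ (m + 2) = 1 := by
    have := ZMod.pow_card_sub_one_eq_one (p := m + 3) (a := -6) (neg_ne_zero.mpr h6)
    have e4 : m + 3 - 1 = m + 2 := by omega
    rw [e4] at this
    exact this
  have hinv := congrArg (Int.cast : ℤ → ZMod (m + 3)) (fi_inv (m + 1))
  have hrec := congrArg (Int.cast : ℤ → ZMod (m + 3)) (fi_succ_succ m)
  have e5 : m + 1 + 1 = m + 2 := rfl
  rw [e5] at hinv
  simp only [Int.cast_sub, Int.cast_mul, Int.cast_add, Int.cast_pow, Int.cast_natCast,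
    Int.cast_ofNat, Int.cast_neg, Nat.cast_add, Nat.cast_one, Int.cast_one] at hinv hrec
  rw [Int.cast_natCast] at hw
  rw [hpow, hw, hm] at hinv
  rw [hm] at hrec
  unfold z1 at ha hb
  have e6 : m + 1 + 1 = m + 2 := rfl
  rw [e6] at ha
  push_cast at ha hb
  rw [hm] at ha hb
  -- ha : F2 - 4 F1 = 0, hb : F1 - 8 F0 = 0
  have h36 : (36 : ZMod (m + 3)) = 0 := by
    have hF1 : (2 : ZMod (m + 3)) * (fi (m + 1) : ZMod (m + 3)) = 0 := by
      linear_combination (-1 : ZMod (m + 3)) * ha + hrec + 3 * hb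
    have h2 : (2 : ZMod (m + 3)) ≠ 0 := by
      intro h
      apply h6
      linear_combination 3 * h
    have hF1' : (fi (m + 1) : ZMod (m + 3)) = 0 := by
      rcases mul_eq_zero.mp hF1 with h | h
      · exact absurd h h2
      · exact h
    rw [hF1'] at ha hinv
    linear_combination hinv - 24 * ha
  have : (6 : ZMod (m + 3)) * 6 = 0 := by linear_combination h36
  rcases mul_eq_zero.mp this with h | h <;> exact h6 h

end seq

end Pool.Agent.helper15.Kumar
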