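import Pool.Agent.helper15.KMoment

open Finset Matrix

namespace Pool.Agent.helper15.Kumar

section EEdef

/-- signed weights of a distribution with moments 1, 0, 1, 0, -3 -/
def wt5 : Fin 5 → ℚ := ![-1/6, 7/6, -1, 7/6, -1/6]
/-- its values -/
def val5 : Fin 5 → ℚ := ![-2, -1, 0, 1, 2]

lemma m0 : ∑ a, wt5 a = 1 := by simp [Fin.sum_univ_succ, wt5]; norm_num
lemma m1 : ∑ a, wt5 a * val5 a = 0 := by simp [Fin.sum_univ_succ, wt5, val5]
lemma m2 : ∑ a, wt5 a * val5 a ^ 2 = 1 := by simp [Fin.sum_univ_succ, wt5, val5]; norm_num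
lemma m4 : ∑ a, wt5 a * val5 a ^ 4 = -3 := by simp [Fin.sum_univ_succ, wt5, val5]; norm_num

variable {J K L : Type*} [Fintype J] [DecidableEq J] [Fintype K] [DecidableEq K] [Fintype L]
  [DecidableEq L]

/-- expectation over one row -/
def E1 (K : Type*) [Fintype K] [DecidableEq K] (Q : (K → ℚ) → ℚ) : ℚ :=
  ∑ r : K → Fin 5, (∏ k, wt5 (r k)) * Q (fun k => val5 (r k))

/-- expectation over a matrix -/
def EE (J K : Type*) [Fintype J] [DecidableEq J] [Fintype K] [DecidableEq K]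
    (P : (J → K → ℚ) → ℚ) : ℚ :=
  ∑ x : J → K → Fin 5, (∏ j, ∏ k, wt5 (x j k)) * P (fun j k => val5 (x j k))

lemma E1_second (c : K → ℚ) : E1 K (fun v => (∑ k, v k * c k) ^ 2) = ∑ k, c k ^ 2 :=
  second_moment m0 m1 m2 c

lemma E1_fourth (c : K → ℚ) :
    E1 K (fun v => (∑ k, v k * c k) ^ 4) = 3 * (∑ k, c k ^ 2) ^ 2 - 6 * ∑ k, c k ^ 4 := by
  have := fourth_moment (K := K) m0 m1 m2 m4 c
  unfold E1
  rw [this]
  ring

lemma E1_mass : E1 K (fun _ => 1) = 1 := by
  unfold E1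
  simp only [mul_one]
  have := (Finset.prod_univ_sum (fun _ : K => (univ : Finset (Fin 5))) (fun _ a => wt5 a)).symm
  rw [Fintype.piFinset_univ] at this
  rw [this]
  simp [m0]

lemma E1_const_mul (c : ℚ) (Q : (K → ℚ) → ℚ) : E1 K (fun v => c * Q v) = c * E1 K Q := by
  unfold E1
  rw [Finset.mul_sum]
  refine Finset.sum_congr rfl fun r _ => ?_
  ring

lemma E1_const (c : ℚ) : E1 K (fun _ => c) = c := by
  have := E1_const_mul (K := K) c (fun _ => 1)
  simp only [mul_one] at this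
  rw [this, E1_mass, mul_one]

lemma EE_const_mul (c : ℚ) (P : (J → K → ℚ) → ℚ) : EE J K (fun M => c * P M) = c * EE J K P := by
  unfold EE
  rw [Finset.mul_sum]
  refine Finset.sum_congr rfl fun r _ => ?_
  ring

lemma EE_add (P Q : (J → K → ℚ) → ℚ) :
    EE J K (fun M => P M + Q M) = EE J K P + EE J K Q := by
  unfold EE
  rw [← Finset.sum_add_distrib]
  refine Finset.sum_congr rfl fun r _ => ?_
  ring

lemma EE_sub (P Q : (J → K → ℚ) → ℚ) :
    EE J K (fun M => P M - Q M) = EE J K P - EE J K Q := by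
  unfold EE
  rw [← Finset.sum_sub_distrib]
  refine Finset.sum_congr rfl fun r _ => ?_
  ring

lemma EE_sum {ι : Type*} (s : Finset ι) (P : ι → (J → K → ℚ) → ℚ) :
    EE J K (fun M => ∑ i ∈ s, P i M) = ∑ i ∈ s, EE J K (P i) := by
  unfold EE
  rw [Finset.sum_comm]
  refine Finset.sum_congr rfl fun r _ => ?_
  rw [Finset.mul_sum]

lemma E1_EE_comm (P : (L → ℚ) → (J → K → ℚ) → ℚ) :
    E1 L (fun v => EE J K (fun M => P v M)) = EE J K (fun M => E1 L (fun v => P v M)) := by
  unfold E1 EE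
  simp only [Finset.mul_sum]
  rw [Finset.sum_comm]
  refine Finset.sum_congr rfl fun x _ => Finset.sum_congr rfl fun r _ => ?_
  ring

lemma EE_transpose (P : (J → K → ℚ) → ℚ) :
    EE J K P = EE K J (fun M => P (fun j k => M k j)) := by
  unfold EE
  rw [← Equiv.sum_comp (Equiv.piComm (fun (_ : K) (_ : J) => Fin 5))]
  refine Finset.sum_congr rfl fun x _ => ?_
  congr 1
  rw [Finset.prod_comm]
  rfl

lemma EE_insertNth {n : ℕ} (i : Fin (n + 1)) (P : (Fin (n + 1) → K → ℚ) → ℚ) :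
    EE (Fin (n + 1)) K P = E1 K (fun v => EE (Fin n) K (fun M =>
      P (Fin.insertNth (α := fun _ => K → ℚ) i v M))) := by
  unfold EE E1
  rw [← Equiv.sum_comp (Fin.insertNthEquiv (fun _ : Fin (n + 1) => K → Fin 5) i),
    Fintype.sum_prod_type]
  refine Finset.sum_congr rfl fun r _ => ?_
  rw [Finset.mul_sum]
  refine Finset.sum_congr rfl fun x _ => ?_
  rw [← mul_assoc]
  congr 1
  · rw [Fin.prod_univ_succAbove _ i]
    simp [Fin.insertNthEquiv]
  · congr 1
    funext j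
    refine Fin.succAboveCases i ?_ (fun j => ?_) j
    · simp [Fin.insertNthEquiv]
    · simp [Fin.insertNthEquiv]

lemma EE_drop_row {n : ℕ} (i : Fin (n + 1)) (P : (Fin n → K → ℚ) → ℚ) :
    EE (Fin (n + 1)) K (fun M => P (fun j => M (i.succAbove j))) = EE (Fin n) K P := by
  rw [EE_insertNth i]
  simp only [Fin.insertNth_apply_succAbove]
  exact E1_const _

lemma EE_drop_col {n : ℕ} (i : Fin (n + 1)) (P : (J → Fin n → ℚ) → ℚ) :
    EE J (Fin (n + 1)) (fun M => P (fun j k => M j (i.succAbove k))) = EE J (Fin n) P := by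
  rw [EE_transpose, EE_transpose P]
  exact EE_drop_row i (fun M => P (fun j k => M k j))

end EEdef

section rec

/-- cofactor-type minors -/
def mnr {n : ℕ} (M : Fin n → Fin (n + 1) → ℚ) (k : Fin (n + 1)) : ℚ :=
  Matrix.det (Matrix.of fun j l => M j (k.succAbove l))

/-- fourth moment of the determinant -/
def ff (n : ℕ) : ℚ := EE (Fin n) (Fin n) (fun M => (Matrix.det (Matrix.of M)) ^ 4)

/-- fourth moment of the norm of the cofactor vector -/
def HH (n : ℕ) : ℚ := EE (Fin n) (Fin (n + 1)) (fun M => (∑ k, mnr M k ^ 2) ^ 2)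

/-- fourth moment of the determinant with one row of ones -/
def Zz (n : ℕ) : ℚ := EE (Fin n) (Fin (n + 1))
  (fun M => (Matrix.det (Matrix.of (Fin.insertNth (α := fun _ => Fin (n + 1) → ℚ) 0
    (fun _ => 1) M))) ^ 4)

lemma ff_zero : ff 0 = 1 := by
  simp [ff, EE]

lemma HH_zero : HH 0 = 1 := by
  simp [HH, EE, mnr]

lemma det_insertNth {n : ℕ} (i : Fin (n + 1)) (v : Fin (n + 1) → ℚ)
    (M : Fin n → Fin (n + 1) → ℚ) :
    Matrix.det (Matrix.of (Fin.insertNth (α := fun _ => Fin (n + 1) → ℚ) i v M)) =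
      ∑ k, v k * ((-1) ^ ((i : ℕ) + k) * mnr M k) := by
  rw [Matrix.det_succ_row _ i]
  refine Finset.sum_congr rfl fun k _ => ?_
  have h1 : (Matrix.of (Fin.insertNth (α := fun _ => Fin (n + 1) → ℚ) i v M)) i k = v k := by
    simp
  have h2 : (Matrix.of (Fin.insertNth (α := fun _ => Fin (n + 1) → ℚ) i v M)).submatrix
      i.succAbove k.succAbove = Matrix.of fun j l => M j (k.succAbove l) := by
    ext a b
    simp
  rw [h1, h2]
  unfold mnr
  ring

lemma pow_sign_sq (a : ℕ) (x : ℚ) : ((-1) ^ a * x) ^ 2 = x ^ 2 := by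
  rw [mul_pow, ← pow_mul, mul_comm a 2, pow_mul]
  simp

lemma pow_sign_four (a : ℕ) (x : ℚ) : ((-1) ^ a * x) ^ 4 = x ^ 4 := by
  have h : (-1 : ℚ) ^ 4 = 1 := by norm_num
  rw [mul_pow, ← pow_mul, mul_comm a 4, pow_mul, h, one_pow, one_mul]

lemma EE_mnr_four {n : ℕ} (k : Fin (n + 1)) :
    EE (Fin n) (Fin (n + 1)) (fun M => mnr M k ^ 4) = ff n :=
  EE_drop_col k (fun M => (Matrix.det (Matrix.of M)) ^ 4)

lemma ff_succ (n : ℕ) : ff (n + 1) = 3 * HH n - 6 * (n + 1) * ff n := by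
  unfold ff
  rw [EE_insertNth 0, E1_EE_comm]
  simp only [det_insertNth, E1_fourth, pow_sign_sq, pow_sign_four]
  rw [EE_sub, EE_const_mul, EE_const_mul, EE_sum]
  rw [Finset.sum_congr rfl fun k _ => EE_mnr_four k]
  simp only [Finset.sum_const, Finset.card_univ, Fintype.card_fin, nsmul_eq_mul]
  unfold HH ff
  push_cast
  ring

lemma EE_mnr_two {n : ℕ} (k : Fin (n + 2)) (m : Fin (n + 1)) :
    EE (Fin (n + 1)) (Fin (n + 2)) (fun M => mnr M k ^ 2 * mnr M (k.succAbove m) ^ 2) = HH n := by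
  rw [EE_transpose, EE_insertNth k]
  have h1 : ∀ v : Fin (n + 1) → ℚ, ∀ M : Fin (n + 1) → Fin (n + 1) → ℚ,
      mnr (fun j l => (Fin.insertNth (α := fun _ => Fin (n + 1) → ℚ) k v M) l j) k =
      Matrix.det (Matrix.of M) := by
    intro v M
    unfold mnr
    rw [← Matrix.det_transpose]
    congr 1
    ext a b
    simp
  have h2 : ∀ v u : Fin (n + 1) → ℚ, ∀ M : Fin n → Fin (n + 1) → ℚ,
      mnr (fun j l => (Fin.insertNth (α := fun _ => Fin (n + 1) → ℚ) k v
        (Fin.insertNth (α := fun _ => Fin (n + 1) → ℚ) m u M)) l j) (k.succAbove m) =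
      Matrix.det (Matrix.of (Fin.insertNth (α := fun _ => Fin (n + 1) → ℚ) (m.predAbove k) v M)) := by
    intro v u M
    unfold mnr
    rw [← Matrix.det_transpose]
    congr 1
    ext a b
    rw [Matrix.transpose_apply, Matrix.of_apply, Matrix.of_apply]
    revert a
    refine Fin.succAboveCases (m.predAbove k) ?_ (fun j => ?_)
    · rw [Fin.succAbove_succAbove_predAbove]
      simp
    · rw [Fin.succAbove_succAbove_succAbove_predAbove]
      simp
  have h3 : ∀ v : Fin (n + 1) → ℚ, EE (Fin (n + 1)) (Fin (n + 1)) (fun M =>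
      mnr (fun j l => (Fin.insertNth (α := fun _ => Fin (n + 1) → ℚ) k v M) l j) k ^ 2 *
      mnr (fun j l => (Fin.insertNth (α := fun _ => Fin (n + 1) → ℚ) k v M) l j)
        (k.succAbove m) ^ 2) =
      EE (Fin n) (Fin (n + 1)) (fun M => (∑ k, mnr M k ^ 2) *
        (Matrix.det (Matrix.of (Fin.insertNth (α := fun _ => Fin (n + 1) → ℚ)
          (m.predAbove k) v M))) ^ 2) := by
    intro v
    rw [EE_insertNth m, E1_EE_comm]
    congr 1
    funext M
    simp only [h1, h2]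
    have h4 : ∀ u : Fin (n + 1) → ℚ,
        (Matrix.det (Matrix.of (Fin.insertNth (α := fun _ => Fin (n + 1) → ℚ) m u M))) ^ 2 *
        (Matrix.det (Matrix.of (Fin.insertNth (α := fun _ => Fin (n + 1) → ℚ)
          (m.predAbove k) v M))) ^ 2 =
        (Matrix.det (Matrix.of (Fin.insertNth (α := fun _ => Fin (n + 1) → ℚ)
          (m.predAbove k) v M))) ^ 2 *
        (∑ l, u l * ((-1) ^ ((m : ℕ) + l) * mnr M l)) ^ 2 := by
      intro u
      rw [det_insertNth m]
      ring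
    simp only [h4]
    rw [E1_const_mul, E1_second]
    simp only [pow_sign_sq]
    ring
  simp only [h3]
  rw [E1_EE_comm]
  unfold HH
  congr 1
  funext M
  rw [E1_const_mul]
  simp only [det_insertNth]
  rw [E1_second]
  simp only [pow_sign_sq]
  ring

lemma HH_succ (n : ℕ) : HH (n + 1) = (n + 2) * ff (n + 1) + (n + 2) * (n + 1) * HH n := by
  unfold HH
  have h1 : ∀ M : Fin (n + 1) → Fin (n + 2) → ℚ, (∑ k, mnr M k ^ 2) ^ 2 =
      ∑ k, (mnr M k ^ 4 + ∑ m : Fin (n + 1), mnr M k ^ 2 * mnr M (k.succAbove m) ^ 2) := by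
    intro M
    rw [sq, Finset.sum_mul]
    refine Finset.sum_congr rfl fun k _ => ?_
    rw [Fin.sum_univ_succAbove (fun k => mnr M k ^ 2) k, mul_add, Finset.mul_sum]
    ring
  simp only [h1]
  rw [EE_sum]
  have h2 : ∀ k : Fin (n + 2), EE (Fin (n + 1)) (Fin (n + 2)) (fun M => mnr M k ^ 4 +
      ∑ m : Fin (n + 1), mnr M k ^ 2 * mnr M (k.succAbove m) ^ 2) =
      ff (n + 1) + (n + 1) * HH n := by
    intro k
    rw [EE_add, EE_mnr_four, EE_sum]
    simp only [EE_mnr_two]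
    simp
  simp only [h2]
  simp only [Finset.sum_const, Finset.card_univ, Fintype.card_fin, nsmul_eq_mul]
  unfold HH
  push_cast
  ring

end rec

end Pool.Agent.helper15.Kumar
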