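import Pool.Agent.helper15.KPhi

open Finset Matrix

namespace Pool.Agent.helper15.Kumar

section Phi

variable {I W : Type*} [Fintype I] [DecidableEq I] [Fintype W] [DecidableEq W]

/-- signed sum over families of permutations of a product over columns -/
def Phi (G : I → (W → I) → ℚ) : ℚ :=
  ∑ σ : W → Equiv.Perm I, (∏ w, ((Equiv.Perm.sign (σ w) : ℤ) : ℚ)) * ∏ j, G j (fun w => σ w j)

lemma Phi_vanish (G : I → (W → I) → ℚ) (w0 : W) (j0 j1 : I) (hne : j0 ≠ j1)
    (h0 : ∀ k x, G j0 (Function.update k w0 x) = G j0 k)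
    (h1 : ∀ k x, G j1 (Function.update k w0 x) = G j1 k) : Phi G = 0 := by
  have key : Phi G = - Phi G := by
    unfold Phi
    conv_lhs => rw [← Equiv.sum_comp (Equiv.mulRight
      (Pi.mulSingle w0 (Equiv.swap j0 j1) : W → Equiv.Perm I))]
    rw [← Finset.sum_neg_distrib]
    refine Finset.sum_congr rfl fun σ _ => ?_
    have e1 : ∏ w, ((Equiv.Perm.sign (((Equiv.mulRight
      (Pi.mulSingle w0 (Equiv.swap j0 j1) : W → Equiv.Perm I)) σ) w) : ℤ) : ℚ) =
      - ∏ w, ((Equiv.Perm.sign (σ w) : ℤ) : ℚ) := by
      have e2 : ∀ w, ((Equiv.Perm.sign (((Equiv.mulRight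
        (Pi.mulSingle w0 (Equiv.swap j0 j1) : W → Equiv.Perm I)) σ) w) : ℤ) : ℚ) =
        ((Equiv.Perm.sign (σ w) : ℤ) : ℚ) * (if w = w0 then -1 else 1) := by
        intro w
        by_cases h : w = w0
        · subst h
          simp [Equiv.Perm.sign_mul, Equiv.Perm.sign_swap hne]
        · simp [h, Equiv.Perm.sign_mul, Pi.mulSingle_eq_of_ne h]
      rw [Finset.prod_congr rfl fun w _ => e2 w, Finset.prod_mul_distrib]
      rw [Finset.prod_ite_eq']
      simp
    have e3 : ∏ j, G j (fun w => ((Equiv.mulRight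
      (Pi.mulSingle w0 (Equiv.swap j0 j1) : W → Equiv.Perm I)) σ) w j) =
      ∏ j, G j (fun w => σ w j) := by
      refine Finset.prod_congr rfl fun j _ => ?_
      have e4 : (fun w => ((Equiv.mulRight
        (Pi.mulSingle w0 (Equiv.swap j0 j1) : W → Equiv.Perm I)) σ) w j) =
        Function.update (fun w => σ w j) w0 (σ w0 (Equiv.swap j0 j1 j)) := by
        funext w
        by_cases h : w = w0
        · subst h
          simp
        · simp [h, Pi.mulSingle_eq_of_ne h]
      rw [e4]
      by_cases hj0 : j = j0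
      · subst hj0
        exact h0 _ _
      · by_cases hj1 : j = j1
        · subst hj1
          exact h1 _ _
        · rw [Equiv.swap_apply_of_ne_of_ne hj0 hj1]
          congr 1
          funext w
          by_cases h : w = w0
          · subst h; simp
          · simp [h]
    rw [e1, e3]
    ring
  linarith

lemma prod_update_col (G : I → (W → I) → ℚ) (a : I) (g : (W → I) → ℚ) (σ : W → Equiv.Perm I) :
    ∏ j, (Function.update G a g) j (fun w => σ w j) =
      g (fun w => σ w a) * ∏ j ∈ univ.erase a, G j (fun w => σ w j) := by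
  rw [← Finset.mul_prod_erase univ _ (mem_univ a)]
  rw [Function.update_self]
  congr 1
  refine Finset.prod_congr rfl fun j hj => ?_
  rw [Function.update_of_ne (Finset.ne_of_mem_erase hj)]

lemma Phi_update_add (G : I → (W → I) → ℚ) (a : I) (g g' : (W → I) → ℚ) :
    Phi (Function.update G a (fun k => g k + g' k)) =
      Phi (Function.update G a g) + Phi (Function.update G a g') := by
  unfold Phi
  simp only [prod_update_col]
  rw [← Finset.sum_add_distrib]
  refine Finset.sum_congr rfl fun σ _ => ?_
  ring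

lemma Phi_update_vanish (G : I → (W → I) → ℚ) (a j1 : I) (hne : a ≠ j1) (w0 : W)
    (h1 : ∀ k x, G j1 (Function.update k w0 x) = G j1 k) (g : (W → I) → ℚ)
    (hg : ∀ k x, g (Function.update k w0 x) = g k) :
    Phi (Function.update G a g) = 0 := by
  refine Phi_vanish _ w0 a j1 hne ?_ ?_
  · intro k x
    rw [Function.update_self]
    exact hg k x
  · intro k x
    rw [Function.update_of_ne hne.symm]
    exact h1 k x

end Phi

section four

variable {I : Type*} [Fintype I] [DecidableEq I]

/-- all four values distinct -/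
def inj4 (k : Fin 4 → I) : ℚ :=
  if k 0 ≠ k 1 ∧ k 0 ≠ k 2 ∧ k 0 ≠ k 3 ∧ k 1 ≠ k 2 ∧ k 1 ≠ k 3 ∧ k 2 ≠ k 3 then 1 else 0

/-- pairs of values distinct -/
def pair4 (k : Fin 4 → I) : ℚ :=
  if k 0 ≠ k 1 ∧ k 2 ≠ k 3 then 1 else 0

/-- the four point function of the random row -/
def gg (k : Fin 4 → I) : ℚ :=
  (if k 0 = k 1 ∧ k 2 = k 3 then 1 else 0) + (if k 0 = k 2 ∧ k 1 = k 3 then 1 else 0) +
      (if k 0 = k 3 ∧ k 1 = k 2 then 1 else 0) +
      (-3 - 3) * (if k 0 = k 1 ∧ k 0 = k 2 ∧ k 0 = k 3 then 1 else 0)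

/-- the pair function -/
def dd (k : Fin 4 → I) : ℚ := if k 0 = k 1 ∧ k 2 = k 3 then 1 else 0

/-- correction terms -/
def h3 (k : Fin 4 → I) : ℚ :=
  1 - (if k 0 = k 1 then 1 else 0) - (if k 0 = k 2 then 1 else 0) - (if k 1 = k 2 then 1 else 0) +
    2 * (if k 0 = k 1 ∧ k 0 = k 2 then 1 else 0)
/-- correction terms -/
def h2 (k : Fin 4 → I) : ℚ :=
  - (if k 0 = k 3 then 1 else 0) - (if k 1 = k 3 then 1 else 0) +
    2 * (if k 0 = k 1 ∧ k 0 = k 3 then 1 else 0)
/-- correction terms -/
def h1 (k : Fin 4 → I) : ℚ :=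
  - (if k 2 = k 3 then 1 else 0) + 2 * (if k 0 = k 2 ∧ k 0 = k 3 then 1 else 0)
/-- correction terms -/
def h0 (k : Fin 4 → I) : ℚ := 2 * (if k 1 = k 2 ∧ k 1 = k 3 then 1 else 0)

/-- correction terms -/
def q3 (k : Fin 4 → I) : ℚ := 1 - (if k 0 = k 1 then 1 else 0)
/-- correction terms -/
def q0 (k : Fin 4 → I) : ℚ := - (if k 2 = k 3 then 1 else 0)

omit [Fintype I] in
lemma inj4_eq (k : Fin 4 → I) : inj4 k = (((gg k + h0 k) + h1 k) + h2 k) + h3 k := by
  unfold inj4 gg h0 h1 h2 h3
  by_cases a : k 0 = k 1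
  · by_cases b : k 0 = k 2
    · by_cases c : k 0 = k 3
      · simp [← a, ← b, ← c] <;> norm_num
      · simp [← a, ← b, c] <;> norm_num
    · by_cases c : k 0 = k 3
      · have b' : ¬ (k 2 = k 0) := fun e => b e.symm
        simp [← a, ← c, b, b'] <;> norm_num
      · by_cases d : k 2 = k 3
        · simp [← a, ← d, b] <;> norm_num
        · simp [← a, b, c, d] <;> norm_num
  · by_cases b : k 0 = k 2
    · by_cases c : k 0 = k 3
      · have a' : ¬ (k 1 = k 0) := fun e => a e.symm
        simp [← b, ← c, a, a'] <;> norm_num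
      · have a' : ¬ (k 1 = k 0) := fun e => a e.symm
        by_cases d : k 1 = k 3
        · simp [← b, a, a', c, ← d] <;> norm_num
        · simp [← b, a, a', c, d] <;> norm_num
    · by_cases c : k 0 = k 3
      · have a' : ¬ (k 1 = k 0) := fun e => a e.symm
        have b' : ¬ (k 2 = k 0) := fun e => b e.symm
        by_cases d : k 1 = k 2
        · simp [← c, ← d, a, a'] <;> norm_num
        · simp [← c, a, a', b, b', d] <;> norm_num
      · by_cases d : k 1 = k 2
        · by_cases e : k 1 = k 3
          · simp [← d, ← e, a] <;> norm_num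
          · simp [← d, a, c, e] <;> norm_num
        · by_cases e : k 1 = k 3
          · have d' : ¬ (k 2 = k 1) := fun e => d e.symm
            simp [← e, a, b, d, d'] <;> norm_num
          · by_cases f : k 2 = k 3
            · simp [← f, a, b, d] <;> norm_num
            · simp [a, b, c, d, e, f] <;> norm_num

omit [Fintype I] in
lemma pair4_eq (k : Fin 4 → I) : pair4 k = (dd k + q0 k) + q3 k := by
  unfold pair4 dd q0 q3
  by_cases a : k 0 = k 1 <;> by_cases b : k 2 = k 3 <;> simp [a, b]

lemma Phi_inj4 (G : I → (Fin 4 → I) → ℚ) (a j1 : I) (hne : a ≠ j1)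
    (hG : ∀ w k x, G j1 (Function.update k w x) = G j1 k) :
    Phi (Function.update G a inj4) = Phi (Function.update G a gg) := by
  have e : (inj4 : (Fin 4 → I) → ℚ) = fun k => (((gg k + h0 k) + h1 k) + h2 k) + h3 k :=
    funext inj4_eq
  rw [e, Phi_update_add, Phi_update_add, Phi_update_add, Phi_update_add]
  rw [Phi_update_vanish G a j1 hne 0 (hG 0) h0 (fun k x => by simp [h0]),
    Phi_update_vanish G a j1 hne 1 (hG 1) h1 (fun k x => by simp [h1]),
    Phi_update_vanish G a j1 hne 2 (hG 2) h2 (fun k x => by simp [h2]),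
    Phi_update_vanish G a j1 hne 3 (hG 3) h3 (fun k x => by simp [h3])]
  ring

lemma Phi_pair4 (G : I → (Fin 4 → I) → ℚ) (a j1 : I) (hne : a ≠ j1)
    (hG : ∀ w k x, G j1 (Function.update k w x) = G j1 k) :
    Phi (Function.update G a pair4) = Phi (Function.update G a dd) := by
  have e : (pair4 : (Fin 4 → I) → ℚ) = fun k => (dd k + q0 k) + q3 k :=
    funext pair4_eq
  rw [e, Phi_update_add, Phi_update_add]
  rw [Phi_update_vanish G a j1 hne 0 (hG 0) q0 (fun k x => by simp [q0]),
    Phi_update_vanish G a j1 hne 3 (hG 3) q3 (fun k x => by simp [q3])]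
  ring

/-- replacing all `inj4` by `gg` -/
lemma Phi_replace (s : Finset I) (G : I → (Fin 4 → I) → ℚ) (j1 : I) (hs : j1 ∉ s)
    (hG : ∀ w k x, G j1 (Function.update k w x) = G j1 k) :
    Phi (fun j => if j ∈ s then inj4 else G j) = Phi (fun j => if j ∈ s then gg else G j) := by
  classical
  induction s using Finset.induction_on generalizing G with
  | empty => simp
  | insert a s ha ih =>
    have hne : a ≠ j1 := by
      rintro rfl
      exact hs (Finset.mem_insert_self _ _)
    have hs' : j1 ∉ s := fun h => hs (Finset.mem_insert_of_mem h)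
    have e1 : (fun j => if j ∈ insert a s then (inj4 : (Fin 4 → I) → ℚ) else G j) =
        Function.update (fun j => if j ∈ s then inj4 else G j) a inj4 := by
      funext j
      by_cases h : j = a
      · subst h; simp
      · simp [h, Finset.mem_insert]
    have e2 : Function.update (fun j => if j ∈ s then inj4 else G j) a gg =
        fun j => if j ∈ s then (inj4 : (Fin 4 → I) → ℚ) else Function.update G a gg j := by
      funext j
      by_cases h : j = a
      · subst h; simp [ha]
      · simp [h]
    have e3 : (fun j => if j ∈ s then gg else Function.update G a gg j) =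
        fun j => if j ∈ insert a s then (gg : (Fin 4 → I) → ℚ) else G j := by
      funext j
      by_cases h : j = a
      · subst h; simp [ha]
      · simp [h, Finset.mem_insert]
    rw [e1, Phi_inj4 _ a j1 hne, e2, ih (Function.update G a gg) hs', e3]
    · intro w k x
      rw [Function.update_of_ne hne.symm]
      exact hG w k x
    · intro w k x
      simp only [hs', if_false]
      exact hG w k x

end four

end Pool.Agent.helper15.Kumar
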