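import Pool.Agent.helper15.KFour

open Finset Matrix

namespace Pool.Agent.helper15.Kumar

section Two

variable {I : Type*} [Fintype I] [DecidableEq I]

/-- distinct pair -/
def ne2 (k : Fin 2 → I) : ℚ := if k 0 ≠ k 1 then 1 else 0
/-- minus equal pair -/
def eq2 (k : Fin 2 → I) : ℚ := - (if k 0 = k 1 then 1 else 0)

lemma Phi_ne2 (G : I → (Fin 2 → I) → ℚ) (a j1 : I) (hne : a ≠ j1)
    (hG : ∀ w k x, G j1 (Function.update k w x) = G j1 k) :
    Phi (Function.update G a ne2) = Phi (Function.update G a eq2) := by
  have e : (ne2 : (Fin 2 → I) → ℚ) = fun k => eq2 k + (fun _ => 1 : (Fin 2 → I) → ℚ) k := by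
    funext k
    unfold ne2 eq2
    by_cases h : k 0 = k 1 <;> simp [h]
  rw [e, Phi_update_add]
  rw [Phi_update_vanish G a j1 hne 0 (hG 0) (fun _ => 1) (fun k x => rfl)]
  ring

lemma Phi_replace2 (s : Finset I) (G : I → (Fin 2 → I) → ℚ) (j1 : I) (hs : j1 ∉ s)
    (hG : ∀ w k x, G j1 (Function.update k w x) = G j1 k) :
    Phi (fun j => if j ∈ s then ne2 else G j) = Phi (fun j => if j ∈ s then eq2 else G j) := by
  classical
  induction s using Finset.induction_on generalizing G with
  | empty => simp
  | insert a s ha ih =>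
    have hne : a ≠ j1 := by
      rintro rfl
      exact hs (Finset.mem_insert_self _ _)
    have hs' : j1 ∉ s := fun h => hs (Finset.mem_insert_of_mem h)
    have e1 : (fun j => if j ∈ insert a s then (ne2 : (Fin 2 → I) → ℚ) else G j) =
        Function.update (fun j => if j ∈ s then ne2 else G j) a ne2 := by
      funext j
      by_cases h : j = a
      · subst h; simp
      · simp [h, Finset.mem_insert]
    have e2 : Function.update (fun j => if j ∈ s then ne2 else G j) a eq2 =
        fun j => if j ∈ s then (ne2 : (Fin 2 → I) → ℚ) else Function.update G a eq2 j := by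
      funext j
      by_cases h : j = a
      · subst h; simp [ha]
      · simp [h]
    have e3 : (fun j => if j ∈ s then eq2 else Function.update G a eq2 j) =
        fun j => if j ∈ insert a s then (eq2 : (Fin 2 → I) → ℚ) else G j := by
      funext j
      by_cases h : j = a
      · subst h; simp [ha]
      · simp [h, Finset.mem_insert]
    rw [e1, Phi_ne2 _ a j1 hne, e2, ih (Function.update G a eq2) hs', e3]
    · intro w k x
      rw [Function.update_of_ne hne.symm]
      exact hG w k x
    · intro w k x
      simp only [hs', if_false]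
      exact hG w k x

lemma SC_two (n : ℕ) : SC (mu1 (Fin 2) n) = (-1) ^ (n + 1) * ((n + 2).factorial : ℤ) := by
  have key : ((SC (mu1 (Fin 2) n) : ℤ) : ℚ) = (-1) ^ (n + 1) * ((n + 2).factorial : ℚ) := by
    have e0 : ((SC (mu1 (Fin 2) n) : ℤ) : ℚ) =
        Phi (fun j => if j ∈ (univ.erase (0 : Fin (n + 2))) then ne2 else (fun _ => 1)) := by
      unfold SC Phi
      push_cast
      refine Finset.sum_congr rfl fun σ _ => ?_
      congr 1
      have e : ∀ j : Fin (n + 2), (if j ∈ (univ.erase (0 : Fin (n + 2))) then ne2 else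
          (fun _ => (1 : ℚ))) (fun w => σ w j) =
          if (j ≠ 0 → σ 0 j ≠ σ 1 j) then 1 else 0 := by
        intro j
        by_cases hj : j = 0
        · simp [hj]
        · simp [hj, ne2]
      rw [Finset.prod_congr rfl fun j _ => e j]
      by_cases hc : ∀ w w' (j : Fin (n + 2)), w ≠ w' → mu1 (Fin 2) n w j = mu1 (Fin 2) n w' j →
          σ w j ≠ σ w' j
      · rw [if_pos hc]
        symm
        apply Finset.prod_eq_one
        intro j _
        rw [if_pos]
        intro hj
        exact hc 0 1 j (by decide) (by simp [mu1, hj])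
      · rw [if_neg hc]
        push Not at hc
        obtain ⟨w, w', j, hne, hm, hs⟩ := hc
        symm
        apply Finset.prod_eq_zero (mem_univ j)
        rw [if_neg]
        intro h
        have hj : j ≠ 0 := by
          rintro rfl
          simp only [mu1, if_true] at hm
          exact hne (Sum.inl_injective hm)
        fin_cases w <;> fin_cases w'
        · exact hne rfl
        · exact h hj hs
        · exact h hj hs.symm
        · exact hne rfl
    rw [e0, Phi_replace2 (univ.erase (0 : Fin (n + 2))) (fun _ _ => 1) 0 (by simp)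
      (fun _ _ _ => rfl)]
    unfold Phi
    have e1 : ∀ σ : Fin 2 → Equiv.Perm (Fin (n + 2)),
        (∏ w, ((Equiv.Perm.sign (σ w) : ℤ) : ℚ)) *
        ∏ j, (if j ∈ (univ.erase (0 : Fin (n + 2))) then eq2 else (fun _ => 1))
          (fun w => σ w j) = if σ 0 = σ 1 then (-1) ^ (n + 1) else 0 := by
      intro σ
      rw [Fin.prod_univ_succ (fun j => (if j ∈ (univ.erase (0 : Fin (n + 2))) then eq2 else
        (fun _ => 1)) (fun w => σ w j))]
      have e2 : ∀ j : Fin (n + 1), (if j.succ ∈ (univ.erase (0 : Fin (n + 2))) then eq2 else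
          (fun _ => 1)) (fun w => σ w j.succ) =
          (-1) * (if σ 0 j.succ = σ 1 j.succ then 1 else 0) := by
        intro j
        have hm : j.succ ∈ (univ.erase (0 : Fin (n + 2))) := by simp
        rw [if_pos hm]
        unfold eq2
        ring
      rw [Finset.prod_congr rfl fun j _ => e2 j, Finset.prod_mul_distrib]
      by_cases h : σ 0 = σ 1
      · rw [if_pos h]
        have e3 : ∏ j : Fin (n + 1), (if σ 0 j.succ = σ 1 j.succ then (1 : ℚ) else 0) = 1 := by
          apply Finset.prod_eq_one
          intro j _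
          rw [h, if_pos rfl]
        rw [e3, Fin.prod_univ_two, h]
        have e4 : ((Equiv.Perm.sign (σ 1) : ℤ) : ℚ) * ((Equiv.Perm.sign (σ 1) : ℤ) : ℚ) = 1 := by
          have := Int.units_mul_self (Equiv.Perm.sign (σ 1))
          rw [← Int.cast_mul, ← Units.val_mul, this]
          simp
        rw [e4]
        simp
      · rw [if_neg h]
        have hex : ∃ j : Fin (n + 1), σ 0 j.succ ≠ σ 1 j.succ := by
          by_contra hcon
          push Not at hcon
          apply h
          -- agree off zero, so agree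
          have hpi : ∀ j : Fin (n + 1), ((σ 1)⁻¹ * σ 0) j.succ = j.succ := by
            intro j
            rw [Equiv.Perm.mul_apply, hcon j]
            simp
          have h00 : ((σ 1)⁻¹ * σ 0) 0 = 0 := by
            by_contra h0
            obtain ⟨j, hj⟩ := Fin.exists_succ_eq.mpr h0
            have := hpi j
            rw [hj] at this
            have h5 := ((σ 1)⁻¹ * σ 0).injective this
            exact h0 h5
          have : (σ 1)⁻¹ * σ 0 = 1 := by
            ext x
            refine Fin.cases ?_ (fun j => ?_) x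
            · rw [h00]; rfl
            · rw [hpi j]; rfl
          exact (inv_mul_eq_one.mp this).symm
        obtain ⟨j, hj⟩ := hex
        have e3 : ∏ j : Fin (n + 1), (if σ 0 j.succ = σ 1 j.succ then (1 : ℚ) else 0) = 0 := by
          apply Finset.prod_eq_zero (mem_univ j)
          rw [if_neg hj]
        rw [e3]
        simp
    rw [Finset.sum_congr rfl fun σ _ => e1 σ]
    rw [← Equiv.sum_comp (finTwoArrowEquiv (Equiv.Perm (Fin (n + 2)))).symm, Fintype.sum_prod_type]
    simp only [finTwoArrowEquiv_symm_apply, Matrix.cons_val_zero, Matrix.cons_val_one]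
    simp only [Finset.sum_ite_eq, Finset.mem_univ, if_true, Finset.sum_const, Finset.card_univ,
      Fintype.card_perm, Fintype.card_fin, nsmul_eq_mul]
    ring
  exact_mod_cast key

theorem good_two {K : Type*} [Field K] [CharZero K] {p : ℕ} [hp : Fact p.Prime] (h3 : 3 ≤ p) :
    Good K (Fin (p - 1)) (Fin 2 ⊕ Fin (p - 1)) := by
  obtain ⟨n, hn⟩ : ∃ n, p = n + 3 := ⟨p - 3, by omega⟩
  have e1 : p - 1 = n + 2 := by omega
  rw [e1]
  have hC : Fintype.card (Fin (n + 2)) = p - 1 := by simp [e1]
  have hI : Fintype.card (Fin (n + 2)) < p := by simp; omega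
  have hle : 2 ≤ n + 1 + 1 := by omega
  refine good_of_signed (p := p) hC hI (shiftPerm 2 (n + 1) hle)
      (shiftPerm_inj 2 (n + 1) hle) (mu1 (Fin 2) n) (mu1_col (Fin 2) n) ?_
  intro h0
  have h0' : ((SC (mu1 (Fin 2) n) : ℤ) : ZMod p) = 0 := h0
  rw [SC_two] at h0'
  have hw : (((n + 2).factorial : ℕ) : ZMod p) = -1 := by
    have := ZMod.wilsons_lemma p
    rw [e1] at this
    exact this
  push_cast at h0'
  rw [hw] at h0'
  have : ((-1 : ZMod p)) ^ (n + 1) ≠ 0 := pow_ne_zero _ (neg_ne_zero.mpr one_ne_zero)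
  rcases mul_eq_zero.mp h0' with h | h
  · exact this h
  · exact (neg_ne_zero.mpr one_ne_zero) h

theorem good_zero {K : Type*} [Field K] [CharZero K] {p : ℕ} [hp : Fact p.Prime] :
    Good K (Fin (p - 1)) (Fin (p - 1)) := by
  have h1 : Good K (Fin (p - 1)) (Fin 0 ⊕ Fin (p - 1)) := by
    refine good_of_signed (p := p) (by simp) (by simp [hp.out.pos]) (fun w => w.elim0)
      (fun j => fun w => w.elim0) (fun w => w.elim0) (fun w => w.elim0) ?_
    intro h
    simp at h
  exact h1.congr (Equiv.refl _) (Equiv.emptySum _ _)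

end Two

section GoodN

/-- The numerical form of `Good`. -/
def GoodN (n i : ℕ) : Prop := Good ℂ (Fin i) (Fin n)

lemma GoodN.mono {n i i' : ℕ} (h : GoodN n i) (hi : i' ≤ i) : GoodN n i' := by
  obtain ⟨d, rfl⟩ := Nat.exists_eq_add_of_le hi
  have h1 : Good ℂ (Fin i' ⊕ Fin d) (Fin n) := Good.congr finSumFinEquiv.symm (Equiv.refl _) h
  exact h1.of_sum_left

lemma GoodN.add {n m i : ℕ} (h : GoodN n i) (h' : GoodN m i) : GoodN (n + m) i := by
  have h1 := Good.sum (B := Fin n) (B' := Fin m) h h'
  exact h1.congr (Equiv.refl _) finSumFinEquiv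

lemma goodN_pred {p : ℕ} (hp : p.Prime) : GoodN (p - 1) (p - 1) := by
  haveI : Fact p.Prime := ⟨hp⟩
  exact good_zero

lemma goodN_succ {p : ℕ} (hp : p.Prime) (h3 : 3 ≤ p) : GoodN (p + 1) (p - 1) := by
  haveI : Fact p.Prime := ⟨hp⟩
  have h := (good_two (K := ℂ) (p := p) h3).congr (Equiv.refl _) finSumFinEquiv
  have e : 2 + (p - 1) = p + 1 := by omega
  rw [e] at h
  exact h

lemma goodN_add_three {p : ℕ} (hp : p.Prime) (h5 : 5 ≤ p) : GoodN (p + 3) (p - 1) := by
  haveI : Fact p.Prime := ⟨hp⟩
  have h := (good_four (K := ℂ) (p := p) h5).congr (Equiv.refl _) finSumFinEquiv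
  have e : 4 + (p - 1) = p + 3 := by omega
  rw [e] at h
  exact h

end GoodN

end Pool.Agent.helper15.Kumar
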