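import Mathlib

open Finset

namespace Pool.Agent.helper15.NT

section periodic

/-- sum over a product range for coprime periods -/
lemma crt2 {a b : ℕ} (ha : 0 < a) (hb : 0 < b) (hab : Nat.Coprime a b) (f g : ℕ → ℝ)
    (hf : Function.Periodic f a) (hg : Function.Periodic g b) :
    ∑ n ∈ range (a * b), f n * g n = (∑ n ∈ range a, f n) * ∑ n ∈ range b, g n := by
  rw [Finset.sum_mul_sum, ← Finset.sum_product']
  refine Finset.sum_nbij (fun n => (n % a, n % b)) ?_ ?_ ?_ ?_
  · intro n _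
    simp only [Finset.mem_product, Finset.mem_range]
    exact ⟨Nat.mod_lt _ ha, Nat.mod_lt _ hb⟩
  · intro n hn m hm h
    simp only [Finset.coe_range, Set.mem_Iio] at hn hm
    simp only [Prod.mk.injEq] at h
    have h1 : n ≡ m [MOD a * b] := (Nat.modEq_and_modEq_iff_modEq_mul hab).mp ⟨h.1, h.2⟩
    exact Nat.ModEq.eq_of_lt_of_lt h1 hn hm
  · rintro ⟨u, v⟩ huv
    simp only [Finset.coe_product, Finset.coe_range, Set.mem_prod, Set.mem_Iio] at huv
    obtain ⟨k, hk1, hk2⟩ := Nat.chineseRemainder hab u v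
    refine ⟨k % (a * b), ?_, ?_⟩
    · simp only [Finset.coe_range, Set.mem_Iio]
      exact Nat.mod_lt _ (Nat.mul_pos ha hb)
    · simp only [Prod.mk.injEq]
      constructor
      · rw [Nat.mod_mul_right_mod]
        have : k % a = u % a := hk1
        rw [this, Nat.mod_eq_of_lt huv.1]
      · rw [Nat.mod_mul_left_mod]
        have : k % b = v % b := hk2
        rw [this, Nat.mod_eq_of_lt huv.2]
  · intro n _
    rw [hf.map_mod_nat, hg.map_mod_nat]

lemma sum_range_mul_periodic {L : ℕ} (F : ℕ → ℝ) (hF : Function.Periodic F L) (k : ℕ) :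
    ∑ n ∈ range (L * k), F n = k * ∑ n ∈ range L, F n := by
  induction k with
  | zero => simp
  | succ k ih =>
    rw [Nat.mul_succ, Finset.sum_range_add, ih]
    have h1 : ∀ j, F (L * k + j) = F j := by
      intro j
      rw [add_comm, mul_comm]
      exact hF.nat_mul k j
    rw [Finset.sum_congr rfl fun j _ => h1 j]
    push_cast
    ring

lemma abs_sum_range_periodic {L : ℕ} (hL : 0 < L) (F : ℕ → ℝ) (hF : Function.Periodic F L)
    (N : ℕ) (hzero : ∑ n ∈ range L, F n = 0) (B : ℝ) (hB : ∀ n, |F n| ≤ B) :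
    |∑ n ∈ range N, F n| ≤ L * B := by
  have h1 : ∑ n ∈ range N, F n = ∑ j ∈ range (N % L), F j := by
    conv_lhs => rw [← Nat.div_add_mod N L]
    rw [Finset.sum_range_add, sum_range_mul_periodic F hF, hzero, mul_zero, zero_add]
    refine Finset.sum_congr rfl fun j _ => ?_
    rw [add_comm, mul_comm]
    exact hF.nat_mul _ j
  rw [h1]
  have hB0 : 0 ≤ B := (abs_nonneg _).trans (hB 0)
  calc |∑ j ∈ range (N % L), F j| ≤ ∑ j ∈ range (N % L), |F j| := Finset.abs_sum_le_sum_abs _ _
    _ ≤ ∑ j ∈ range (N % L), B := Finset.sum_le_sum fun j _ => hB j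
    _ = (N % L : ℕ) * B := by rw [Finset.sum_const, Finset.card_range, nsmul_eq_mul]
    _ ≤ L * B := by
      apply mul_le_mul_of_nonneg_right _ hB0
      exact_mod_cast (Nat.mod_lt N hL).le

lemma sum_range_periodic_le {L : ℕ} (hL : 0 < L) (F : ℕ → ℝ) (hF : Function.Periodic F L)
    (N : ℕ) (M : ℝ) (hM : ∑ n ∈ range L, F n = L * M) (hM0 : 0 ≤ M) (B : ℝ)
    (hB : ∀ n, |F n| ≤ B) :
    ∑ n ∈ range N, F n ≤ N * M + L * B := by
  have hB0 : 0 ≤ B := (abs_nonneg _).trans (hB 0)
  have h1 : ∑ n ∈ range N, F n = (N / L : ℕ) * (L * M) + ∑ j ∈ range (N % L), F j := by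
    conv_lhs => rw [← Nat.div_add_mod N L]
    rw [Finset.sum_range_add, sum_range_mul_periodic F hF, hM]
    congr 1
    refine Finset.sum_congr rfl fun j _ => ?_
    rw [add_comm, mul_comm]
    exact hF.nat_mul _ j
  have h2 : ∑ j ∈ range (N % L), F j ≤ L * B := by
    calc ∑ j ∈ range (N % L), F j ≤ ∑ j ∈ range (N % L), B :=
          Finset.sum_le_sum fun j _ => (le_abs_self _).trans (hB j)
      _ = (N % L : ℕ) * B := by rw [Finset.sum_const, Finset.card_range, nsmul_eq_mul]
      _ ≤ L * B := by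
        apply mul_le_mul_of_nonneg_right _ hB0
        exact_mod_cast (Nat.mod_lt N hL).le
  have h3 : ((N / L : ℕ) : ℝ) * (L * M) ≤ N * M := by
    rw [← mul_assoc]
    apply mul_le_mul_of_nonneg_right _ hM0
    exact_mod_cast Nat.div_mul_le_self N L
  rw [h1]
  linarith

/-- product version over a set of primes -/
lemma crt_prod (S : Finset ℕ) (hS : ∀ p ∈ S, p.Prime) (f : ℕ → ℕ → ℝ)
    (hf : ∀ p ∈ S, Function.Periodic (f p) p) :
    ∑ n ∈ range (∏ p ∈ S, p), ∏ p ∈ S, f p n = ∏ p ∈ S, ∑ u ∈ range p, f p u := by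
  induction S using Finset.induction_on with
  | empty => simp
  | insert p S hp ih =>
    have hpp : p.Prime := hS p (Finset.mem_insert_self _ _)
    have hS' : ∀ q ∈ S, q.Prime := fun q hq => hS q (Finset.mem_insert_of_mem hq)
    have hf' : ∀ q ∈ S, Function.Periodic (f q) q := fun q hq => hf q (Finset.mem_insert_of_mem hq)
    rw [Finset.prod_insert hp, Finset.prod_insert hp, ← ih hS' hf']
    have hcop : Nat.Coprime p (∏ q ∈ S, q) := by
      apply Nat.Coprime.prod_right
      intro q hq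
      exact (Nat.coprime_primes hpp (hS' q hq)).mpr (fun h => hp (h ▸ hq))
    have hpos : 0 < ∏ q ∈ S, q := Finset.prod_pos fun q hq => (hS' q hq).pos
    rw [← crt2 hpp.pos hpos hcop (f p) (fun n => ∏ q ∈ S, f q n) (hf p (Finset.mem_insert_self _ _))]
    · refine Finset.sum_congr rfl fun n _ => ?_
      rw [Finset.prod_insert hp]
    · intro n
      refine Finset.prod_congr rfl fun q hq => ?_
      obtain ⟨c, hc⟩ := Finset.dvd_prod_of_mem (fun q => q) hq
      rw [hc, mul_comm]
      exact (hf' q hq).nat_mul c n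

lemma periodic_prod (S : Finset ℕ) (f : ℕ → ℕ → ℝ)
    (hf : ∀ p ∈ S, Function.Periodic (f p) p) :
    Function.Periodic (fun n => ∏ p ∈ S, f p n) (∏ p ∈ S, p) := by
  intro n
  refine Finset.prod_congr rfl fun q hq => ?_
  obtain ⟨c, hc⟩ := Finset.dvd_prod_of_mem (fun q => q) hq
  rw [hc, mul_comm]
  exact (hf q hq).nat_mul c n

end periodic

end Pool.Agent.helper15.NT
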