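import Pool.Agent.helper15.NTa

open Finset

namespace Pool.Agent.helper15.NT

section sieve

/-- the local factor -/
noncomputable def gp (m p n : ℕ) : ℝ :=
  if n % p = 0 ∨ n % p = m % p then -(((p : ℝ) - 2) / 2) else 1

lemma gp_periodic (m p : ℕ) : Function.Periodic (gp m p) p := by
  intro n
  unfold gp
  rw [Nat.add_mod_right]

/-- admissible primes -/
def Adm (m p : ℕ) : Prop := p.Prime ∧ 3 ≤ p ∧ ¬ p ∣ m

lemma gp_eq {m p : ℕ} (h : Adm m p) {u : ℕ} (hu : u ∈ range p) (a b : ℝ) :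
    (if u % p = 0 ∨ u % p = m % p then a else b) =
      b + (if u = 0 then a - b else 0) + (if u = m % p then a - b else 0) := by
  have hlt : u < p := Finset.mem_range.mp hu
  rw [Nat.mod_eq_of_lt hlt]
  have hm : m % p ≠ 0 := fun h' => h.2.2 (Nat.dvd_of_mod_eq_zero h')
  by_cases h0 : u = 0
  · subst h0
    rw [if_pos (Or.inl rfl), if_pos rfl, if_neg (fun e => hm e.symm)]
    ring
  · by_cases h1 : u = m % p
    · rw [if_pos (Or.inr h1), if_neg h0, if_pos h1]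
      ring
    · rw [if_neg (by tauto), if_neg h0, if_neg h1]
      ring

lemma sum_gen {m p : ℕ} (h : Adm m p) (a b : ℝ) :
    ∑ u ∈ range p, (if u % p = 0 ∨ u % p = m % p then a else b) = p * b + 2 * (a - b) := by
  rw [Finset.sum_congr rfl fun u hu => gp_eq h hu a b]
  rw [Finset.sum_add_distrib, Finset.sum_add_distrib, Finset.sum_ite_eq', Finset.sum_ite_eq']
  rw [if_pos (Finset.mem_range.mpr h.1.pos), if_pos (Finset.mem_range.mpr (Nat.mod_lt _ h.1.pos))]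
  rw [Finset.sum_const, Finset.card_range, nsmul_eq_mul]
  ring

lemma sum_gp {m p : ℕ} (h : Adm m p) : ∑ u ∈ range p, gp m p u = 0 := by
  unfold gp
  rw [sum_gen h]
  ring

lemma sum_gp_sq {m p : ℕ} (h : Adm m p) :
    ∑ u ∈ range p, gp m p u * gp m p u = p * (((p : ℝ) - 2) / 2) := by
  have h1 : ∀ u, gp m p u * gp m p u =
      if u % p = 0 ∨ u % p = m % p then (((p : ℝ) - 2) / 2) ^ 2 else 1 := by
    intro u
    unfold gp
    split_ifs <;> ring
  simp only [h1]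
  rw [sum_gen h]
  ring

lemma abs_gp_le {m p : ℕ} (hp : 3 ≤ p) (n : ℕ) : |gp m p n| ≤ p := by
  have h3 : (3 : ℝ) ≤ p := by exact_mod_cast hp
  unfold gp
  split_ifs
  · rw [abs_le]; constructor <;> linarith
  · rw [abs_one]; linarith

/-- product over a set of primes -/
noncomputable def gS (m : ℕ) (S : Finset ℕ) (n : ℕ) : ℝ := ∏ p ∈ S, gp m p n

/-- weights -/
noncomputable def hS (S : Finset ℕ) : ℝ := ∏ p ∈ S, (2 / ((p : ℝ) - 2))

/-- product -/
def qS (S : Finset ℕ) : ℕ := ∏ p ∈ S, p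

lemma abs_gS_le {m : ℕ} {S : Finset ℕ} (hS : ∀ p ∈ S, Adm m p) (n : ℕ) :
    |gS m S n| ≤ qS S := by
  unfold gS qS
  rw [Finset.abs_prod]
  push_cast
  exact Finset.prod_le_prod (fun p _ => abs_nonneg _) (fun p hp => abs_gp_le (hS p hp).2.1 n)

lemma hS_pos {m : ℕ} {S : Finset ℕ} (h : ∀ p ∈ S, Adm m p) : 0 < hS S := by
  unfold hS
  apply Finset.prod_pos
  intro p hp
  have h3 : (3 : ℝ) ≤ p := by exact_mod_cast (h p hp).2.1
  apply div_pos (by norm_num)
  linarith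

lemma qS_pos {m : ℕ} {S : Finset ℕ} (h : ∀ p ∈ S, Adm m p) : 0 < qS S :=
  Finset.prod_pos fun p hp => (h p hp).1.pos

lemma gS_mul {m : ℕ} (S S' : Finset ℕ) (n : ℕ) :
    gS m S n * gS m S' n = ∏ p ∈ S ∪ S',
      ((if p ∈ S then gp m p n else 1) * (if p ∈ S' then gp m p n else 1)) := by
  unfold gS
  rw [Finset.prod_mul_distrib, Finset.prod_ite_mem, Finset.prod_ite_mem]
  rw [Finset.union_inter_cancel_left, Finset.union_inter_cancel_right]

lemma offdiag {m : ℕ} {S S' : Finset ℕ} (h : ∀ p ∈ S, Adm m p) (h' : ∀ p ∈ S', Adm m p)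
    (hne : S ≠ S') {Q : ℕ} (hQ : qS S ≤ Q) (hQ' : qS S' ≤ Q) (N : ℕ) :
    |∑ n ∈ range N, gS m S n * gS m S' n| ≤ (Q : ℝ) ^ 4 := by
  have hU : ∀ p ∈ S ∪ S', Adm m p := by
    intro p hp
    rcases Finset.mem_union.mp hp with hp | hp
    · exact h p hp
    · exact h' p hp
  set f : ℕ → ℕ → ℝ := fun p n =>
    ((if p ∈ S then gp m p n else 1) * (if p ∈ S' then gp m p n else 1)) with hf
  have hper : ∀ p ∈ S ∪ S', Function.Periodic (f p) p := by
    intro p _ n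
    simp only [hf]
    rw [gp_periodic m p n]
  have hFper : Function.Periodic (fun n => gS m S n * gS m S' n) (∏ p ∈ S ∪ S', p) := by
    have := periodic_prod (S ∪ S') f hper
    intro n
    have := this n
    simp only [hf] at this
    rw [← gS_mul, ← gS_mul] at this
    exact this
  have hzero : ∑ n ∈ range (∏ p ∈ S ∪ S', p), gS m S n * gS m S' n = 0 := by
    have h1 := crt_prod (S ∪ S') (fun p hp => (hU p hp).1) f hper
    have h2 : ∑ n ∈ range (∏ p ∈ S ∪ S', p), gS m S n * gS m S' n =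
        ∑ n ∈ range (∏ p ∈ S ∪ S', p), ∏ p ∈ S ∪ S', f p n :=
      Finset.sum_congr rfl fun n _ => gS_mul S S' n
    rw [h2, h1]
    -- find a prime in exactly one
    have hex : ∃ p ∈ S ∪ S', (p ∈ S ∧ p ∉ S') ∨ (p ∉ S ∧ p ∈ S') := by
      by_contra hcon
      push Not at hcon
      apply hne
      ext p
      constructor
      · intro hp
        exact (hcon p (Finset.mem_union_left _ hp)).1 hp
      · intro hp
        by_contra hp'
        exact (hcon p (Finset.mem_union_right _ hp)).2 hp' hp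
    obtain ⟨p, hpU, hp⟩ := hex
    apply Finset.prod_eq_zero hpU
    rcases hp with ⟨ha, hb⟩ | ⟨ha, hb⟩
    · simp only [hf, ha, hb, if_true, if_false, mul_one]
      exact sum_gp (hU p hpU)
    · simp only [hf, ha, hb, if_true, if_false, one_mul]
      exact sum_gp (hU p hpU)
  have hUpos : 0 < ∏ p ∈ S ∪ S', p := Finset.prod_pos fun p hp => (hU p hp).1.pos
  have hB : ∀ n, |gS m S n * gS m S' n| ≤ (Q : ℝ) ^ 2 := by
    intro n
    rw [abs_mul, sq]
    have a1 := (abs_gS_le h n).trans (by exact_mod_cast hQ : (qS S : ℝ) ≤ Q)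
    have a2 := (abs_gS_le h' n).trans (by exact_mod_cast hQ' : (qS S' : ℝ) ≤ Q)
    exact mul_le_mul a1 a2 (abs_nonneg _) (by positivity)
  have hmain := abs_sum_range_periodic hUpos _ hFper N hzero ((Q : ℝ) ^ 2) hB
  refine hmain.trans ?_
  have hL : ∏ p ∈ S ∪ S', p ≤ Q ^ 2 := by
    have e1 := Finset.prod_union_inter (s₁ := S) (s₂ := S') (f := fun p : ℕ => p)
    have e2 : 1 ≤ ∏ p ∈ S ∩ S', p := Finset.prod_pos fun p hp =>
      (h p (Finset.mem_of_mem_inter_left hp)).1.pos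
    calc ∏ p ∈ S ∪ S', p ≤ (∏ p ∈ S ∪ S', p) * ∏ p ∈ S ∩ S', p := Nat.le_mul_of_pos_right _ e2
      _ = qS S * qS S' := e1
      _ ≤ Q ^ 2 := by rw [sq]; exact Nat.mul_le_mul hQ hQ'
  have hL' : ((∏ p ∈ S ∪ S', p : ℕ) : ℝ) ≤ (Q : ℝ) ^ 2 := by exact_mod_cast hL
  calc ((∏ p ∈ S ∪ S', p : ℕ) : ℝ) * (Q : ℝ) ^ 2 ≤ (Q : ℝ) ^ 2 * (Q : ℝ) ^ 2 := by gcongr
    _ = (Q : ℝ) ^ 4 := by ring

lemma diag {m : ℕ} {S : Finset ℕ} (h : ∀ p ∈ S, Adm m p) {Q : ℕ} (hQ : qS S ≤ Q) (N : ℕ) :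
    ∑ n ∈ range N, gS m S n * gS m S n ≤ N * (hS S)⁻¹ + (Q : ℝ) ^ 4 := by
  set f : ℕ → ℕ → ℝ := fun p n => gp m p n * gp m p n with hf
  have hper : ∀ p ∈ S, Function.Periodic (f p) p := by
    intro p _ n
    simp only [hf]
    rw [gp_periodic m p n]
  have hmul : ∀ n, gS m S n * gS m S n = ∏ p ∈ S, f p n := by
    intro n
    unfold gS
    rw [← Finset.prod_mul_distrib]
  have hFper : Function.Periodic (fun n => gS m S n * gS m S n) (qS S) := by
    intro n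
    have := periodic_prod S f hper n
    simp only at this
    rw [← hmul, ← hmul] at this
    exact this
  have hsum : ∑ n ∈ range (qS S), gS m S n * gS m S n = (qS S : ℕ) * (hS S)⁻¹ := by
    have h1 := crt_prod S (fun p hp => (h p hp).1) f hper
    have h2 : ∑ n ∈ range (qS S), gS m S n * gS m S n =
        ∑ n ∈ range (∏ p ∈ S, p), ∏ p ∈ S, f p n :=
      Finset.sum_congr rfl fun n _ => hmul n
    rw [h2, h1]
    unfold qS hS
    rw [← Finset.prod_inv_distrib]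
    push_cast
    rw [← Finset.prod_mul_distrib]
    refine Finset.prod_congr rfl fun p hp => ?_
    simp only [hf]
    rw [sum_gp_sq (h p hp), inv_div]
  have hB : ∀ n, |gS m S n * gS m S n| ≤ (Q : ℝ) ^ 2 := by
    intro n
    rw [abs_mul, sq]
    have a1 := (abs_gS_le h n).trans (by exact_mod_cast hQ : (qS S : ℝ) ≤ Q)
    exact mul_le_mul a1 a1 (abs_nonneg _) (by positivity)
  have hmain := sum_range_periodic_le (qS_pos h) _ hFper N _ hsum
    (inv_nonneg.mpr (hS_pos h).le) ((Q : ℝ) ^ 2) hB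
  refine hmain.trans ?_
  have hQ1 : (1 : ℝ) ≤ Q := by
    exact_mod_cast (qS_pos h).trans_le hQ
  have hQ2 : (qS S : ℝ) ≤ (Q : ℝ) ^ 2 := by
    calc (qS S : ℝ) ≤ Q := by exact_mod_cast hQ
      _ ≤ (Q : ℝ) ^ 2 := by nlinarith
  have : (qS S : ℝ) * (Q : ℝ) ^ 2 ≤ (Q : ℝ) ^ 4 := by
    calc (qS S : ℝ) * (Q : ℝ) ^ 2 ≤ (Q : ℝ) ^ 2 * (Q : ℝ) ^ 2 := by gcongr
      _ = (Q : ℝ) ^ 4 := by ring
  linarith

/-- The sieve inequality. -/
theorem sieve {m : ℕ} (QQ : Finset (Finset ℕ)) (hQQ : ∀ S ∈ QQ, ∀ p ∈ S, Adm m p) {Q : ℕ}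
    (hQ : ∀ S ∈ QQ, qS S ≤ Q) (N : ℕ) (A : Finset ℕ) (hA : A ⊆ range N)
    (hAs : ∀ n ∈ A, ∀ S ∈ QQ, ∀ p ∈ S, n % p ≠ 0 ∧ n % p ≠ m % p)
    (hG : 0 < ∑ S ∈ QQ, hS S) :
    (A.card : ℝ) ≤ N / (∑ S ∈ QQ, hS S) + (Q : ℝ) ^ 4 := by
  set G := ∑ S ∈ QQ, hS S with hGdef
  let T : ℕ → ℝ := fun n => ∑ S ∈ QQ, hS S * gS m S n
  have hT : ∀ n ∈ A, T n = G := by
    intro n hn
    refine Finset.sum_congr rfl fun S hSQ => ?_
    have : gS m S n = 1 := by
      unfold gS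
      apply Finset.prod_eq_one
      intro p hp
      have := hAs n hn S hSQ p hp
      unfold gp
      rw [if_neg (by tauto)]
    rw [this, mul_one]
  have h1 : (A.card : ℝ) * G ^ 2 ≤ ∑ n ∈ range N, T n ^ 2 := by
    calc (A.card : ℝ) * G ^ 2 = ∑ n ∈ A, T n ^ 2 := by
          rw [Finset.sum_congr rfl fun n hn => by rw [hT n hn]]
          rw [Finset.sum_const, nsmul_eq_mul]
      _ ≤ ∑ n ∈ range N, T n ^ 2 :=
          Finset.sum_le_sum_of_subset_of_nonneg hA (fun n _ _ => sq_nonneg _)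
  have h2 : ∑ n ∈ range N, T n ^ 2 =
      ∑ S ∈ QQ, ∑ S' ∈ QQ, hS S * hS S' * ∑ n ∈ range N, gS m S n * gS m S' n := by
    have e1 : ∀ n, T n ^ 2 = ∑ S ∈ QQ, ∑ S' ∈ QQ, hS S * hS S' * (gS m S n * gS m S' n) := by
      intro n
      simp only [T]
      rw [sq, Finset.sum_mul_sum]
      refine Finset.sum_congr rfl fun S _ => Finset.sum_congr rfl fun S' _ => ?_
      ring
    simp only [e1]
    rw [Finset.sum_comm]
    refine Finset.sum_congr rfl fun S _ => ?_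
    rw [Finset.sum_comm]
    refine Finset.sum_congr rfl fun S' _ => ?_
    rw [Finset.mul_sum]
  have h3 : ∀ S ∈ QQ, ∀ S' ∈ QQ, hS S * hS S' * ∑ n ∈ range N, gS m S n * gS m S' n ≤
      hS S * hS S' * (Q : ℝ) ^ 4 + (if S = S' then N * hS S else 0) := by
    intro S hSm S' hSm'
    have p1 := hS_pos (hQQ S hSm)
    have p2 := hS_pos (hQQ S' hSm')
    by_cases he : S = S'
    · subst he
      rw [if_pos rfl]
      have := diag (hQQ S hSm) (hQ S hSm) N
      calc hS S * hS S * ∑ n ∈ range N, gS m S n * gS m S n ≤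
          hS S * hS S * (N * (hS S)⁻¹ + (Q : ℝ) ^ 4) := by gcongr
        _ = hS S * hS S * (Q : ℝ) ^ 4 + N * hS S := by
          field_simp
          ring
    · rw [if_neg he, add_zero]
      have := offdiag (hQQ S hSm) (hQQ S' hSm') he (hQ S hSm) (hQ S' hSm') N
      have h4 := (le_abs_self _).trans this
      gcongr
  have h4 : ∑ n ∈ range N, T n ^ 2 ≤ G ^ 2 * (Q : ℝ) ^ 4 + N * G := by
    rw [h2]
    calc ∑ S ∈ QQ, ∑ S' ∈ QQ, hS S * hS S' * ∑ n ∈ range N, gS m S n * gS m S' n ≤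
        ∑ S ∈ QQ, ∑ S' ∈ QQ, (hS S * hS S' * (Q : ℝ) ^ 4 + (if S = S' then N * hS S else 0)) :=
          Finset.sum_le_sum fun S hSm => Finset.sum_le_sum fun S' hSm' => h3 S hSm S' hSm'
      _ = G ^ 2 * (Q : ℝ) ^ 4 + N * G := by
        simp only [Finset.sum_add_distrib]
        congr 1
        · rw [hGdef, sq, Finset.sum_mul_sum, Finset.sum_mul]
          refine Finset.sum_congr rfl fun S _ => ?_
          rw [Finset.sum_mul]
        · rw [hGdef, Finset.mul_sum]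
          refine Finset.sum_congr rfl fun S hSm => ?_
          rw [Finset.sum_ite_eq, if_pos hSm]
  have h5 : (A.card : ℝ) * G ^ 2 ≤ G ^ 2 * (Q : ℝ) ^ 4 + N * G := h1.trans h4
  have hG2 : 0 < G ^ 2 := by positivity
  have h6 : (A.card : ℝ) ≤ (G ^ 2 * (Q : ℝ) ^ 4 + N * G) / G ^ 2 := by
    rw [le_div_iff₀ hG2]
    exact h5
  calc (A.card : ℝ) ≤ (G ^ 2 * (Q : ℝ) ^ 4 + N * G) / G ^ 2 := h6
    _ = N / G + (Q : ℝ) ^ 4 := by
      field_simp
      ring

end sieve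

end Pool.Agent.helper15.NT
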