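import Pool.Agent.helper15.NTb

open Finset

namespace Pool.Agent.helper15.NT

section FW

/-- truncated sum of reciprocals of squarefree numbers -/
noncomputable def FF (V : Finset ℕ) (y : ℝ) : ℝ :=
  ∑ S ∈ V.powerset, if ((qS S : ℕ) : ℝ) ≤ y then ∏ p ∈ S, (1 / (p : ℝ)) else 0

/-- truncated sum with the two dimensional weights -/
noncomputable def WW (V : Finset ℕ) (y : ℝ) : ℝ :=
  ∑ S ∈ V.powerset, if ((qS S : ℕ) : ℝ) ≤ y then ∏ p ∈ S, (2 / (p : ℝ) + 1 / (p : ℝ) ^ 2) else 0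

lemma FF_nonneg (V : Finset ℕ) (y : ℝ) : 0 ≤ FF V y := by
  apply Finset.sum_nonneg
  intro S _
  split_ifs
  · apply Finset.prod_nonneg; intro p _; positivity
  · exact le_refl _

lemma WW_nonneg (V : Finset ℕ) (y : ℝ) : 0 ≤ WW V y := by
  apply Finset.sum_nonneg
  intro S _
  split_ifs
  · apply Finset.prod_nonneg; intro p _; positivity
  · exact le_refl _

lemma FF_mono (V : Finset ℕ) {y y' : ℝ} (h : y ≤ y') : FF V y ≤ FF V y' := by
  apply Finset.sum_le_sum
  intro S _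
  have h0 : 0 ≤ ∏ p ∈ S, (1 / (p : ℝ)) := by
    apply Finset.prod_nonneg; intro p _; positivity
  split_ifs with h1 h2
  · exact le_refl _
  · exact absurd (h1.trans h) h2
  · exact h0
  · exact le_refl _

lemma WW_mono (V : Finset ℕ) {y y' : ℝ} (h : y ≤ y') : WW V y ≤ WW V y' := by
  apply Finset.sum_le_sum
  intro S _
  have h0 : 0 ≤ ∏ p ∈ S, (2 / (p : ℝ) + 1 / (p : ℝ) ^ 2) := by
    apply Finset.prod_nonneg; intro p _; positivity
  split_ifs with h1 h2
  · exact le_refl _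
  · exact absurd (h1.trans h) h2
  · exact h0
  · exact le_refl _

lemma FF_insert {V : Finset ℕ} {p : ℕ} (hp : p ∉ V) (hp0 : 0 < p) (y : ℝ) :
    FF (insert p V) y = FF V y + (1 / (p : ℝ)) * FF V (y / p) := by
  unfold FF
  rw [Finset.sum_powerset_insert hp, Finset.mul_sum]
  congr 1
  refine Finset.sum_congr rfl fun S hS => ?_
  have hpS : p ∉ S := fun h => hp (Finset.mem_powerset.mp hS h)
  have hp' : (0 : ℝ) < p := by exact_mod_cast hp0
  unfold qS
  rw [Finset.prod_insert hpS, Finset.prod_insert hpS]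
  push_cast
  have : ((p : ℝ) * ∏ q ∈ S, (q : ℝ) ≤ y) ↔ (∏ q ∈ S, (q : ℝ) ≤ y / p) := by
    rw [le_div_iff₀ hp', mul_comm]
  simp only [this]
  split_ifs <;> simp

lemma WW_insert {V : Finset ℕ} {p : ℕ} (hp : p ∉ V) (hp0 : 0 < p) (y : ℝ) :
    WW (insert p V) y = WW V y + (2 / (p : ℝ) + 1 / (p : ℝ) ^ 2) * WW V (y / p) := by
  unfold WW
  rw [Finset.sum_powerset_insert hp, Finset.mul_sum]
  congr 1
  refine Finset.sum_congr rfl fun S hS => ?_
  have hpS : p ∉ S := fun h => hp (Finset.mem_powerset.mp hS h)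
  have hp' : (0 : ℝ) < p := by exact_mod_cast hp0
  unfold qS
  rw [Finset.prod_insert hpS, Finset.prod_insert hpS]
  push_cast
  have : ((p : ℝ) * ∏ q ∈ S, (q : ℝ) ≤ y) ↔ (∏ q ∈ S, (q : ℝ) ≤ y / p) := by
    rw [le_div_iff₀ hp', mul_comm]
  simp only [this]
  split_ifs <;> simp

lemma FF_mul_le (V : Finset ℕ) (hV : ∀ p ∈ V, 0 < p) (y1 y2 : ℝ) (h1 : 0 ≤ y1) (h2 : 0 ≤ y2) :
    FF V y1 * FF V y2 ≤ WW V (y1 * y2) := by
  induction V using Finset.induction_on generalizing y1 y2 with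
  | empty =>
    simp only [FF, WW, Finset.powerset_empty, Finset.sum_singleton, qS, Finset.prod_empty,
      Nat.cast_one]
    split_ifs with a b c
    · simp
    · exfalso; apply c; nlinarith
    · simp
    · simp
    · simp
    · simp
    · simp
    · simp
  | insert p V hp ih =>
    have hp0 : 0 < p := hV p (Finset.mem_insert_self _ _)
    have hV' : ∀ q ∈ V, 0 < q := fun q hq => hV q (Finset.mem_insert_of_mem hq)
    have hp1 : (1 : ℝ) ≤ p := by exact_mod_cast hp0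
    have hp' : (0 : ℝ) < p := by linarith
    rw [FF_insert hp hp0, FF_insert hp hp0, WW_insert hp hp0]
    have a1 := ih hV' y1 y2 h1 h2
    have a2 := ih hV' (y1 / p) y2 (by positivity) h2
    have a3 := ih hV' y1 (y2 / p) h1 (by positivity)
    have a4 := ih hV' (y1 / p) (y2 / p) (by positivity) (by positivity)
    have e2 : y1 / p * y2 = y1 * y2 / p := by ring
    have e3 : y1 * (y2 / p) = y1 * y2 / p := by ring
    rw [e2] at a2
    rw [e3] at a3
    have a4' : FF V (y1 / p) * FF V (y2 / p) ≤ WW V (y1 * y2 / p) := by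
      refine a4.trans (WW_mono V ?_)
      have : y1 / p * (y2 / p) = (y1 * y2 / p) / p := by ring
      rw [this]
      exact div_le_self (by positivity) hp1
    have hinv : 0 ≤ 1 / (p : ℝ) := by positivity
    have hinv2 : 0 ≤ 1 / (p : ℝ) ^ 2 := by positivity
    have b2 := mul_le_mul_of_nonneg_left a2 hinv
    have b3 := mul_le_mul_of_nonneg_left a3 hinv
    have b4 := mul_le_mul_of_nonneg_left a4' hinv2
    calc (FF V y1 + 1 / (p : ℝ) * FF V (y1 / p)) * (FF V y2 + 1 / (p : ℝ) * FF V (y2 / p)) =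
        FF V y1 * FF V y2 + 1 / (p : ℝ) * (FF V (y1 / p) * FF V y2) +
          1 / (p : ℝ) * (FF V y1 * FF V (y2 / p)) +
          1 / (p : ℝ) ^ 2 * (FF V (y1 / p) * FF V (y2 / p)) := by ring
      _ ≤ WW V (y1 * y2) + 1 / (p : ℝ) * WW V (y1 * y2 / p) +
          1 / (p : ℝ) * WW V (y1 * y2 / p) + 1 / (p : ℝ) ^ 2 * WW V (y1 * y2 / p) := by
        linarith
      _ = WW V (y1 * y2) + (2 / (p : ℝ) + 1 / (p : ℝ) ^ 2) * WW V (y1 * y2 / p) := by ring

lemma FF_union_le (V E : Finset ℕ) (hE : ∀ p ∈ E, 0 < p) (y : ℝ) (hy : 0 ≤ y) :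
    FF (V ∪ E) y ≤ (∏ p ∈ E, (1 + 1 / (p : ℝ))) * FF V y := by
  induction E using Finset.induction_on with
  | empty => simp
  | insert p E hp ih =>
    have hp0 : 0 < p := hE p (Finset.mem_insert_self _ _)
    have hE' : ∀ q ∈ E, 0 < q := fun q hq => hE q (Finset.mem_insert_of_mem hq)
    have hp1 : (1 : ℝ) ≤ p := by exact_mod_cast hp0
    have hp' : (0 : ℝ) < p := by linarith
    have ih' := ih hE'
    rw [Finset.prod_insert hp, Finset.union_insert]
    by_cases hpV : p ∈ V ∪ E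
    · rw [Finset.insert_eq_of_mem hpV]
      refine ih'.trans ?_
      have h0 : 0 ≤ (∏ p ∈ E, (1 + 1 / (p : ℝ))) * FF V y :=
        mul_nonneg (Finset.prod_nonneg fun q _ => by positivity) (FF_nonneg _ _)
      have h1 : 0 ≤ 1 / (p : ℝ) := by positivity
      nlinarith
    · rw [FF_insert hpV hp0]
      have h2 : FF (V ∪ E) (y / p) ≤ FF (V ∪ E) y := FF_mono _ (div_le_self hy hp1)
      have h1 : 0 ≤ 1 / (p : ℝ) := by positivity
      calc FF (V ∪ E) y + 1 / (p : ℝ) * FF (V ∪ E) (y / p) ≤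
          FF (V ∪ E) y + 1 / (p : ℝ) * FF (V ∪ E) y := by gcongr
        _ = (1 + 1 / (p : ℝ)) * FF (V ∪ E) y := by ring
        _ ≤ (1 + 1 / (p : ℝ)) * ((∏ p ∈ E, (1 + 1 / (p : ℝ))) * FF V y) := by gcongr
        _ = _ := by ring

lemma sum_inv_sq_le (z : ℕ) : ∑ s ∈ Finset.Icc 1 z, 1 / (s : ℝ) ^ 2 ≤ 2 := by
  have h : ∀ z : ℕ, 1 ≤ z → ∑ s ∈ Finset.Icc 1 z, 1 / (s : ℝ) ^ 2 ≤ 2 - 1 / (z : ℝ) := by
    intro z hz
    induction z, hz using Nat.le_induction with
    | base => norm_num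
    | succ n hn ih =>
      rw [Finset.sum_Icc_succ_top (by omega)]
      have hn0 : (0:ℝ) < n := by exact_mod_cast hn
      push_cast
      have : 1 / ((n:ℝ) + 1) ^ 2 ≤ 1 / n - 1 / (n + 1) := by
        rw [div_sub_div _ _ hn0.ne' (by positivity), div_le_div_iff₀ (by positivity) (by positivity)]
        nlinarith
      linarith
  rcases Nat.eq_zero_or_pos z with rfl | hz
  · simp
  · have := h z hz
    have hz' : (0:ℝ) < z := by exact_mod_cast hz
    have h2 : (0:ℝ) < 1 / (z:ℝ) := by positivity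
    linarith

/-- primes up to `z` -/
def PP (z : ℕ) : Finset ℕ := (Finset.Icc 1 z).filter Nat.Prime

lemma mem_PP {z p : ℕ} : p ∈ PP z ↔ p.Prime ∧ p ≤ z := by
  simp only [PP, Finset.mem_filter, Finset.mem_Icc]
  constructor
  · rintro ⟨⟨_, h⟩, h'⟩; exact ⟨h', h⟩
  · rintro ⟨h, h'⟩; exact ⟨⟨h.pos, h'⟩, h⟩

lemma sum_inv_le (z : ℕ) : ∑ n ∈ Finset.Icc 1 z, 1 / (n : ℝ) ≤ 2 * FF (PP z) z := by
  have hex : ∀ n : ℕ, ∃ q : ℕ × ℕ, q.2 ^ 2 * q.1 = n ∧ Squarefree q.1 := by
    intro n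
    obtain ⟨a, b, h1, h2⟩ := Nat.sq_mul_squarefree n
    exact ⟨(a, b), h1, h2⟩
  choose f hf1 hf2 using hex
  let T : Finset (Finset ℕ) := (PP z).powerset.filter fun S => ((qS S : ℕ) : ℝ) ≤ z
  let G : ℕ → Finset ℕ × ℕ := fun n => ((f n).1.primeFactors, (f n).2)
  have hq : ∀ n, qS (f n).1.primeFactors = (f n).1 := fun n =>
    Nat.prod_primeFactors_of_squarefree (hf2 n)
  have h1 : ∑ n ∈ Finset.Icc 1 z, 1 / (n : ℝ) ≤
      ∑ q ∈ T ×ˢ (Finset.Icc 1 z), (∏ p ∈ q.1, (1 / (p : ℝ))) * (1 / (q.2 : ℝ) ^ 2) := by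
    have hinj : Set.InjOn G (Finset.Icc 1 z : Finset ℕ) := by
      intro a _ b _ hab
      simp only [G, Prod.mk.injEq] at hab
      have e1 : (f a).1 = (f b).1 := by rw [← hq a, ← hq b, hab.1]
      rw [← hf1 a, ← hf1 b, e1, hab.2]
    have himg : (Finset.Icc 1 z).image G ⊆ T ×ˢ (Finset.Icc 1 z) := by
      intro q hq'
      rw [Finset.mem_image] at hq'
      obtain ⟨n, hn, rfl⟩ := hq'
      rw [Finset.mem_Icc] at hn
      have h3 := hf1 n
      have hpos1 : 0 < (f n).1 := Nat.pos_of_ne_zero (fun h => by rw [h] at h3; omega)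
      have hpos2 : 0 < (f n).2 := Nat.pos_of_ne_zero (fun h => by rw [h] at h3; simp at h3; omega)
      have hle1 : (f n).1 ≤ n := Nat.le_of_dvd (by omega) ⟨(f n).2^2, by rw [mul_comm]; exact h3.symm⟩
      have hle2 : (f n).2 ≤ n := Nat.le_of_dvd (by omega) ⟨(f n).2 * (f n).1, by rw [← mul_assoc, ← sq]; exact h3.symm⟩
      rw [Finset.mem_product, Finset.mem_Icc]
      refine ⟨?_, hpos2, hle2.trans hn.2⟩
      simp only [T, Finset.mem_filter, Finset.mem_powerset, G]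
      constructor
      · intro p hp
        rw [mem_PP]
        exact ⟨Nat.prime_of_mem_primeFactors hp,
          (Nat.le_of_mem_primeFactors hp).trans (hle1.trans hn.2)⟩
      · rw [hq n]
        exact_mod_cast hle1.trans hn.2
    calc ∑ n ∈ Finset.Icc 1 z, 1 / (n : ℝ) =
        ∑ n ∈ Finset.Icc 1 z, (∏ p ∈ (G n).1, (1 / (p : ℝ))) * (1 / ((G n).2 : ℝ) ^ 2) := by
          refine Finset.sum_congr rfl fun n _ => ?_
          have e1 : ∏ p ∈ (G n).1, (1 / (p : ℝ)) = 1 / ((f n).1 : ℝ) := by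
            have := hq n
            have h' : ((qS (f n).1.primeFactors : ℕ) : ℝ) = ((f n).1 : ℝ) := by rw [this]
            unfold qS at h'
            push_cast at h'
            rw [← h']
            simp only [G, one_div, Finset.prod_inv_distrib]
          rw [e1]
          have h3 : (((f n).2 : ℝ)) ^ 2 * ((f n).1 : ℝ) = n := by exact_mod_cast hf1 n
          have e2 : (1 : ℝ) / n = 1 / ((((f n).2 : ℝ)) ^ 2 * ((f n).1 : ℝ)) := by rw [h3]
          rw [e2, one_div_mul_one_div]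
          congr 1
          simp only [G]
          ring
      _ = ∑ q ∈ (Finset.Icc 1 z).image G, (∏ p ∈ q.1, (1 / (p : ℝ))) * (1 / (q.2 : ℝ) ^ 2) := by
          rw [Finset.sum_image hinj]
      _ ≤ ∑ q ∈ T ×ˢ (Finset.Icc 1 z), (∏ p ∈ q.1, (1 / (p : ℝ))) * (1 / (q.2 : ℝ) ^ 2) := by
          apply Finset.sum_le_sum_of_subset_of_nonneg himg
          intro q _ _
          apply mul_nonneg
          · apply Finset.prod_nonneg; intro p _; positivity
          · positivity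
  refine h1.trans ?_
  rw [Finset.sum_product]
  simp only [← Finset.mul_sum]
  rw [← Finset.sum_mul]
  have h2 : ∑ S ∈ T, ∏ p ∈ S, (1 / (p : ℝ)) = FF (PP z) z := by
    simp only [T, FF, Finset.sum_filter]
  rw [h2, mul_comm]
  exact mul_le_mul_of_nonneg_right (sum_inv_sq_le z) (FF_nonneg _ _)

lemma log_le_FF (z : ℕ) : Real.log (z + 1) / 2 ≤ FF (PP z) z := by
  have h1 := log_add_one_le_harmonic z
  have h2 : ((harmonic z : ℚ) : ℝ) = ∑ n ∈ Finset.Icc 1 z, 1 / (n : ℝ) := by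
    rw [harmonic_eq_sum_Icc]
    push_cast
    refine Finset.sum_congr rfl fun n _ => ?_
    rw [one_div]
  have h3 := sum_inv_le z
  rw [← h2] at h3
  push_cast at h1
  linarith

end FW

end Pool.Agent.helper15.NT
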