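import Pool.Agent.helper15.NTc

open Finset

namespace Pool.Agent.helper15.NT

section apply

/-- sum of reciprocals of divisors -/
noncomputable def sig (m : ℕ) : ℝ := ∑ e ∈ m.divisors, 1 / (e : ℝ)

lemma sig_nonneg (m : ℕ) : 0 ≤ sig m := Finset.sum_nonneg fun e _ => by positivity

lemma sig_pos {m : ℕ} (hm : 0 < m) : 1 ≤ sig m := by
  unfold sig
  have h1 : (1 : ℕ) ∈ m.divisors := Nat.one_mem_divisors.mpr hm.ne'
  calc (1 : ℝ) = 1 / ((1 : ℕ) : ℝ) := by norm_num
    _ ≤ ∑ e ∈ m.divisors, 1 / (e : ℝ) :=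
      Finset.single_le_sum (f := fun e : ℕ => 1 / (e : ℝ)) (fun e _ => by positivity) h1

lemma prod_primeFactors_le {m : ℕ} (hm : 0 < m) :
    ∏ p ∈ m.primeFactors, (1 + 1 / (p : ℝ)) ≤ sig m := by
  rw [Finset.prod_one_add]
  unfold sig
  have hinj : Set.InjOn (fun S : Finset ℕ => ∏ p ∈ S, p) (m.primeFactors.powerset : Finset (Finset ℕ)) := by
    intro a ha b hb hab
    have ha' : ∀ p ∈ a, p.Prime := fun p hp =>
      Nat.prime_of_mem_primeFactors (Finset.mem_powerset.mp ha hp)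
    have hb' : ∀ p ∈ b, p.Prime := fun p hp =>
      Nat.prime_of_mem_primeFactors (Finset.mem_powerset.mp hb hp)
    have e1 := Nat.primeFactors_prod ha'
    have e2 := Nat.primeFactors_prod hb'
    simp only at hab
    rw [← e1, ← e2, hab]
  have h1 : ∑ S ∈ m.primeFactors.powerset, ∏ p ∈ S, (1 / (p : ℝ)) =
      ∑ S ∈ m.primeFactors.powerset, 1 / (((∏ p ∈ S, p : ℕ)) : ℝ) := by
    refine Finset.sum_congr rfl fun S _ => ?_
    push_cast
    simp only [one_div, Finset.prod_inv_distrib]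
  rw [h1]
  rw [← Finset.sum_image (f := fun e : ℕ => 1 / (e : ℝ)) hinj]
  apply Finset.sum_le_sum_of_subset_of_nonneg
  · intro e he
    rw [Finset.mem_image] at he
    obtain ⟨S, hS, rfl⟩ := he
    rw [Nat.mem_divisors]
    refine ⟨?_, hm.ne'⟩
    have h2 : ∏ p ∈ S, p ∣ ∏ p ∈ m.primeFactors, p :=
      Finset.prod_dvd_prod_of_subset _ _ _ (Finset.mem_powerset.mp hS)
    exact h2.trans (Nat.prod_primeFactors_dvd m)
  · intro e _ _; positivity

theorem sieve_pairs {m : ℕ} (hm : 0 < m) (hme : Even m) {y : ℕ} (hy : 1 ≤ y) (N : ℕ)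
    (A : Finset ℕ) (hA : A ⊆ range N)
    (hAs : ∀ n ∈ A, ∀ p, p.Prime → p ≤ y → n % p ≠ 0 ∧ n % p ≠ m % p) :
    (A.card : ℝ) ≤ 4 * sig m ^ 2 * N / (Real.log (y + 1)) ^ 2 + (y : ℝ) ^ 8 := by
  classical
  set V := (PP y).filter (fun p => 3 ≤ p ∧ ¬ p ∣ m) with hV
  set E := (PP y).filter (fun p => ¬ (3 ≤ p ∧ ¬ p ∣ m)) with hE
  have hVE : V ∪ E = PP y := Finset.filter_union_filter_not_eq _ _
  have hVadm : ∀ p ∈ V, Adm m p := by
    intro p hp
    rw [hV, Finset.mem_filter, mem_PP] at hp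
    exact ⟨hp.1.1, hp.2.1, hp.2.2⟩
  have hEsub : E ⊆ m.primeFactors := by
    intro p hp
    rw [hE, Finset.mem_filter, mem_PP] at hp
    rw [Nat.mem_primeFactors]
    refine ⟨hp.1.1, ?_, hm.ne'⟩
    by_contra hnd
    apply hp.2
    refine ⟨?_, hnd⟩
    by_contra h3
    have h2 := hp.1.1.two_le
    have : p = 2 := by omega
    rw [this] at hnd
    exact hnd hme.two_dvd
  have hypos : (0 : ℝ) < y := by exact_mod_cast hy
  have hlog : 0 < Real.log (y + 1) := Real.log_pos (by linarith)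
  have hsig := sig_pos hm
  -- lower bound for FF V y
  have hF1 : Real.log (y + 1) / 2 ≤ sig m * FF V y := by
    calc Real.log (y + 1) / 2 ≤ FF (PP y) y := log_le_FF y
      _ = FF (V ∪ E) y := by rw [hVE]
      _ ≤ (∏ p ∈ E, (1 + 1 / (p : ℝ))) * FF V y := by
        refine FF_union_le V E ?_ y hypos.le
        intro p hp
        exact (Nat.prime_of_mem_primeFactors (hEsub hp)).pos
      _ ≤ (∏ p ∈ m.primeFactors, (1 + 1 / (p : ℝ))) * FF V y := by
        apply mul_le_mul_of_nonneg_right _ (FF_nonneg _ _)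
        apply Finset.prod_le_prod_of_subset_of_one_le hEsub
        · intro p _; positivity
        · intro p _ _
          have : (0 : ℝ) ≤ 1 / (p : ℝ) := by positivity
          linarith
      _ ≤ sig m * FF V y := by
        apply mul_le_mul_of_nonneg_right (prod_primeFactors_le hm) (FF_nonneg _ _)
  set QQ := V.powerset.filter (fun S => ((qS S : ℕ) : ℝ) ≤ (y : ℝ) * y) with hQQ
  have hadm : ∀ S ∈ QQ, ∀ p ∈ S, Adm m p := by
    intro S hS p hp
    rw [hQQ, Finset.mem_filter, Finset.mem_powerset] at hS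
    exact hVadm p (hS.1 hp)
  have hG1 : WW V ((y : ℝ) * y) ≤ ∑ S ∈ QQ, hS S := by
    unfold WW
    rw [hQQ, Finset.sum_filter]
    apply Finset.sum_le_sum
    intro S hS'
    split_ifs with h
    · unfold hS
      apply Finset.prod_le_prod
      · intro p _; positivity
      · intro p hp
        have h3 : (3 : ℝ) ≤ p := by
          exact_mod_cast (hVadm p (Finset.mem_powerset.mp hS' hp)).2.1
        have h4 : (0 : ℝ) < p - 2 := by linarith
        have h5 : (0 : ℝ) < p := by linarith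
        rw [div_add_div _ _ h5.ne' (by positivity), div_le_div_iff₀ (by positivity) h4]
        nlinarith [sq_nonneg ((p : ℝ)), mul_pos h5 h5, mul_pos (mul_pos h5 h5) h5]
    · exact le_refl _
  have hG2 : (FF V y) ^ 2 ≤ ∑ S ∈ QQ, hS S := by
    have := FF_mul_le V (fun p hp => (hVadm p hp).1.pos) y y hypos.le hypos.le
    rw [sq]
    exact this.trans hG1
  have hFpos : 0 < FF V y := by
    by_contra hcon
    have h0 : FF V y = 0 := le_antisymm (not_lt.mp hcon) (FF_nonneg _ _)
    rw [h0, mul_zero] at hF1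
    linarith
  have hGpos : 0 < ∑ S ∈ QQ, hS S := lt_of_lt_of_le (by positivity) hG2
  have hmain := sieve (m := m) QQ hadm (Q := y ^ 2) (by
    intro S hS'
    rw [hQQ, Finset.mem_filter] at hS'
    have h := hS'.2
    have h' : ((qS S : ℕ) : ℝ) ≤ ((y ^ 2 : ℕ) : ℝ) := by
      push_cast
      rw [sq]
      exact h
    exact_mod_cast h') N A hA (by
    intro n hn S hS' p hp
    have hadm' := hadm S hS' p hp
    rw [hQQ, Finset.mem_filter, Finset.mem_powerset] at hS'
    have hpV := hS'.1 hp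
    rw [hV, Finset.mem_filter, mem_PP] at hpV
    exact hAs n hn p hpV.1.1 hpV.1.2) hGpos
  refine hmain.trans ?_
  have e1 : (((y ^ 2 : ℕ) : ℝ)) ^ 4 = (y : ℝ) ^ 8 := by
    push_cast
    ring
  rw [e1]
  apply add_le_add_left
  have h6 : (Real.log (y + 1) / (2 * sig m)) ^ 2 ≤ ∑ S ∈ QQ, hS S := by
    refine le_trans ?_ hG2
    apply pow_le_pow_left₀
    · positivity
    · rw [div_le_iff₀ (by positivity)]
      linarith
  have h7 : 0 < (Real.log (y + 1) / (2 * sig m)) ^ 2 := by positivity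
  calc (N : ℝ) / ∑ S ∈ QQ, hS S ≤ N / (Real.log (y + 1) / (2 * sig m)) ^ 2 := by
        apply div_le_div_of_nonneg_left (by positivity) h7 h6
    _ = 4 * sig m ^ 2 * N / (Real.log (y + 1)) ^ 2 := by
        field_simp
        ring

end apply

end Pool.Agent.helper15.NT
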