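import Pool.Agent.helper15.NTd

open Finset

namespace Pool.Agent.helper15.NT

section moment

/-- A bound for the sums of `e^{-5/4}`. -/
lemma exists_Z : ∃ Z : ℝ, 0 < Z ∧ ∀ M : ℕ, ∑ e ∈ Finset.Icc 1 M, 1 / (e : ℝ) ^ (5 / 4 : ℝ) ≤ Z := by
  have hs : Summable (fun n : ℕ => 1 / (n : ℝ) ^ (5 / 4 : ℝ)) :=
    Real.summable_one_div_nat_rpow.mpr (by norm_num)
  refine ⟨(∑' n : ℕ, 1 / (n : ℝ) ^ (5 / 4 : ℝ)) + 1, ?_, ?_⟩
  · have : 0 ≤ ∑' n : ℕ, 1 / (n : ℝ) ^ (5 / 4 : ℝ) := tsum_nonneg fun n => by positivity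
    linarith
  · intro M
    have := hs.sum_le_tsum (Finset.Icc 1 M) (fun n _ => by positivity)
    linarith

lemma count_le (M : ℕ) (e : Fin 4 → ℕ) (he : ∀ i, 1 ≤ e i) :
    (((Finset.Icc 1 M).filter fun m => ∀ i, e i ∣ m).card : ℝ) ≤
      M * ∏ i, 1 / (e i : ℝ) ^ (1 / 4 : ℝ) := by
  set c := ((Finset.Icc 1 M).filter fun m => ∀ i, e i ∣ m).card with hc
  have h1 : ∀ i, (c : ℝ) ≤ M * (1 / (e i : ℝ)) := by
    intro i
    have h2 : c ≤ ((Finset.Ioc 0 M).filter fun m => e i ∣ m).card := by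
      apply Finset.card_le_card
      intro m hm
      rw [Finset.mem_filter, Finset.mem_Icc] at hm
      rw [Finset.mem_filter, Finset.mem_Ioc]
      exact ⟨⟨by omega, hm.1.2⟩, hm.2 i⟩
    rw [Nat.Ioc_filter_dvd_card_eq_div] at h2
    have h3 : (c : ℝ) ≤ ((M / e i : ℕ) : ℝ) := by exact_mod_cast h2
    have h4 : ((M / e i : ℕ) : ℝ) ≤ (M : ℝ) / e i := Nat.cast_div_le
    rw [mul_one_div]
    exact h3.trans h4
  have h5 : (c : ℝ) ^ 4 ≤ (M * ∏ i, 1 / (e i : ℝ) ^ (1 / 4 : ℝ)) ^ 4 := by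
    calc (c : ℝ) ^ 4 = ∏ _i : Fin 4, (c : ℝ) := by simp
      _ ≤ ∏ i : Fin 4, (M * (1 / (e i : ℝ))) :=
        Finset.prod_le_prod (fun i _ => by positivity) (fun i _ => h1 i)
      _ = (M * ∏ i, 1 / (e i : ℝ) ^ (1 / 4 : ℝ)) ^ 4 := by
        rw [Finset.prod_mul_distrib, mul_pow, ← Finset.prod_pow]
        congr 1
        · simp
        · refine Finset.prod_congr rfl fun i _ => ?_
          rw [one_div, one_div, inv_pow, ← Real.rpow_natCast, ← Real.rpow_mul (by positivity)]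
          norm_num
  exact le_of_pow_le_pow_left₀ (by norm_num) (by positivity) h5

lemma sum_sig_four {Z : ℝ} (hZ : ∀ M : ℕ, ∑ e ∈ Finset.Icc 1 M, 1 / (e : ℝ) ^ (5 / 4 : ℝ) ≤ Z)
    (M : ℕ) : ∑ m ∈ Finset.Icc 1 M, sig m ^ 4 ≤ M * Z ^ 4 := by
  have e1 : ∀ m ∈ Finset.Icc 1 M, sig m = ∑ e ∈ Finset.Icc 1 M, if e ∣ m then 1 / (e : ℝ) else 0 := by
    intro m hm
    rw [Finset.mem_Icc] at hm
    unfold sig
    rw [← Finset.sum_filter]
    congr 1
    ext e
    rw [Nat.mem_divisors, Finset.mem_filter, Finset.mem_Icc]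
    constructor
    · rintro ⟨h1, h2⟩
      exact ⟨⟨Nat.pos_of_dvd_of_pos h1 (by omega), (Nat.le_of_dvd (by omega) h1).trans hm.2⟩, h1⟩
    · rintro ⟨_, h1⟩
      exact ⟨h1, by omega⟩
  have e2 : ∀ m ∈ Finset.Icc 1 M, sig m ^ 4 =
      ∑ e ∈ Fintype.piFinset (fun _ : Fin 4 => Finset.Icc 1 M),
        ∏ i, if e i ∣ m then 1 / (e i : ℝ) else 0 := by
    intro m hm
    have h := Finset.prod_univ_sum (fun _ : Fin 4 => Finset.Icc 1 M)
      (fun _ e => if e ∣ m then 1 / (e : ℝ) else 0)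
    rw [← h, e1 m hm]
    simp
  rw [Finset.sum_congr rfl e2, Finset.sum_comm]
  have e3 : ∀ e ∈ Fintype.piFinset (fun _ : Fin 4 => Finset.Icc 1 M),
      ∑ m ∈ Finset.Icc 1 M, ∏ i, (if e i ∣ m then 1 / (e i : ℝ) else 0) ≤
      M * ∏ i, 1 / (e i : ℝ) ^ (5 / 4 : ℝ) := by
    intro e he
    rw [Fintype.mem_piFinset] at he
    have he1 : ∀ i, 1 ≤ e i := fun i => (Finset.mem_Icc.mp (he i)).1
    have e4 : ∀ m, ∏ i, (if e i ∣ m then 1 / (e i : ℝ) else 0) =
        if (∀ i, e i ∣ m) then ∏ i, 1 / (e i : ℝ) else 0 := by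
      intro m
      by_cases h : ∀ i, e i ∣ m
      · rw [if_pos h]
        refine Finset.prod_congr rfl fun i _ => ?_
        rw [if_pos (h i)]
      · rw [if_neg h]
        push Not at h
        obtain ⟨i, hi⟩ := h
        exact Finset.prod_eq_zero (Finset.mem_univ i) (if_neg hi)
    simp only [e4]
    rw [← Finset.sum_filter, Finset.sum_const, nsmul_eq_mul]
    calc (((Finset.Icc 1 M).filter fun m => ∀ i, e i ∣ m).card : ℝ) * ∏ i, 1 / (e i : ℝ) ≤
        (M * ∏ i, 1 / (e i : ℝ) ^ (1 / 4 : ℝ)) * ∏ i, 1 / (e i : ℝ) := by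
          apply mul_le_mul_of_nonneg_right (count_le M e he1)
          apply Finset.prod_nonneg; intro i _; positivity
      _ = M * ∏ i, 1 / (e i : ℝ) ^ (5 / 4 : ℝ) := by
          rw [mul_assoc, ← Finset.prod_mul_distrib]
          congr 1
          refine Finset.prod_congr rfl fun i _ => ?_
          have hpos : (0 : ℝ) < e i := by exact_mod_cast he1 i
          rw [one_div_mul_one_div]
          congr 1
          have : (5 / 4 : ℝ) = 1 / 4 + 1 := by norm_num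
          rw [this, Real.rpow_add hpos, Real.rpow_one]
  refine (Finset.sum_le_sum e3).trans ?_
  rw [← Finset.mul_sum]
  apply mul_le_mul_of_nonneg_left _ (by positivity)
  have h := Finset.prod_univ_sum (fun _ : Fin 4 => Finset.Icc 1 M)
      (fun _ (e : ℕ) => 1 / (e : ℝ) ^ (5 / 4 : ℝ))
  rw [← h]
  simp only [Finset.prod_const, Finset.card_univ, Fintype.card_fin]
  apply pow_le_pow_left₀ _ (hZ M)
  apply Finset.sum_nonneg
  intro e _
  positivity

end moment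

section cheb

/-- primes in `(x, 8x]` -/
def PX (x : ℕ) : Finset ℕ := (Finset.Ioc x (8 * x)).filter Nat.Prime

lemma log_le_quarter {t : ℝ} (ht : 0 ≤ t) : Real.log t ≤ 4 * t ^ (1 / 4 : ℝ) := by
  have := Real.log_le_rpow_div ht (by norm_num : (0 : ℝ) < 1 / 4)
  linarith

lemma theta_sub (x : ℕ) : Chebyshev.theta ((8 * x : ℕ) : ℝ) - Chebyshev.theta (x : ℝ) =
    ∑ p ∈ PX x, Real.log p := by
  rw [Chebyshev.theta_eq_sum_Icc, Chebyshev.theta_eq_sum_Icc]
  rw [Nat.floor_natCast, Nat.floor_natCast]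
  have h1 : (Finset.Icc 0 (8 * x)).filter Nat.Prime = (Finset.Icc 0 x).filter Nat.Prime ∪ PX x := by
    ext p
    simp only [PX, Finset.mem_filter, Finset.mem_union, Finset.mem_Icc, Finset.mem_Ioc]
    constructor
    · rintro ⟨⟨_, h⟩, hp⟩
      by_cases hx : p ≤ x
      · exact Or.inl ⟨⟨by omega, hx⟩, hp⟩
      · exact Or.inr ⟨⟨by omega, h⟩, hp⟩
    · rintro (⟨⟨_, h⟩, hp⟩ | ⟨⟨_, h⟩, hp⟩)
      · exact ⟨⟨by omega, by omega⟩, hp⟩
      · exact ⟨⟨by omega, by omega⟩, hp⟩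
  have h2 : Disjoint ((Finset.Icc 0 x).filter Nat.Prime) (PX x) := by
    rw [Finset.disjoint_left]
    intro p hp hp'
    simp only [PX, Finset.mem_filter, Finset.mem_Icc, Finset.mem_Ioc] at hp hp'
    omega
  rw [h1, Finset.sum_union h2]
  ring

lemma card_PX {x : ℕ} (hx : 2 ^ 24 ≤ x) : (x : ℝ) / Real.log x ≤ (PX x).card := by
  have hx1 : (2 : ℝ) ^ 24 ≤ x := by exact_mod_cast hx
  have hxpos : (0 : ℝ) < x := by linarith [show (0:ℝ) < 2 ^ 24 by norm_num]
  have hlogx : 0 < Real.log x := Real.log_pos (by linarith [show (1:ℝ) < 2 ^ 24 by norm_num])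
  set t : ℝ := ((8 * x : ℕ) : ℝ) with ht
  have htx : t = 8 * x := by rw [ht]; push_cast; ring
  have htpos : 0 < t := by rw [htx]; linarith
  -- fourth root
  set r : ℝ := t ^ (1 / 4 : ℝ) with hr
  have hr4 : r ^ 4 = t := by
    rw [hr, ← Real.rpow_natCast, ← Real.rpow_mul htpos.le]
    norm_num
  have hrpos : 0 < r := Real.rpow_pos_of_pos htpos _
  have hr64 : 64 ≤ r := by
    apply le_of_pow_le_pow_left₀ (n := 4) (by norm_num) hrpos.le
    rw [hr4, htx]
    linarith [show (64:ℝ) ^ 4 = 2 ^ 24 by norm_num]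
  have hsq : √t = r ^ 2 := by
    rw [← hr4, show r ^ 4 = (r ^ 2) ^ 2 by ring, Real.sqrt_sq (by positivity)]
  have hlogt : Real.log t ≤ 4 * r := log_le_quarter htpos.le
  have hlogt1 : Real.log (t + 1) ≤ 4 * r + 1 := by
    have h1 : Real.log (t + 1) ≤ Real.log t + 1 := by
      have h2 : t + 1 ≤ t * Real.exp 1 := by
        have := Real.add_one_le_exp (1 : ℝ)
        nlinarith
      calc Real.log (t + 1) ≤ Real.log (t * Real.exp 1) := Real.log_le_log (by linarith) h2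
        _ = Real.log t + 1 := by rw [Real.log_mul htpos.ne' (Real.exp_pos 1).ne', Real.log_exp]
    linarith
  have h1 := Chebyshev.theta_ge (8 * x)
  have h2 := Chebyshev.theta_le_log4_mul_x hxpos.le
  have h3 := theta_sub x
  rw [← ht] at h1 h3
  have h4 : Real.log 4 = 2 * Real.log 2 := by
    rw [show (4:ℝ) = 2 ^ 2 by norm_num, Real.log_pow]; norm_num
  have hl2 := Real.log_two_gt_d9
  rw [hsq] at h1
  -- lower bound of the difference
  have h5 : 2 * (x : ℝ) ≤ ∑ p ∈ PX x, Real.log p := by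
    rw [← h3]
    have h6 : 2 * r ^ 2 * Real.log t ≤ 8 * r ^ 3 := by
      calc 2 * r ^ 2 * Real.log t ≤ 2 * r ^ 2 * (4 * r) := by gcongr
        _ = 8 * r ^ 3 := by ring
    have h7 : 8 * r ^ 3 ≤ x := by
      have : 64 * r ^ 3 ≤ r ^ 4 := by nlinarith [pow_pos hrpos 3]
      rw [hr4, htx] at this
      linarith
    have h8 : 4 * r + 1 ≤ x := by
      have : r ≤ r ^ 3 := by nlinarith [pow_pos hrpos 2, pow_pos hrpos 3]
      linarith
    rw [h4] at h2
    nlinarith [mul_le_mul_of_nonneg_right hl2.le hxpos.le]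
  -- upper bound of each log
  have h9 : ∑ p ∈ PX x, Real.log p ≤ (PX x).card * (2 * Real.log x) := by
    rw [← nsmul_eq_mul]
    apply Finset.sum_le_card_nsmul
    intro p hp
    simp only [PX, Finset.mem_filter, Finset.mem_Ioc] at hp
    have hp8 : (p : ℝ) ≤ 8 * x := by exact_mod_cast hp.1.2
    have hp0 : (0 : ℝ) < p := by exact_mod_cast hp.2.pos
    calc Real.log p ≤ Real.log (x * x) := by
          apply Real.log_le_log hp0
          nlinarith [show (8:ℝ) ≤ 2 ^ 24 by norm_num]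
      _ = 2 * Real.log x := by rw [Real.log_mul hxpos.ne' hxpos.ne']; ring
  rw [div_le_iff₀ hlogx]
  linarith

end cheb

end Pool.Agent.helper15.NT
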