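import Pool.Agent.helper15.NTe

open Finset

namespace Pool.Agent.helper15.NT

section density

/-- sums of two primes of `(x, 8x]` -/
def SS (x : ℕ) : Finset ℕ := (PX x ×ˢ PX x).image (fun q => q.1 + q.2)

/-- number of representations -/
def RR (x m : ℕ) : ℕ := ((PX x ×ˢ PX x).filter (fun q => q.1 + q.2 = m)).card

lemma mem_PX {x p : ℕ} : p ∈ PX x ↔ (x < p ∧ p ≤ 8 * x) ∧ p.Prime := by
  simp [PX]

lemma SS_even {x m : ℕ} (hx : 2 ≤ x) (hm : m ∈ SS x) : Even m ∧ 0 < m ∧ m ≤ 16 * x := by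
  simp only [SS, Finset.mem_image, Finset.mem_product] at hm
  obtain ⟨⟨p, q⟩, ⟨hp, hq⟩, rfl⟩ := hm
  simp only [mem_PX] at hp hq
  have op : Odd p := hp.2.odd_of_ne_two (by omega)
  have oq : Odd q := hq.2.odd_of_ne_two (by omega)
  exact ⟨op.add_odd oq, by simp only; omega, by simp only; omega⟩

lemma sum_RR (x : ℕ) : ∑ m ∈ SS x, RR x m = (PX x).card ^ 2 := by
  unfold RR SS
  rw [← Finset.card_eq_sum_card_image, Finset.card_product, sq]

lemma RR_le {x m : ℕ} (hx : 2 ^ 24 ≤ x) (hm : m ∈ SS x) :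
    (RR x m : ℝ) ≤ 9217 * sig m ^ 2 * (x / Real.log x ^ 2) := by
  obtain ⟨hme, hm0, hm16⟩ := SS_even (by omega) hm
  have hx1 : (2 : ℝ) ^ 24 ≤ x := by exact_mod_cast hx
  have hxpos : (0 : ℝ) < x := by linarith [show (0:ℝ) < 2 ^ 24 by norm_num]
  have hx1' : (1 : ℝ) ≤ x := by linarith [show (1:ℝ) ≤ 2 ^ 24 by norm_num]
  have hlogx : 0 < Real.log x := Real.log_pos (by linarith [show (1:ℝ) < 2 ^ 24 by norm_num])
  set w : ℝ := (x : ℝ) ^ (1 / 16 : ℝ) with hw
  have hwpos : 0 < w := Real.rpow_pos_of_pos hxpos _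
  have hw16 : w ^ 16 = x := by
    rw [hw, ← Real.rpow_natCast, ← Real.rpow_mul hxpos.le]
    norm_num
  have hw1 : 1 ≤ w := Real.one_le_rpow hx1' (by norm_num)
  have hw8 : 8 ≤ w ^ 2 := by
    apply le_of_pow_le_pow_left₀ (n := 8) (by norm_num) (by positivity)
    rw [← pow_mul, show 2 * 8 = 16 by norm_num, hw16]
    linarith [show (8:ℝ) ^ 8 = 2 ^ 24 by norm_num]
  set y : ℕ := ⌊w⌋₊ with hy
  have hy1 : 1 ≤ y := Nat.le_floor (by exact_mod_cast hw1)
  have hyw : (y : ℝ) ≤ w := Nat.floor_le hwpos.le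
  have hyw' : w < y + 1 := Nat.lt_floor_add_one w
  have hyx : y ≤ x := by
    have h1 : (y : ℝ) ≤ x := by
      calc (y : ℝ) ≤ w := hyw
        _ = w ^ 1 := by ring
        _ ≤ w ^ 16 := pow_le_pow_right₀ hw1 (by norm_num)
        _ = x := hw16
    exact_mod_cast h1
  have hlogy : Real.log x / 16 ≤ Real.log (y + 1) := by
    have h1 : Real.log w = Real.log x / 16 := by
      rw [hw, Real.log_rpow hxpos]
      ring
    rw [← h1]
    exact Real.log_le_log hwpos hyw'.le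
  -- the sifted set
  set A := ((PX x ×ˢ PX x).filter (fun q => q.1 + q.2 = m)).image Prod.fst with hA
  have hcard : RR x m = A.card := by
    rw [hA, Finset.card_image_of_injOn]
    · rfl
    · rintro ⟨a, b⟩ hab ⟨c, d⟩ hcd h
      simp only [Finset.coe_filter, Set.mem_setOf_eq] at hab hcd
      simp only at h
      rw [Prod.mk.injEq]
      exact ⟨h, by omega⟩
  have hAr : A ⊆ range (8 * x + 1) := by
    intro n hn
    rw [hA, Finset.mem_image] at hn
    obtain ⟨⟨a, b⟩, hab, rfl⟩ := hn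
    simp only [Finset.mem_filter, Finset.mem_product, mem_PX] at hab
    rw [Finset.mem_range]
    simp only
    omega
  have hAs : ∀ n ∈ A, ∀ p, p.Prime → p ≤ y → n % p ≠ 0 ∧ n % p ≠ m % p := by
    intro n hn p hp hpy
    rw [hA, Finset.mem_image] at hn
    obtain ⟨⟨a, b⟩, hab, rfl⟩ := hn
    simp only [Finset.mem_filter, Finset.mem_product, mem_PX] at hab
    obtain ⟨⟨⟨⟨ha1, ha2⟩, ha3⟩, ⟨hb1, hb2⟩, hb3⟩, hab2⟩ := hab
    simp only
    constructor
    · intro h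
      have hd : p ∣ a := Nat.dvd_of_mod_eq_zero h
      have := (Nat.prime_dvd_prime_iff_eq hp ha3).mp hd
      omega
    · intro h
      have hmod : a ≡ m [MOD p] := h
      have hle : a ≤ m := by omega
      have hd : p ∣ m - a := (Nat.modEq_iff_dvd' hle).mp hmod
      have hmb : m - a = b := by omega
      rw [hmb] at hd
      have := (Nat.prime_dvd_prime_iff_eq hp hb3).mp hd
      omega
  have hmain := sieve_pairs hm0 hme hy1 (8 * x + 1) A hAr hAs
  rw [hcard]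
  refine hmain.trans ?_
  have hsig := sig_pos hm0
  have hsig2 : 1 ≤ sig m ^ 2 := by nlinarith
  -- first term
  have t1 : 4 * sig m ^ 2 * ((8 * x + 1 : ℕ) : ℝ) / (Real.log (y + 1)) ^ 2 ≤
      9216 * sig m ^ 2 * (x / Real.log x ^ 2) := by
    have h1 : ((8 * x + 1 : ℕ) : ℝ) ≤ 9 * x := by push_cast; linarith
    have h2 : (Real.log x / 16) ^ 2 ≤ (Real.log (y + 1)) ^ 2 := by
      apply pow_le_pow_left₀ (by positivity) hlogy
    calc 4 * sig m ^ 2 * ((8 * x + 1 : ℕ) : ℝ) / (Real.log (y + 1)) ^ 2 ≤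
        4 * sig m ^ 2 * (9 * x) / (Real.log x / 16) ^ 2 := by
          apply div_le_div₀
          · positivity
          · gcongr
          · positivity
          · exact h2
      _ = 9216 * sig m ^ 2 * (x / Real.log x ^ 2) := by
          field_simp
          ring
  have t2 : (y : ℝ) ^ 8 ≤ x / Real.log x ^ 2 := by
    have h1 : (y : ℝ) ^ 8 ≤ w ^ 8 := pow_le_pow_left₀ (by positivity) hyw 8
    refine h1.trans ?_
    rw [le_div_iff₀ (by positivity)]
    have h2 : Real.log x ≤ 8 * w ^ 2 := by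
      have := Real.log_le_rpow_div hxpos.le (by norm_num : (0 : ℝ) < 1 / 8)
      have h3 : (x : ℝ) ^ (1 / 8 : ℝ) = w ^ 2 := by
        rw [hw, ← Real.rpow_natCast, ← Real.rpow_mul hxpos.le]
        norm_num
      rw [h3] at this
      linarith
    have h4 : Real.log x ≤ w ^ 4 := by
      calc Real.log x ≤ 8 * w ^ 2 := h2
        _ ≤ w ^ 2 * w ^ 2 := by gcongr
        _ = w ^ 4 := by ring
    have h5 : Real.log x ^ 2 ≤ w ^ 8 := by
      calc Real.log x ^ 2 ≤ (w ^ 4) ^ 2 := pow_le_pow_left₀ hlogx.le h4 2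
        _ = w ^ 8 := by ring
    calc w ^ 8 * Real.log x ^ 2 ≤ w ^ 8 * w ^ 8 := by gcongr
      _ = w ^ 16 := by ring
      _ = x := hw16
  have hX : 0 ≤ (x : ℝ) / Real.log x ^ 2 := by positivity
  calc 4 * sig m ^ 2 * ((8 * x + 1 : ℕ) : ℝ) / (Real.log (y + 1)) ^ 2 + (y : ℝ) ^ 8 ≤
      9216 * sig m ^ 2 * (x / Real.log x ^ 2) + x / Real.log x ^ 2 := add_le_add t1 t2
    _ ≤ 9216 * sig m ^ 2 * (x / Real.log x ^ 2) + sig m ^ 2 * (x / Real.log x ^ 2) := by
      have := mul_le_mul_of_nonneg_right hsig2 hX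
      linarith
    _ = 9217 * sig m ^ 2 * (x / Real.log x ^ 2) := by ring

theorem exists_density : ∃ δ : ℝ, 0 < δ ∧ ∀ x : ℕ, 2 ^ 24 ≤ x → δ * x ≤ (SS x).card := by
  obtain ⟨Z, hZ0, hZ⟩ := exists_Z
  refine ⟨1 / (9217 ^ 2 * 16 * Z ^ 4), by positivity, ?_⟩
  intro x hx
  have hx1 : (2 : ℝ) ^ 24 ≤ x := by exact_mod_cast hx
  have hxpos : (0 : ℝ) < x := by linarith [show (0:ℝ) < 2 ^ 24 by norm_num]
  have hlogx : 0 < Real.log x := Real.log_pos (by linarith [show (1:ℝ) < 2 ^ 24 by norm_num])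
  have h1 : ((PX x).card : ℝ) ^ 2 = ∑ m ∈ SS x, (RR x m : ℝ) := by
    exact_mod_cast (sum_RR x).symm
  have h2 : (∑ m ∈ SS x, (RR x m : ℝ)) ^ 2 ≤ (SS x).card * ∑ m ∈ SS x, (RR x m : ℝ) ^ 2 :=
    sq_sum_le_card_mul_sum_sq
  have h3 : ∑ m ∈ SS x, (RR x m : ℝ) ^ 2 ≤
      9217 ^ 2 * (x / Real.log x ^ 2) ^ 2 * ((16 * x : ℕ) * Z ^ 4) := by
    calc ∑ m ∈ SS x, (RR x m : ℝ) ^ 2 ≤
        ∑ m ∈ SS x, (9217 ^ 2 * (x / Real.log x ^ 2) ^ 2) * sig m ^ 4 := by
          apply Finset.sum_le_sum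
          intro m hm
          have := RR_le hx hm
          calc (RR x m : ℝ) ^ 2 ≤ (9217 * sig m ^ 2 * (x / Real.log x ^ 2)) ^ 2 :=
                pow_le_pow_left₀ (by positivity) this 2
            _ = (9217 ^ 2 * (x / Real.log x ^ 2) ^ 2) * sig m ^ 4 := by ring
      _ = (9217 ^ 2 * (x / Real.log x ^ 2) ^ 2) * ∑ m ∈ SS x, sig m ^ 4 := by
          rw [Finset.mul_sum]
      _ ≤ (9217 ^ 2 * (x / Real.log x ^ 2) ^ 2) * ∑ m ∈ Finset.Icc 1 (16 * x), sig m ^ 4 := by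
          apply mul_le_mul_of_nonneg_left _ (by positivity)
          apply Finset.sum_le_sum_of_subset_of_nonneg
          · intro m hm
            obtain ⟨_, h0, h16⟩ := SS_even (by omega) hm
            rw [Finset.mem_Icc]
            exact ⟨h0, h16⟩
          · intro m _ _; exact pow_nonneg (sig_nonneg m) 4
      _ ≤ 9217 ^ 2 * (x / Real.log x ^ 2) ^ 2 * ((16 * x : ℕ) * Z ^ 4) := by
          apply mul_le_mul_of_nonneg_left (sum_sig_four hZ _) (by positivity)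
  have h4 := card_PX hx
  have h5 : (x / Real.log x) ^ 4 ≤ (SS x).card *
      (9217 ^ 2 * (x / Real.log x ^ 2) ^ 2 * ((16 * x : ℕ) * Z ^ 4)) := by
    calc (x / Real.log x) ^ 4 ≤ ((PX x).card : ℝ) ^ 4 := pow_le_pow_left₀ (by positivity) h4 4
      _ = (∑ m ∈ SS x, (RR x m : ℝ)) ^ 2 := by rw [← h1]; ring
      _ ≤ (SS x).card * ∑ m ∈ SS x, (RR x m : ℝ) ^ 2 := h2
      _ ≤ _ := by gcongr
  push_cast at h5
  have h6 : (SS x).card * (9217 ^ 2 * (x / Real.log x ^ 2) ^ 2 * (16 * x * Z ^ 4)) =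
      ((SS x).card * (9217 ^ 2 * 16 * Z ^ 4)) * (x ^ 3 / Real.log x ^ 4) := by
    field_simp
  have h7 : ((x : ℝ) / Real.log x) ^ 4 = x * (x ^ 3 / Real.log x ^ 4) := by
    field_simp
  rw [h6, h7] at h5
  have h8 : 0 < (x : ℝ) ^ 3 / Real.log x ^ 4 := by positivity
  have h9 := le_of_mul_le_mul_right h5 h8
  rw [one_div, inv_mul_le_iff₀ (by positivity)]
  linarith

end density

end Pool.Agent.helper15.NT
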