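import Pool.Agent.helper15.NTf

open Finset

namespace Pool.Agent.helper15.NT

section schnirelmann

/-- sumset -/
def sumF (A B : Finset ℕ) : Finset ℕ := (A ×ˢ B).image (fun q => q.1 + q.2)

lemma mem_sumF {A B : Finset ℕ} {v : ℕ} : v ∈ sumF A B ↔ ∃ a ∈ A, ∃ b ∈ B, a + b = v := by
  simp only [sumF, Finset.mem_image, Finset.mem_product, Prod.exists]
  constructor
  · rintro ⟨a, b, ⟨ha, hb⟩, h⟩; exact ⟨a, ha, b, hb, h⟩
  · rintro ⟨a, ha, b, hb, h⟩; exact ⟨a, b, ⟨ha, hb⟩, h⟩

/-- counting function -/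
def cnt (A : Finset ℕ) (v : ℕ) : ℕ := (A.filter (fun a => 1 ≤ a ∧ a ≤ v)).card

lemma cnt_mono {A B : Finset ℕ} (h : A ⊆ B) (v : ℕ) : cnt A v ≤ cnt B v :=
  Finset.card_le_card (Finset.filter_subset_filter _ h)

lemma schnirelmann_step {A B : Finset ℕ} (hA : 0 ∈ A) (hB : 0 ∈ B) {β : ℝ} {L : ℕ}
    (hβ : ∀ v ≤ L, β * v ≤ cnt B v) (v : ℕ) (hv : v ≤ L) :
    (1 - β) * cnt A v + β * v ≤ cnt (sumF A B) v := by
  induction v using Nat.strong_induction_on with
  | _ v ih =>
    have hne : (A.filter (fun a => a ≤ v)).Nonempty := ⟨0, by simp [hA]⟩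
    set a := (A.filter (fun a => a ≤ v)).max' hne with ha
    have hamem := Finset.max'_mem _ hne
    rw [← ha, Finset.mem_filter] at hamem
    have hamax : ∀ b ∈ A, b ≤ v → b ≤ a := fun b hb hbv =>
      Finset.le_max' _ b (by rw [Finset.mem_filter]; exact ⟨hb, hbv⟩)
    by_cases ha0 : a = 0
    · have h1 : cnt A v = 0 := by
        unfold cnt
        rw [Finset.card_eq_zero, Finset.filter_eq_empty_iff]
        intro b hb hb'
        have := hamax b hb hb'.2
        omega
      have h2 : cnt B v ≤ cnt (sumF A B) v := by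
        apply cnt_mono
        intro b hb
        rw [mem_sumF]
        exact ⟨0, hA, b, hb, by simp⟩
      rw [h1]
      have h3 := hβ v hv
      have h4 : (cnt B v : ℝ) ≤ cnt (sumF A B) v := by exact_mod_cast h2
      simp only [Nat.cast_zero, mul_zero, zero_add]
      linarith
    · have ha1 : 1 ≤ a := Nat.one_le_iff_ne_zero.mpr ha0
      have h1 : cnt A v = cnt A (a - 1) + 1 := by
        unfold cnt
        have : A.filter (fun b => 1 ≤ b ∧ b ≤ v) =
            insert a (A.filter (fun b => 1 ≤ b ∧ b ≤ a - 1)) := by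
          ext b
          simp only [Finset.mem_filter, Finset.mem_insert]
          constructor
          · rintro ⟨hb, hb1, hbv⟩
            have := hamax b hb hbv
            by_cases hba : b = a
            · exact Or.inl hba
            · exact Or.inr ⟨hb, hb1, by omega⟩
          · rintro (rfl | ⟨hb, hb1, hbv⟩)
            · exact ⟨hamem.1, ha1, hamem.2⟩
            · exact ⟨hb, hb1, by omega⟩
        rw [this, Finset.card_insert_of_notMem]
        simp only [Finset.mem_filter, not_and]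
        intro _ _
        omega
      have h2 : cnt (sumF A B) (a - 1) + 1 + cnt B (v - a) ≤ cnt (sumF A B) v := by
        unfold cnt
        have hsub : (sumF A B).filter (fun b => 1 ≤ b ∧ b ≤ a - 1) ∪ ({a} ∪
            (B.filter (fun b => 1 ≤ b ∧ b ≤ v - a)).image (fun b => a + b)) ⊆
            (sumF A B).filter (fun b => 1 ≤ b ∧ b ≤ v) := by
          intro b hb
          simp only [Finset.mem_union, Finset.mem_filter, Finset.mem_singleton,
            Finset.mem_image] at hb ⊢
          rcases hb with ⟨hb, hb1, hb2⟩ | rfl | ⟨c, ⟨hc, hc1, hc2⟩, rfl⟩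
          · exact ⟨hb, hb1, by omega⟩
          · refine ⟨?_, ha1, hamem.2⟩
            rw [mem_sumF]
            exact ⟨a, hamem.1, 0, hB, by simp⟩
          · refine ⟨?_, by omega, by omega⟩
            rw [mem_sumF]
            exact ⟨a, hamem.1, c, hc, rfl⟩
        refine le_trans (le_of_eq ?_) (Finset.card_le_card hsub)
        rw [Finset.card_union_of_disjoint, Finset.card_union_of_disjoint, Finset.card_singleton,
          Finset.card_image_of_injective]
        · ring
        · intro b c h; simpa using h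
        · rw [Finset.disjoint_left]
          intro b hb hb'
          simp only [Finset.mem_singleton, Finset.mem_image, Finset.mem_filter] at hb hb'
          obtain ⟨c, ⟨_, hc1, _⟩, hc⟩ := hb'
          omega
        · rw [Finset.disjoint_left]
          intro b hb hb'
          simp only [Finset.mem_singleton, Finset.mem_image, Finset.mem_filter,
            Finset.mem_union] at hb hb'
          rcases hb' with rfl | ⟨c, ⟨_, hc1, _⟩, hc⟩
          · omega
          · omega
      have h3 := ih (a - 1) (by omega) (by omega)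
      have h4 := hβ (v - a) (by omega)
      have h5 : ((cnt (sumF A B) (a - 1) : ℝ) + 1 + cnt B (v - a)) ≤ cnt (sumF A B) v := by
        exact_mod_cast h2
      have e1 : ((a - 1 : ℕ) : ℝ) = a - 1 := by
        rw [Nat.cast_sub ha1]; simp
      have e2 : ((v - a : ℕ) : ℝ) = v - a := by
        rw [Nat.cast_sub hamem.2]
      rw [e1] at h3
      rw [e2] at h4
      rw [h1]
      push_cast
      nlinarith

lemma schnirelmann_dens {A B : Finset ℕ} (hA : 0 ∈ A) (hB : 0 ∈ B) {α β : ℝ} (hβ1 : β ≤ 1) {L : ℕ}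
    (hα : ∀ v ≤ L, α * v ≤ cnt A v)
    (hβ : ∀ v ≤ L, β * v ≤ cnt B v) (v : ℕ) (hv : v ≤ L) :
    (1 - (1 - α) * (1 - β)) * v ≤ cnt (sumF A B) v := by
  have h1 := schnirelmann_step hA hB hβ v hv
  have h2 := hα v hv
  nlinarith

/-- iterated sumset -/
def ks (E : Finset ℕ) : ℕ → Finset ℕ
  | 0 => {0}
  | k + 1 => sumF (ks E k) E

lemma zero_mem_ks {E : Finset ℕ} (h : 0 ∈ E) (k : ℕ) : 0 ∈ ks E k := by
  induction k with
  | zero => simp [ks]
  | succ k ih => rw [ks, mem_sumF]; exact ⟨0, ih, 0, h, rfl⟩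

lemma ks_dens {E : Finset ℕ} (h : 0 ∈ E) {σ : ℝ} (hσ1 : σ ≤ 1) {L : ℕ}
    (hσ : ∀ v ≤ L, σ * v ≤ cnt E v) (k : ℕ) (v : ℕ) (hv : v ≤ L) :
    (1 - (1 - σ) ^ k) * v ≤ cnt (ks E k) v := by
  induction k generalizing v with
  | zero => simp
  | succ k ih =>
    have := schnirelmann_dens (zero_mem_ks h k) h (α := 1 - (1 - σ) ^ k) hσ1 ih hσ v hv
    rw [ks]
    have e : (1 - (1 - (1 - (1 - σ) ^ k)) * (1 - σ)) = 1 - (1 - σ) ^ (k + 1) := by ring
    rw [e] at this
    exact this

lemma mem_sumF_of_cnt {A B : Finset ℕ} (hA : 0 ∈ A) (hB : 0 ∈ B) {v : ℕ}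
    (h : v ≤ cnt A v + cnt B v) : v ∈ sumF A B := by
  by_cases hvA : v ∈ A
  · rw [mem_sumF]; exact ⟨v, hvA, 0, hB, by simp⟩
  by_cases hvB : v ∈ B
  · rw [mem_sumF]; exact ⟨0, hA, v, hvB, by simp⟩
  by_cases hv0 : v = 0
  · exact absurd (hv0 ▸ hA) hvA
  set A' := A.filter (fun a => 1 ≤ a ∧ a ≤ v) with hA'
  set B' := (B.filter (fun a => 1 ≤ a ∧ a ≤ v)).image (fun b => v - b) with hB'
  have hcB : B'.card = cnt B v := by
    rw [hB', Finset.card_image_of_injOn]
    · rfl
    · intro a ha b hb hab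
      simp only [Finset.coe_filter, Set.mem_setOf_eq] at ha hb
      simp only at hab
      omega
  have hsub : A' ∪ B' ⊆ Finset.Icc 1 (v - 1) := by
    intro a ha
    rw [Finset.mem_union] at ha
    rw [Finset.mem_Icc]
    rcases ha with ha | ha
    · rw [hA', Finset.mem_filter] at ha
      have : a ≠ v := fun e => hvA (e ▸ ha.1)
      omega
    · rw [hB', Finset.mem_image] at ha
      obtain ⟨b, hb, rfl⟩ := ha
      rw [Finset.mem_filter] at hb
      have : b ≠ v := fun e => hvB (e ▸ hb.1)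
      omega
  have hnd : ¬ Disjoint A' B' := by
    intro hd
    have h1 := Finset.card_le_card hsub
    rw [Finset.card_union_of_disjoint hd, hcB, Nat.card_Icc] at h1
    have h2 : A'.card = cnt A v := rfl
    omega
  rw [Finset.not_disjoint_iff] at hnd
  obtain ⟨a, ha, hb⟩ := hnd
  rw [hA', Finset.mem_filter] at ha
  rw [hB', Finset.mem_image] at hb
  obtain ⟨b, hb, hba⟩ := hb
  rw [Finset.mem_filter] at hb
  rw [mem_sumF]
  exact ⟨a, ha.1, b, hb.1, by omega⟩

lemma ks_cover {E : Finset ℕ} (h : 0 ∈ E) {σ : ℝ} (hσ1 : σ ≤ 1) {L : ℕ}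
    (hσ : ∀ v ≤ L, σ * v ≤ cnt E v) {k : ℕ} (hk : (1 - σ) ^ k ≤ 1 / 2) (v : ℕ) (hv : v ≤ L) :
    v ∈ sumF (ks E k) (ks E k) := by
  have h1 := ks_dens h hσ1 hσ k v hv
  apply mem_sumF_of_cnt (zero_mem_ks h k) (zero_mem_ks h k)
  have h2 : (v : ℝ) ≤ 2 * cnt (ks E k) v := by
    have : (0 : ℝ) ≤ v := by positivity
    nlinarith
  have h3 : (v : ℝ) ≤ ((cnt (ks E k) v + cnt (ks E k) v : ℕ) : ℝ) := by
    push_cast
    linarith
  exact_mod_cast h3

lemma ks_mem_submonoid {E : Finset ℕ} (C : AddSubmonoid ℕ) (b0 : ℕ) (hE : ∀ e ∈ E, b0 + e ∈ C)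
    (k : ℕ) (v : ℕ) (hv : v ∈ ks E k) : k * b0 + v ∈ C := by
  induction k generalizing v with
  | zero =>
    simp only [ks, Finset.mem_singleton] at hv
    rw [hv]
    simp
  | succ k ih =>
    rw [ks, mem_sumF] at hv
    obtain ⟨a, ha, e, he, rfl⟩ := hv
    have := C.add_mem (ih a ha) (hE e he)
    have e1 : k * b0 + a + (b0 + e) = (k + 1) * b0 + (a + e) := by ring
    rwa [e1] at this

lemma interval_mul (C : AddSubmonoid ℕ) (c L : ℕ) (h : ∀ v ≤ L, c + v ∈ C) (J : ℕ) :
    ∀ v ≤ J * L, J * c + v ∈ C := by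
  induction J with
  | zero => intro v hv; have : v = 0 := by omega
            subst this; simp
  | succ J ih =>
    intro v hv
    rw [Nat.succ_mul] at hv
    by_cases hvJ : v ≤ J * L
    · have := C.add_mem (ih v hvJ) (h 0 (Nat.zero_le _))
      have e1 : J * c + v + (c + 0) = (J + 1) * c + v := by ring
      rwa [e1] at this
    · have h1 := ih (J * L) le_rfl
      have h2 := h (v - J * L) (by omega)
      have := C.add_mem h1 h2
      have e1 : J * c + J * L + (c + (v - J * L)) = (J + 1) * c + v := by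
        have : J * L + (v - J * L) = v := by omega
        calc J * c + J * L + (c + (v - J * L)) = J * c + c + (J * L + (v - J * L)) := by ring
          _ = (J + 1) * c + v := by rw [this]; ring
      rwa [e1] at this

lemma all_large (C : AddSubmonoid ℕ) (c b0 : ℕ) (hb0 : 0 < b0) (hb : b0 ∈ C)
    (h : ∀ v ≤ b0, c + v ∈ C) (t : ℕ) (ht : c ≤ t) : t ∈ C := by
  obtain ⟨d, rfl⟩ := Nat.exists_eq_add_of_le ht
  have h1 : c + d % b0 ∈ C := h _ (Nat.mod_lt _ hb0).le
  have h2 : (d / b0) • b0 ∈ C := C.nsmul_mem hb _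
  have := C.add_mem h1 h2
  have e1 : c + d % b0 + (d / b0) • b0 = c + d := by
    rw [smul_eq_mul]
    have := Nat.mod_add_div d b0
    have e2 : d / b0 * b0 = b0 * (d / b0) := Nat.mul_comm _ _
    omega
  rwa [e1] at this

end schnirelmann

end Pool.Agent.helper15.NT
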